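import Pool.Agent.H21.GH.Third

/-!
MP_8923e7_nt, project GH.  At least a third of the multiples of every even number, in every long interval.
-/

namespace Pool.Agent.H21.GH

open Finset Pool.Agent.H21.QT

open Classical in
theorem Nc_sum (E : ℕ → Prop) (Q M X : ℕ) :
    Nc E Q M X 0 + Nc E Q M X 1 + Nc E Q M X 2 = ((Ioc M (M + X)).filter (fun n => E (Q * n))).card := by
  have h := card_eq_sum_card_fiberwise (s := (Ioc M (M + X)).filter (fun n => E (Q * n)))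
    (t := range 3) (f := fun n => n % 3) (fun n _ => by
      simp only [coe_range, Set.mem_Iio]
      exact Nat.mod_lt _ (by norm_num))
  have e : ∀ c, c < 3 → Nc E Q M X c =
      (((Ioc M (M + X)).filter (fun n => E (Q * n))).filter (fun n => n % 3 = c)).card := by
    intro c hc
    unfold Nc
    rw [filter_filter, Nat.mod_eq_of_lt hc]
    congr 1
    ext n
    simp only [mem_filter]
    tauto
  rw [h, sum_range_succ, sum_range_succ, sum_range_succ, sum_range_zero, zero_add,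
    e 0 (by norm_num), e 1 (by norm_num), e 2 (by norm_num)]

/-- three windows of increasing size with few good differences are impossible -/
theorem no_windows (E : ℕ → Prop) (h4 : K4P E) (Q : ℕ) (hQ : 0 < Q) (h2 : 2 ∣ Q) (η : ℝ) (hη : 0 < η)
    (hη1 : η ≤ 1) : ∃ B : ℝ, 0 < B ∧ ∀ (c0 c1 c2 c3 r : ℕ), c0 < 3 → c1 < 3 → c2 < 3 → c3 < 3 →
      ¬ 3 ∣ r + c0 → ¬ 3 ∣ r + c1 → ¬ 3 ∣ r + c2 → ¬ 3 ∣ r + c3 →
      ∀ M0 X0 M1 X1 M2 X2 : ℕ, B ≤ X0 → B * (M0 + X0 + 1) ≤ X1 → B * (M1 + X1 + M0 + X0 + 1) ≤ X2 →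
      ((Nc E Q M0 X0 (c1 + 2 * c0) : ℝ) ≤ (1 - η) * (X0 / 3)) →
      ((Nc E Q M1 X1 (c2 + 2 * c0) : ℝ) + Nc E Q M1 X1 (c2 + 2 * c1) ≤ (1 - η) * (X1 / 3)) →
      ((Nc E Q M2 X2 (c3 + 2 * c0) : ℝ) + Nc E Q M2 X2 (c3 + 2 * c1) + Nc E Q M2 X2 (c3 + 2 * c2) ≤
        (1 - η) * (X2 / 3)) → False := by
  classical
  obtain ⟨δ, C, hδ, hC, h⟩ := h4
  have hη3 : 0 < (η / 2) ^ 3 := by positivity
  -- the size of the blocks
  obtain ⟨L, hL1, hL⟩ : ∃ L : ℕ, 1 ≤ L ∧ C * (L : ℝ) ^ ((4 : ℝ) - δ) < (η / 2) ^ 3 * (L : ℝ) ^ 4 := by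
    have ht : Filter.Tendsto (fun L : ℕ => (L : ℝ) ^ δ) Filter.atTop Filter.atTop :=
      (tendsto_rpow_atTop hδ).comp tendsto_natCast_atTop_atTop
    obtain ⟨L, hL⟩ := ((ht.eventually_gt_atTop (C / (η / 2) ^ 3)).and
      (Filter.eventually_ge_atTop 1)).exists
    refine ⟨L, hL.2, ?_⟩
    have hLR : (0 : ℝ) < L := by exact_mod_cast hL.2
    have h1 := hL.1
    rw [div_lt_iff₀ hη3] at h1
    have e1 : (L : ℝ) ^ ((4 : ℝ) - δ) * (L : ℝ) ^ δ = (L : ℝ) ^ 4 := by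
      rw [← Real.rpow_add hLR]
      have : (4 : ℝ) - δ + δ = (4 : ℕ) := by norm_num
      rw [this, Real.rpow_natCast]
    have h3 : 0 < (L : ℝ) ^ ((4 : ℝ) - δ) := Real.rpow_pos_of_pos hLR _
    calc C * (L : ℝ) ^ ((4 : ℝ) - δ) < ((L : ℝ) ^ δ * (η / 2) ^ 3) * (L : ℝ) ^ ((4 : ℝ) - δ) :=
          mul_lt_mul_of_pos_right h1 h3
      _ = (η / 2) ^ 3 * ((L : ℝ) ^ ((4 : ℝ) - δ) * (L : ℝ) ^ δ) := by ring
      _ = _ := by rw [e1]
  have hLR : (0 : ℝ) ≤ L := Nat.cast_nonneg _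
  refine ⟨2 / η * (6 * L + 16), by positivity, ?_⟩
  intro c0 c1 c2 c3 r hc0 hc1 hc2 hc3 hr0 hr1 hr2 hr3 M0 X0 M1 X1 M2 X2 hX0 hX1 hX2 hN0 hN1 hN2
  have hfac : (0 : ℝ) ≤ 2 / η := by positivity
  obtain ⟨f, hf1, hf2, hf3, hf4⟩ := windows4 E Q L η hη hη1 c0 c1 c2 c3 hc0 hc1 hc2 hc3 M0 X0 M1 X1 M2 X2
    (3 * L + 3) (M0 + X0 + (3 * L + 3)) (M1 + X1 + (M0 + X0 + (3 * L + 3))) rfl rfl rfl
    (by
      refine le_trans ?_ hX0
      apply mul_le_mul_of_nonneg_left _ hfac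
      push_cast
      linarith)
    (by
      refine le_trans ?_ hX1
      rw [mul_assoc]
      apply mul_le_mul_of_nonneg_left _ hfac
      push_cast
      have h5 : (0 : ℝ) ≤ (M0 : ℝ) + X0 := by positivity
      nlinarith)
    (by
      refine le_trans ?_ hX2
      rw [mul_assoc]
      apply mul_le_mul_of_nonneg_left _ hfac
      push_cast
      have h5 : (0 : ℝ) ≤ (M1 : ℝ) + X1 + M0 + X0 := by positivity
      nlinarith)
    hN0 hN1 hN2
  -- the four sets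
  have h5 := h L (fun j => (range L).image (fun u => Q * f j u)) hL1
    (fun j => card_image_le.trans (card_range L).le)
  have h6 : (((Fintype.piFinset (fun _ : Fin 4 => range L)).filter
        (fun u => ∀ i j, i < j → ¬ E (Q * (f j (u j) - f i (u i))))).card : ℝ) ≤
      (((Fintype.piFinset (fun j : Fin 4 => (range L).image (fun u => Q * f j u))).filter
        (fun a => AdT (fun j => (a j : ℤ)) ∧ ∀ i j, a i < a j → ¬ E (a j - a i))).card : ℝ) := by
    rw [Nat.cast_le]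
    apply card_le_card_of_injOn (fun u j => Q * f j (u j))
    · intro u hu
      rw [mem_coe, mem_filter, Fintype.mem_piFinset] at hu
      rw [mem_coe, mem_filter, Fintype.mem_piFinset]
      refine ⟨fun j => mem_image.2 ⟨u j, hu.1 j, rfl⟩, ?_, ?_⟩
      · apply adT_two Q h2 (fun j => f j (u j)) r
        intro j
        have e := hf2 j (u j)
        fin_cases j <;> simp at e <;> simp <;> omega
      · intro i j hij
        have hlt : i < j := by
          rcases lt_trichotomy i j with h7 | h7 | h7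
          · exact h7
          · subst h7
            exact absurd hij (lt_irrefl _)
          · exfalso
            have h8 := hf3 j i (u j) (u i) h7 (mem_range.1 (hu.1 j)) (mem_range.1 (hu.1 i))
            have h9 : Q * f j (u j) < Q * f i (u i) := Nat.mul_lt_mul_of_pos_left h8 hQ
            exact absurd (hij.trans h9) (lt_irrefl _)
        have h10 := hu.2 i j hlt
        show ¬ E (Q * f j (u j) - Q * f i (u i))
        rw [← Nat.mul_sub]
        exact h10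
    · intro u _ v _ huv
      funext j
      have h7 := congrFun huv j
      simp only at h7
      exact hf1 j (Nat.eq_of_mul_eq_mul_left hQ h7)
  exact absurd (hf4.trans (h6.trans h5)) (not_le.2 hL)

open Classical in
/-- at least a third of the multiples of every even number, in every long interval -/
theorem third_dens (E : ℕ → Prop) (h4 : K4P E) (Q : ℕ) (hQ : 0 < Q) (h2 : 2 ∣ Q) (ε : ℝ) (hε : 0 < ε) :
    ∃ X0 : ℕ, ∀ X : ℕ, X0 ≤ X → ∀ M : ℕ,
      (1 / 3 - ε) * X ≤ (((Ioc M (M + X)).filter (fun n => E (Q * n))).card : ℝ) := by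
  by_contra hcon
  push Not at hcon
  have hε1 : ε < 1 / 3 := by
    by_contra h
    push Not at h
    obtain ⟨X, _, M, hXM⟩ := hcon 0
    have h1 : (1 / 3 - ε) * (X : ℝ) ≤ 0 := mul_nonpos_of_nonpos_of_nonneg (by linarith) (Nat.cast_nonneg _)
    have h3 : (0 : ℝ) ≤ (((Ioc M (M + X)).filter (fun n => E (Q * n))).card : ℝ) := Nat.cast_nonneg _
    linarith
  obtain ⟨B, hB, hno⟩ := no_windows E h4 Q hQ h2 ε hε (by linarith)
  have hsum : ∀ M X : ℕ, (((Ioc M (M + X)).filter (fun n => E (Q * n))).card : ℝ) < (1 / 3 - ε) * X →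
      (Nc E Q M X 0 : ℝ) + Nc E Q M X 1 + Nc E Q M X 2 < (1 - 3 * ε) * (X / 3) := by
    intro M X h
    have h1 : ((Nc E Q M X 0 + Nc E Q M X 1 + Nc E Q M X 2 : ℕ) : ℝ) =
        (((Ioc M (M + X)).filter (fun n => E (Q * n))).card : ℝ) := by rw [Nc_sum]
    push_cast at h1
    rw [h1]
    linarith
  by_cases hA : ∀ X0 : ℕ, ∃ X, X0 ≤ X ∧ ∃ M,
      (((Ioc M (M + X)).filter (fun n => E (Q * n))).card : ℝ) < (1 / 3 - ε) * X ∧
      (Nc E Q M X 0 : ℝ) < (1 / 2 - ε) * (X / 3)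
  · -- many windows with few good multiples of three
    obtain ⟨X0, hX0, M0, hb0, ha0⟩ := hA ⌈B⌉₊
    obtain ⟨X1, hX1, M1, hb1, ha1⟩ := hA ⌈B * (M0 + X0 + 1)⌉₊
    obtain ⟨X2, hX2, M2, hb2, ha2⟩ := hA ⌈B * (M1 + X1 + M0 + X0 + 1)⌉₊
    have hX0' : B ≤ X0 := (Nat.le_ceil _).trans (by exact_mod_cast hX0)
    have hX1' : B * (M0 + X0 + 1) ≤ X1 := (Nat.le_ceil _).trans (by exact_mod_cast hX1)
    have hX2' : B * (M1 + X1 + M0 + X0 + 1) ≤ X2 := (Nat.le_ceil _).trans (by exact_mod_cast hX2)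
    have hs2 := hsum M2 X2 hb2
    have hpos0 : (0 : ℝ) ≤ (X0 : ℝ) / 3 := by positivity
    have hpos1 : (0 : ℝ) ≤ (X1 : ℝ) / 3 := by positivity
    obtain ⟨c, hc, hmin⟩ : ∃ c : ℕ, c < 3 ∧ (Nc E Q M2 X2 c : ℝ) + Nc E Q M2 X2 c + Nc E Q M2 X2 c ≤
        (1 - ε) * (X2 / 3) := by
      by_contra hno2
      push Not at hno2
      have g0 := hno2 0 (by norm_num)
      have g1 := hno2 1 (by norm_num)
      have g2 := hno2 2 (by norm_num)
      have hpos2 : (0 : ℝ) ≤ (X2 : ℝ) / 3 := by positivity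
      nlinarith
    obtain ⟨r, hr0, hrc⟩ : ∃ r : ℕ, ¬ 3 ∣ r + 0 ∧ ¬ 3 ∣ r + c := by
      interval_cases c
      · exact ⟨1, by norm_num, by norm_num⟩
      · exact ⟨1, by norm_num, by norm_num⟩
      · exact ⟨2, by norm_num, by norm_num⟩
    refine hno 0 0 0 c r (by norm_num) (by norm_num) (by norm_num) hc hr0 hr0 hr0 hrc M0 X0 M1 X1 M2 X2
      hX0' hX1' hX2' ?_ ?_ ?_
    · simp only [Nat.mul_zero, Nat.add_zero]
      nlinarith
    · simp only [Nat.mul_zero, Nat.add_zero]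
      nlinarith
    · simp only [Nat.mul_zero, Nat.add_zero]
      exact hmin
  · push Not at hA
    obtain ⟨Z, hZ⟩ := hA
    obtain ⟨X0, hX0, M0, hb0⟩ := hcon (max Z ⌈B⌉₊)
    obtain ⟨X1, hX1, M1, hb1⟩ := hcon (max Z ⌈B * (M0 + X0 + 1)⌉₊)
    obtain ⟨X2, hX2, M2, hb2⟩ := hcon (max Z ⌈B * (M1 + X1 + M0 + X0 + 1)⌉₊)
    have hX0' : B ≤ X0 := (Nat.le_ceil _).trans (by exact_mod_cast (le_max_right _ _).trans hX0)
    have hX1' : B * (M0 + X0 + 1) ≤ X1 := (Nat.le_ceil _).trans (by exact_mod_cast (le_max_right _ _).trans hX1)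
    have hX2' : B * (M1 + X1 + M0 + X0 + 1) ≤ X2 :=
      (Nat.le_ceil _).trans (by exact_mod_cast (le_max_right _ _).trans hX2)
    have hz1 := hZ X1 ((le_max_left _ _).trans hX1) M1 hb1
    have hz2 := hZ X2 ((le_max_left _ _).trans hX2) M2 hb2
    have hs0 := hsum M0 X0 hb0
    have hs1 := hsum M1 X1 hb1
    have hs2 := hsum M2 X2 hb2
    have n01 : (0 : ℝ) ≤ Nc E Q M0 X0 1 := Nat.cast_nonneg _
    have n02 : (0 : ℝ) ≤ Nc E Q M0 X0 2 := Nat.cast_nonneg _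
    have n11 : (0 : ℝ) ≤ Nc E Q M1 X1 1 := Nat.cast_nonneg _
    have n12 : (0 : ℝ) ≤ Nc E Q M1 X1 2 := Nat.cast_nonneg _
    have hpos0 : (0 : ℝ) ≤ (X0 : ℝ) / 3 := by positivity
    have hpos1 : (0 : ℝ) ≤ (X1 : ℝ) / 3 := by positivity
    have hpos2 : (0 : ℝ) ≤ (X2 : ℝ) / 3 := by positivity
    rcases le_total (Nc E Q M2 X2 1) (Nc E Q M2 X2 2) with hle | hle
    · have hleR : (Nc E Q M2 X2 1 : ℝ) ≤ Nc E Q M2 X2 2 := by exact_mod_cast hle
      refine hno 0 0 1 1 1 (by norm_num) (by norm_num) (by norm_num) (by norm_num) (by norm_num)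
        (by norm_num) (by norm_num) (by norm_num) M0 X0 M1 X1 M2 X2 hX0' hX1' hX2' ?_ ?_ ?_
      · simp only [Nat.mul_zero, Nat.add_zero]
        nlinarith
      · simp only [Nat.mul_zero, Nat.add_zero]
        nlinarith
      · rw [Nc_mod E Q M2 X2 (1 + 2 * 1) 0 (by norm_num)]
        simp only [Nat.mul_zero, Nat.add_zero]
        nlinarith
    · have hleR : (Nc E Q M2 X2 2 : ℝ) ≤ Nc E Q M2 X2 1 := by exact_mod_cast hle
      refine hno 0 0 2 2 2 (by norm_num) (by norm_num) (by norm_num) (by norm_num) (by norm_num)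
        (by norm_num) (by norm_num) (by norm_num) M0 X0 M1 X1 M2 X2 hX0' hX1' hX2' ?_ ?_ ?_
      · simp only [Nat.mul_zero, Nat.add_zero]
        nlinarith
      · simp only [Nat.mul_zero, Nat.add_zero]
        nlinarith
      · rw [Nc_mod E Q M2 X2 (2 + 2 * 2) 0 (by norm_num)]
        simp only [Nat.mul_zero, Nat.add_zero]
        nlinarith

end Pool.Agent.H21.GH
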