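import Pool.Agent.H21.GH.Lv2

/-!
[H21 GH LV1]  Two scales.

`hbad`: every `q` has a multiple `Q` with `Long R r Q`.  Constants `δ, τ, ρ = r - 4γ` as in LV2 (`δ = κ γ/(36 K)`, `τ = δ γ/2`); `J` from `lev2`.
`Con(q)`: there are `s, P, N, x, y` with the properties of the conclusion.

INDUCTION.  `D(j)`: if `ρ + 3γ ≤ 1 + τ - jτ` (or `j = 0`) then for every `d > 0` with `q ∣ d` there is `Λ ≥ 1` such that for all `B > 0` with `q ∣ B` and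
`(1 + τ - jτ) Λ ≤ cnt R Λ d B`: `Con(q)`.
* `D(0)`: `Λ = 1`, impossible.
* `D(j) ⇒ D(j+1)`: `α = 1 - jτ`.  Let `Q2` be a multiple of `d` with `Long R r Q2` (`hbad`), `d' = Q2 (K!)^J K!`, `Λ'` from `D(j)` for `d'`,
  `P0' = max(P0, ⌈d' Λ'/γ⌉)`.  `lev2` for `Q2`, `P0'`, `N1` gives `s, P, N, x`: `d ∣ s`, `d ∣ x` (`d ∣ Q2`).  Let `g = s/d`, `h = x/d`.  For `1 ≤ m ≤ K`:
  `s m ∣ d'`, `d' = r_m (g m) d` with `r_m = d'/(s m) ≤ d'`, so `r_m Λ' ≤ d' Λ' ≤ γ P`.  Choose `Λ` with `(d'/d) Λ' ≤ τ Λ`, `Λ ≥ 2 g K P`,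
  `Λ - g K P ≥ 3 (h + g N)`.  Let `B` be given.
  If at most `δ Λ` of the `n < Λ` have `cnt R Λ' d' (B + d n) < (α - γ) Λ'`: `vv` with `g := g m`, `r := r_m`, `β = α - γ`: at most `(δ/γ) Λ` of the
  `n < Λ - g m P` have `cnt R P (g m d) (B + d n) < (α - 3γ) P` (`g m d = s m`).  `position` with `bad m n := cnt R P (s m) (B + d n) < ρ P`, `Λ := Λ - g K P`,
  `μ = 2δ/γ` gives `n0 ≥ h + g N`; `y = B + d n0 > x + s N`; `θ = 0, 1, -1` give `POK` at `y`, `y + x`, `y - x`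
  (`B + d (n0 + θ h + g w) = y + θ x + s w`).  `q ∣ y` as `q ∣ B`, `q ∣ d`.
  Otherwise `increment` and `D(j)` at `B + d n`.
CONCLUSION.  `Q1` = multiple of `q` with `Long R r Q1`, `j = ⌈(1 + 2τ - r)/τ⌉`, `D(j)` for `d = Q1`, `atom_exists`.
(The common part of LV1 and LV2 may be put into a lemma of its own.)
-/

namespace Pool.Agent.H21.GH

open Finset Pool.Agent.H11.HM

/-- the conclusion -/
def Con (R : Set ℤ) (ρ κ : ℝ) (K q P0 : ℕ) (N1 : ℕ → ℕ) : Prop :=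
    ∃ s P N x y : ℕ, 0 < s ∧ q ∣ s ∧ q ∣ x ∧ q ∣ y ∧ P0 ≤ P ∧ P.Prime ∧ N1 P ≤ N ∧ 1 ≤ N ∧ s * N < x ∧
      x + s * N < y ∧ POK R ρ κ K P N s x ∧ POK R ρ κ K P N s y ∧
      POK R ρ κ K P N s ((y : ℤ) + x) ∧ POK R ρ κ K P N s ((y : ℤ) - x)

open Classical in
theorem lev1_ind (R : Set ℤ) (r γ κ δ τ : ℝ) (K J : ℕ) (hγ : 0 < γ) (hδ : 0 < δ) (hτ : 0 < τ)
    (hτ1 : 2 * τ ≤ δ * γ) (hK : 1 ≤ K) (hμ : 18 * K * (2 * δ / γ) ≤ κ)
    (hbad : ∀ q : ℕ, 0 < q → ∃ Q : ℕ, 0 < Q ∧ q ∣ Q ∧ Long R r Q)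
    (h2 : ∀ Q : ℕ, 0 < Q → Long R r Q → ∀ (P0 : ℕ) (N1 : ℕ → ℕ), ∃ s P N x : ℕ, Q ∣ s ∧
      s ∣ Q * K.factorial ^ J ∧ 0 < s ∧ P0 ≤ P ∧ P.Prime ∧ N1 P ≤ N ∧ 1 ≤ N ∧ Q ∣ x ∧ s * N < x ∧
      POK R (r - 4 * γ) κ K P N s x) (q : ℕ) (P0 : ℕ) (N1 : ℕ → ℕ) :
    ∀ j : ℕ, (j = 0 ∨ (r - 4 * γ) + 3 * γ ≤ 1 + τ - j * τ) → ∀ d : ℕ, 0 < d → q ∣ d → ∃ Λ : ℕ, 1 ≤ Λ ∧
      ∀ B : ℤ, 0 < B → (q : ℤ) ∣ B → (1 + τ - j * τ) * Λ ≤ (cnt R Λ d B : ℝ) →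
        Con R (r - 4 * γ) κ K q P0 N1 := by
  intro j
  induction j with
  | zero =>
    intro _ d hd _
    refine ⟨1, le_rfl, fun B hB _ hcnt => ?_⟩
    exfalso
    have h1 : cnt R 1 d B ≤ 1 := by
      unfold cnt
      refine (card_filter_le _ _).trans ?_
      rw [card_range]
    have h2 : (cnt R 1 d B : ℝ) ≤ 1 := by exact_mod_cast h1
    push_cast at hcnt
    linarith
  | succ j ih =>
    intro hj d hd hqd
    have hj1 : (r - 4 * γ) + 3 * γ ≤ 1 - j * τ := by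
      rcases hj with h | h
      · exact absurd h (Nat.succ_ne_zero j)
      · push_cast at h
        linarith
    have hKf : 0 < K.factorial := Nat.factorial_pos K
    obtain ⟨Q2, hQ2, hdQ, hL2⟩ := hbad d hd
    obtain ⟨d', hd'⟩ : ∃ d' : ℕ, d' = Q2 * K.factorial ^ J * K.factorial := ⟨_, rfl⟩
    have hd'0 : 0 < d' := by rw [hd']; positivity
    have hdd' : d ∣ d' := by
      rw [hd', mul_assoc]
      exact Dvd.dvd.mul_right hdQ _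
    obtain ⟨Λ', hΛ', hrec⟩ := ih (Or.inr (by linarith)) d' hd'0 (hqd.trans hdd')
    obtain ⟨s, P, N, x, hQs, hsS, hs0, hP0, hPp, hN1, hN2, hQx, hsx, hpx⟩ :=
      h2 Q2 hQ2 hL2 (max P0 ⌈(d' : ℝ) * Λ' / γ⌉₊) N1
    have hPc : (d' : ℝ) * Λ' ≤ γ * P := by
      have h1 : (d' : ℝ) * Λ' / γ ≤ P :=
        (Nat.le_ceil _).trans (by exact_mod_cast (le_max_right _ _).trans hP0)
      rw [div_le_iff₀ hγ] at h1
      linarith
    obtain ⟨g, hg⟩ : d ∣ s := hdQ.trans hQs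
    obtain ⟨h, hh⟩ : d ∣ x := hdQ.trans hQx
    obtain ⟨r', hr'⟩ := hdd'
    obtain ⟨Λ, hΛ⟩ : ∃ Λ : ℕ, Λ = ⌈(r' : ℝ) * Λ' / τ⌉₊ + (3 * (g * K * P) + 3 * (h + g * N)) + 1 := ⟨_, rfl⟩
    have hΛτ : (r' : ℝ) * Λ' ≤ τ * Λ := by
      have h1 : (r' : ℝ) * Λ' / τ ≤ Λ := by
        refine (Nat.le_ceil _).trans ?_
        rw [hΛ]
        push_cast
        have : (0 : ℝ) ≤ 3 * (g * K * P) + 3 * (h + g * N) := by positivity
        linarith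
      rw [div_le_iff₀ hτ] at h1
      linarith
    refine ⟨Λ, by omega, fun B hB hqB hcnt => ?_⟩
    obtain ⟨α, hα⟩ : ∃ α : ℝ, α = 1 - j * τ := ⟨_, rfl⟩
    have hcntα : α * Λ ≤ (cnt R Λ d B : ℝ) := by
      refine le_trans (le_of_eq ?_) hcnt
      rw [hα]
      push_cast
      ring
    have hα1 : α ≤ 1 := by
      rw [hα]
      have : (0 : ℝ) ≤ j * τ := by positivity
      linarith
    have hcast : ((d' : ℕ) : ℤ) = (r' : ℤ) * (d : ℤ) := by rw [hr']; push_cast; ring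
    by_cases hb : (((range Λ).filter (fun n : ℕ =>
        (cnt R Λ' (d' : ℤ) (B + d * n) : ℝ) < (α - γ) * Λ')).card : ℝ) ≤ δ * Λ
    · obtain ⟨n0, hn0, hpok⟩ := good_case R B d g h d' Λ Λ' K P N (α - γ) γ δ κ (r - 4 * γ) hd hK
        hPp.one_lt.le hγ hδ (by linarith) hΛ' (by omega)
        (by
          intro m hm hmK
          rw [hd']
          have e : g * d = s := by rw [hg]; ring
          rw [e]
          exact Nat.mul_dvd_mul hsS (Nat.dvd_factorial hm hmK))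
        hd'0 hPc hb (by omega) (by omega)
        (by rw [hα]; linarith) hμ
      have hd1 : (1 : ℤ) ≤ d := by exact_mod_cast hd
      have hgd : g * d = s := by rw [hg]; ring
      have hhd : h * d = x := by rw [hh]; ring
      rw [hgd, hhd] at hpok
      have h5 : ((x + s * N : ℕ) : ℤ) < B + d * n0 := by
        have h6 : (d : ℤ) * ((h + g * N : ℕ) : ℤ) ≤ d * n0 := mul_le_mul_of_nonneg_left hn0 (by linarith)
        have h7 : (d : ℤ) * ((h + g * N : ℕ) : ℤ) = ((x + s * N : ℕ) : ℤ) := by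
          rw [← hgd, ← hhd]
          push_cast
          ring
        linarith
      have hxpos : 0 ≤ B + (d : ℤ) * n0 := le_trans (by positivity) h5.le
      have hxc : (((B + (d : ℤ) * n0).toNat : ℕ) : ℤ) = B + d * n0 := Int.toNat_of_nonneg hxpos
      have hqZ : (q : ℤ) ∣ (d : ℤ) := by exact_mod_cast hqd
      refine ⟨s, P, N, x, (B + (d : ℤ) * n0).toNat, hs0, hqd.trans (hdQ.trans hQs), hqd.trans (hdQ.trans hQx), ?_,
        (le_max_left _ _).trans hP0, hPp, hN1, hN2, hsx, ?_, hpx, ?_, ?_, ?_⟩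
      · have h8 : (q : ℤ) ∣ (((B + (d : ℤ) * n0).toNat : ℕ) : ℤ) := by
          rw [hxc]
          exact dvd_add hqB (Dvd.dvd.mul_right hqZ _)
        exact_mod_cast h8
      · rw [← hxc] at h5
        exact_mod_cast h5
      · rw [hxc]
        have h6 := hpok 0 (by norm_num) (by norm_num)
        simpa using h6
      · rw [hxc]
        have h6 := hpok 1 (by norm_num) (by norm_num)
        simpa using h6
      · rw [hxc]
        have h6 := hpok (-1) (by norm_num) (by norm_num)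
        have e : B + (d : ℤ) * n0 - (x : ℤ) = B + (d : ℤ) * n0 + -1 * (x : ℕ) := by ring
        rw [e]
        exact h6
    · push Not at hb
      obtain ⟨n, hn, hinc⟩ := increment R B d r' Λ Λ' α γ δ τ hγ hδ hτ hτ1 (by omega) hΛ' hΛτ hcntα
        (by
          rw [← hcast]
          exact hb)
      rw [← hcast] at hinc
      have hqZ : (q : ℤ) ∣ (d : ℤ) := by exact_mod_cast hqd
      exact hrec (B + d * n) (by positivity) (dvd_add hqB (Dvd.dvd.mul_right hqZ _)) (by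
        refine le_trans (le_of_eq ?_) hinc
        rw [hα]
        ring)

theorem lev1 (R : Set ℤ) (r γ κ : ℝ) (K : ℕ) (hγ : 0 < γ) (hκ : 0 < κ) (hK : 1 ≤ K)
    (hbad : ∀ q : ℕ, 0 < q → ∃ Q : ℕ, 0 < Q ∧ q ∣ Q ∧ Long R r Q) (q : ℕ) (hq : 0 < q) (P0 : ℕ) (N1 : ℕ → ℕ) :
    ∃ s P N x y : ℕ, 0 < s ∧ q ∣ s ∧ q ∣ x ∧ q ∣ y ∧ P0 ≤ P ∧ P.Prime ∧ N1 P ≤ N ∧ 1 ≤ N ∧ s * N < x ∧
      x + s * N < y ∧ POK R (r - 4 * γ) κ K P N s x ∧ POK R (r - 4 * γ) κ K P N s y ∧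
      POK R (r - 4 * γ) κ K P N s ((y : ℤ) + x) ∧ POK R (r - 4 * γ) κ K P N s ((y : ℤ) - x) := by
  obtain ⟨J, h2⟩ := lev2 R r γ κ K hγ hκ hK
  obtain ⟨δ, τ, j, hδ, hτ, hτ1, hμ, hj, hj2⟩ := lev_const r γ κ K hγ hκ hK
  obtain ⟨Q, hQ, hqQ, hL⟩ := hbad q hq
  obtain ⟨Λ, hΛ, h⟩ := lev1_ind R r γ κ δ τ K J hγ hδ hτ hτ1 hK hμ hbad h2 q P0 N1 j hj Q hQ hqQ
  obtain ⟨B, hB, hQB, hcnt⟩ := atom_exists R r τ hτ Q hQ hL Λ hΛ
  have hqZ : (q : ℤ) ∣ (Q : ℤ) := by exact_mod_cast hqQ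
  exact h B hB (hqZ.trans hQB) (by
    refine le_trans ?_ hcnt
    exact mul_le_mul_of_nonneg_right hj2 (Nat.cast_nonneg _))

end Pool.Agent.H21.GH
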