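import Pool.Agent.H21.GH.Df
import Pool.Agent.H11.HM.Cs

/-!
[H21 GH APF]  A common almost period for the correlations of `k` sets.

Proof.  `ε' = ε/(64 (k+2)^4)` (`≤ 1`), `K` from `almost_period ε'` (`Pool/Agent/H11/HM/Cs.lean`).  Let `Z = 4 L`, `L' = Z (k+1)(k+2)`; if `L = 0` everything
is `0`.  Encode with the following offsets: `s_i = (k - i) Z` for `i = 0, …, k` (`i = k`: the full
interval `[0, L)`), `s'_j = (k+1) j Z` for `j < k`; `S = ⋃_{i ≤ k} (F i + s_i)` with `F k := Ico 0 L`, `S' = ⋃_{j < k} (F j + s'_j)`; both in `[0, L')`,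
`|S| ≥ L ≥ ε' L'`, and `K P ≤ L ≤ L'`.  The differences `s'_j - s_i = ((k+1) j + i - k) Z` are all different multiples of `Z`
(`0 ≤ i ≤ k`), the correlation of `F i` and `F j` vanishes outside `(-L, L)`, so for `|n| < L`, `0 ≤ q ≤ L` the only contribution to
`cor S S' (n + q + s'_i - s_i)` is that of the pair `(i, i)`: it equals `cor (F i) (F i) (n + q)` (`|n + q| < 2L`, `Z = 4L`).
So for each `i < k`: `∑_{|n| < L} |cor (F i) (F i) (n + m P) - cor (F i) (F i) n| ≤ ∑_{n ∈ [-L', L')} |cor S S' (n + mP) - cor S S' n| ≤ ε' L'^2 ≤ ε L^2`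
(`m P ≤ K P ≤ L`; `L'^2 = 16 (k+1)^2 (k+2)^2 L^2`).
-/

namespace Pool.Agent.H21.GH

open Finset Pool.Agent.H11.HM

/-- two small multiples of `k + 1` -/
private theorem apf_int {k i a b Z u : ℤ} (hi0 : 0 ≤ i) (hik : i < k) (ha0 : 0 ≤ a) (hak : a ≤ k)
    (hu1 : -Z < u) (hu2 : u < Z) (h : (i - a + (k + 1) * (i - b)) * Z = u) : a = i ∧ b = i := by
  have hZ : 0 < Z := by linarith
  have h1 : i - a + (k + 1) * (i - b) = 0 := by
    by_contra hne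
    rcases lt_or_gt_of_ne hne with h2 | h2
    · have h3 : i - a + (k + 1) * (i - b) ≤ -1 := by linarith
      nlinarith
    · have h3 : 1 ≤ i - a + (k + 1) * (i - b) := by linarith
      nlinarith
  have h4 : i - b = 0 := by
    by_contra hne
    rcases lt_or_gt_of_ne hne with h2 | h2
    · have h3 : i - b ≤ -1 := by linarith
      nlinarith
    · have h3 : 1 ≤ i - b := by linarith
      nlinarith
  rw [h4] at h1
  constructor <;> linarith

theorem ap_fam (k : ℕ) (ε : ℝ) (h0 : 0 < ε) (h1 : ε ≤ 1) : ∃ K : ℕ, 1 ≤ K ∧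
    ∀ P L : ℕ, 1 ≤ P → K * P ≤ L → ∀ F : Fin k → Finset ℤ, (∀ i, F i ⊆ Ico 0 (L : ℤ)) →
      ∃ m : ℕ, 1 ≤ m ∧ m ≤ K ∧ ∀ i,
        ∑ n ∈ Ioo (-(L : ℤ)) L, |(cor (F i) (F i) (n + m * P) : ℝ) - (cor (F i) (F i) n : ℝ)| ≤
          ε * (L : ℝ) ^ 2 := by
  classical
  obtain ⟨ε', hε'⟩ : ∃ ε' : ℝ, ε' = ε / (64 * ((k : ℝ) + 2) ^ 4) := ⟨_, rfl⟩
  have hk0 : (0 : ℝ) ≤ k := Nat.cast_nonneg _
  have hden : (1 : ℝ) ≤ 64 * ((k : ℝ) + 2) ^ 4 := by
    have : (1 : ℝ) ≤ ((k : ℝ) + 2) ^ 4 := one_le_pow₀ (by linarith)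
    linarith
  have hε'0 : 0 < ε' := by rw [hε']; positivity
  have hε'1 : ε' ≤ 1 := by
    rw [hε', div_le_one (by positivity)]
    linarith
  obtain ⟨K, hK1, hK⟩ := almost_period ε' hε'0 hε'1
  refine ⟨K, hK1, ?_⟩
  intro P L hP hKP F hF
  have hL1 : 1 ≤ L := le_trans (Nat.mul_pos hK1 hP) hKP
  have hLz : (1 : ℤ) ≤ L := by exact_mod_cast hL1
  have hLr : (1 : ℝ) ≤ L := by exact_mod_cast hL1
  have hkz : (0 : ℤ) ≤ k := Int.natCast_nonneg _
  obtain ⟨Z, hZ⟩ : ∃ Z : ℤ, Z = 4 * L := ⟨_, rfl⟩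
  have hZ0 : 0 < Z := by rw [hZ]; linarith
  obtain ⟨L', hL'⟩ : ∃ L' : ℕ, L' = 4 * L * ((k + 1) * (k + 2)) := ⟨_, rfl⟩
  have hL'z : (L' : ℤ) = Z * (((k : ℤ) + 1) * (k + 2)) := by
    rw [hL', hZ]
    push_cast
    ring
  have hL'r : (L' : ℝ) = 4 * L * (((k : ℝ) + 1) * (k + 2)) := by
    rw [hL']
    push_cast
    ring
  have hLL' : L ≤ L' := by
    rw [hL']
    nlinarith [Nat.zero_le k, Nat.zero_le (L * k), Nat.zero_le (L * (k * k))]
  obtain ⟨Fx, hFx⟩ : ∃ Fx : ℕ → Finset ℤ, ∀ i, Fx i =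
      if h : i < k then F ⟨i, h⟩ else Ico 0 (L : ℤ) := ⟨_, fun _ => rfl⟩
  have hFxs : ∀ i, Fx i ⊆ Ico 0 (L : ℤ) := by
    intro i
    rw [hFx]
    split_ifs with h
    · exact hF _
    · exact subset_rfl
  have hFxi : ∀ i : Fin k, Fx i = F i := by
    intro i
    rw [hFx, dif_pos i.2]
  have hFxk : Fx k = Ico 0 (L : ℤ) := by
    rw [hFx, dif_neg (lt_irrefl k)]
  obtain ⟨S, hS⟩ : ∃ S : Finset ℤ, S = (range (k + 1)).biUnion
      (fun a => (Fx a).image (fun y => y + ((k : ℤ) - a) * Z)) := ⟨_, rfl⟩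
  obtain ⟨S', hS'⟩ : ∃ S' : Finset ℤ, S' = (range k).biUnion
      (fun b => (Fx b).image (fun y => y + ((k : ℤ) + 1) * b * Z)) := ⟨_, rfl⟩
  have hmS : ∀ y, y ∈ S ↔ ∃ a : ℕ, a ≤ k ∧ ∃ z ∈ Fx a, z + ((k : ℤ) - a) * Z = y := by
    intro y
    rw [hS, mem_biUnion]
    constructor
    · rintro ⟨a, ha, hy⟩
      rw [mem_range] at ha
      rw [mem_image] at hy
      exact ⟨a, by omega, hy⟩
    · rintro ⟨a, ha, hy⟩
      refine ⟨a, by rw [mem_range]; omega, ?_⟩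
      rw [mem_image]
      exact hy
  have hmS' : ∀ y, y ∈ S' ↔ ∃ b : ℕ, b < k ∧ ∃ z ∈ Fx b, z + ((k : ℤ) + 1) * b * Z = y := by
    intro y
    rw [hS', mem_biUnion]
    constructor
    · rintro ⟨a, ha, hy⟩
      rw [mem_range] at ha
      rw [mem_image] at hy
      exact ⟨a, by omega, hy⟩
    · rintro ⟨a, ha, hy⟩
      refine ⟨a, by rw [mem_range]; omega, ?_⟩
      rw [mem_image]
      exact hy
  have hSs : S ⊆ Ico 0 (L' : ℤ) := by
    intro y hy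
    rw [hmS] at hy
    obtain ⟨a, ha, z, hz, rfl⟩ := hy
    have h1 := hFxs a hz
    rw [mem_Ico] at h1 ⊢
    have ha' : (a : ℤ) ≤ k := by exact_mod_cast ha
    have ha0 : (0 : ℤ) ≤ a := Int.natCast_nonneg _
    have h2 : 0 ≤ ((k : ℤ) - a) * Z := mul_nonneg (by linarith) hZ0.le
    have h3 : ((k : ℤ) - a) * Z ≤ k * Z := mul_le_mul_of_nonneg_right (by linarith) hZ0.le
    refine ⟨by linarith, ?_⟩
    rw [hL'z]
    have h4 : 0 ≤ Z * ((k : ℤ) * k) := mul_nonneg hZ0.le (mul_nonneg hkz hkz)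
    have h5 : 0 ≤ Z * (k : ℤ) := mul_nonneg hZ0.le hkz
    have h6 : Z * (((k : ℤ) + 1) * (k + 2)) = Z * ((k : ℤ) * k) + 3 * (Z * k) + 2 * Z := by ring
    rw [h6]
    linarith
  have hSs' : S' ⊆ Ico 0 (L' : ℤ) := by
    intro y hy
    rw [hmS'] at hy
    obtain ⟨b, hb, z, hz, rfl⟩ := hy
    have h1 := hFxs b hz
    rw [mem_Ico] at h1 ⊢
    have hb' : (b : ℤ) ≤ k := by exact_mod_cast hb.le
    have hb0 : (0 : ℤ) ≤ b := Int.natCast_nonneg _
    have h2 : 0 ≤ ((k : ℤ) + 1) * b * Z := mul_nonneg (mul_nonneg (by linarith) hb0) hZ0.le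
    have h3 : ((k : ℤ) + 1) * b * Z ≤ ((k : ℤ) + 1) * k * Z :=
      mul_le_mul_of_nonneg_right (mul_le_mul_of_nonneg_left hb' (by linarith)) hZ0.le
    refine ⟨by linarith, ?_⟩
    rw [hL'z]
    have h5 : 0 ≤ Z * (k : ℤ) := mul_nonneg hZ0.le hkz
    have h6 : Z * (((k : ℤ) + 1) * (k + 2)) = ((k : ℤ) + 1) * k * Z + 2 * (Z * k) + 2 * Z := by ring
    rw [h6]
    linarith
  have hScard : ε' * (L' : ℝ) ≤ (S.card : ℝ) := by
    have hsubS : Ico 0 (L : ℤ) ⊆ S := by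
      intro y hy
      rw [hmS]
      refine ⟨k, le_rfl, y, ?_, ?_⟩
      · rw [hFxk]
        exact hy
      · rw [sub_self, zero_mul, add_zero]
    have h2 := card_le_card hsubS
    rw [Int.card_Ico, sub_zero, Int.toNat_natCast] at h2
    have h3 : (L : ℝ) ≤ S.card := by exact_mod_cast h2
    refine le_trans ?_ h3
    rw [hε', hL'r, div_mul_eq_mul_div, div_le_iff₀ (by positivity)]
    have e1 : (1 : ℝ) ≤ (k : ℝ) + 2 := by linarith
    have e2 : ((k : ℝ) + 1) * (k + 2) ≤ ((k : ℝ) + 2) ^ 4 := by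
      have e3 : ((k : ℝ) + 1) * (k + 2) ≤ ((k : ℝ) + 2) ^ 2 := by nlinarith
      have e4 : ((k : ℝ) + 2) ^ 2 ≤ ((k : ℝ) + 2) ^ 4 := pow_le_pow_right₀ e1 (by norm_num)
      linarith
    have e5 : 0 ≤ ((k : ℝ) + 1) * (k + 2) := by positivity
    calc ε * (4 * L * (((k : ℝ) + 1) * (k + 2))) ≤ 1 * (4 * L * (((k : ℝ) + 1) * (k + 2))) :=
          mul_le_mul_of_nonneg_right h1 (by positivity)
      _ = L * (4 * (((k : ℝ) + 1) * (k + 2))) := by ring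
      _ ≤ L * (64 * ((k : ℝ) + 2) ^ 4) := mul_le_mul_of_nonneg_left (by linarith) (by positivity)
  obtain ⟨m, hm1, hmK, hm⟩ := hK P L' hP (hKP.trans hLL') S S' hSs hSs' hScard
  refine ⟨m, hm1, hmK, ?_⟩
  intro i
  have hi0 : (0 : ℤ) ≤ (i : ℕ) := Int.natCast_nonneg _
  have hik : ((i : ℕ) : ℤ) < k := by exact_mod_cast i.2
  obtain ⟨c, hc⟩ : ∃ c : ℤ, c = ((k : ℤ) + 1) * (i : ℕ) * Z - ((k : ℤ) - (i : ℕ)) * Z := ⟨_, rfl⟩
  have hcor : ∀ t : ℤ, -(L : ℤ) < t → t < 2 * L → cor S S' (t + c) = cor (F i) (F i) t := by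
    intro t ht1 ht2
    symm
    unfold cor
    refine card_bij (fun y _ => y + ((k : ℤ) - (i : ℕ)) * Z) ?_ ?_ ?_
    · intro y hy
      rw [mem_filter] at hy ⊢
      constructor
      · rw [hmS]
        exact ⟨i, i.2.le, y, by rw [hFxi]; exact hy.1, rfl⟩
      · rw [hmS']
        refine ⟨i, i.2, y + t, by rw [hFxi]; exact hy.2, ?_⟩
        rw [hc]
        ring
    · intro y _ y' _ h
      exact add_right_cancel h
    · intro y hy
      rw [mem_filter, hmS, hmS'] at hy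
      obtain ⟨⟨a, ha, z, hz, hzy⟩, b, hb, z', hz', hzy'⟩ := hy
      have h1 := mem_Ico.1 (hFxs a hz)
      have h2 := mem_Ico.1 (hFxs b hz')
      have ha0 : (0 : ℤ) ≤ (a : ℤ) := Int.natCast_nonneg _
      have hak : (a : ℤ) ≤ k := by exact_mod_cast ha
      have h3 := apf_int (k := (k : ℤ)) (i := ((i : ℕ) : ℤ)) (a := (a : ℤ)) (b := (b : ℤ)) (Z := Z)
        (u := z' - z - t) hi0 hik ha0 hak (by rw [hZ]; linarith) (by rw [hZ]; linarith) (by
          rw [← hzy, hc] at hzy'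
          linear_combination -hzy')
      have h4 : a = i := by exact_mod_cast h3.1
      have h5 : b = i := by exact_mod_cast h3.2
      subst h4
      subst h5
      refine ⟨z, ?_, hzy⟩
      rw [mem_filter]
      rw [hFxi] at hz hz'
      refine ⟨hz, ?_⟩
      have h6 : z + t = z' := by
        rw [← hzy, hc] at hzy'
        linear_combination -hzy'
      rw [h6]
      exact hz'
  have hmP : m * P ≤ L := (Nat.mul_le_mul_right P hmK).trans hKP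
  have hmPz : ((m : ℤ) * P) ≤ L := by exact_mod_cast hmP
  have hmP0 : (0 : ℤ) ≤ (m : ℤ) * P := by positivity
  have hsum : ∑ n ∈ Ioo (-(L : ℤ)) L, |(cor (F i) (F i) (n + m * P) : ℝ) -
      (cor (F i) (F i) n : ℝ)| = ∑ n ∈ (Ioo (-(L : ℤ)) L).image (fun n => n + c),
        |(cor S S' (n + m * P) : ℝ) - (cor S S' n : ℝ)| := by
    rw [sum_image (fun a _ b _ h => add_right_cancel h)]
    refine sum_congr rfl fun n hn => ?_
    rw [mem_Ioo] at hn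
    rw [hcor n hn.1 (by linarith)]
    have h1 : n + c + (m : ℤ) * P = (n + m * P) + c := by ring
    rw [h1, hcor (n + m * P) (by linarith) (by linarith)]
  rw [hsum]
  have hsub : (Ioo (-(L : ℤ)) L).image (fun n => n + c) ⊆ Ico (-(L' : ℤ)) L' := by
    intro y hy
    rw [mem_image] at hy
    obtain ⟨n, hn, rfl⟩ := hy
    rw [mem_Ioo] at hn
    rw [mem_Ico, hL'z, hc]
    have h1 : 0 ≤ ((k : ℤ) + 1) * (i : ℕ) * Z := mul_nonneg (mul_nonneg (by linarith) hi0) hZ0.le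
    have h2 : ((k : ℤ) + 1) * (i : ℕ) * Z ≤ ((k : ℤ) + 1) * k * Z :=
      mul_le_mul_of_nonneg_right (mul_le_mul_of_nonneg_left hik.le (by linarith)) hZ0.le
    have h3 : 0 ≤ ((k : ℤ) - (i : ℕ)) * Z := mul_nonneg (by linarith) hZ0.le
    have h4 : ((k : ℤ) - (i : ℕ)) * Z ≤ k * Z := mul_le_mul_of_nonneg_right (by linarith) hZ0.le
    have h5 : 0 ≤ Z * ((k : ℤ) * k) := mul_nonneg hZ0.le (mul_nonneg hkz hkz)
    have h6 : 0 ≤ Z * (k : ℤ) := mul_nonneg hZ0.le hkz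
    constructor
    · have h7 : Z * (((k : ℤ) + 1) * (k + 2)) = Z * ((k : ℤ) * k) + 3 * (Z * k) + 2 * Z := by ring
      rw [h7]
      linarith
    · have h7 : Z * (((k : ℤ) + 1) * (k + 2)) = ((k : ℤ) + 1) * k * Z + 2 * (Z * k) + 2 * Z := by
        ring
      rw [h7]
      linarith
  refine (sum_le_sum_of_subset_of_nonneg hsub fun _ _ _ => abs_nonneg _).trans (hm.trans ?_)
  rw [hε', hL'r]
  have e1 : (0 : ℝ) < ((k : ℝ) + 2) ^ 4 := by positivity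
  have e2 : (((k : ℝ) + 1) * (k + 2)) ^ 2 ≤ ((k : ℝ) + 2) ^ 4 := by
    have e3 : ((k : ℝ) + 1) * (k + 2) ≤ ((k : ℝ) + 2) ^ 2 := by nlinarith
    calc (((k : ℝ) + 1) * (k + 2)) ^ 2 ≤ (((k : ℝ) + 2) ^ 2) ^ 2 :=
          pow_le_pow_left₀ (by positivity) e3 2
      _ = ((k : ℝ) + 2) ^ 4 := by ring
  rw [div_mul_eq_mul_div, div_le_iff₀ (by positivity)]
  calc ε * (4 * L * (((k : ℝ) + 1) * (k + 2))) ^ 2
      = ε * (L : ℝ) ^ 2 * (16 * (((k : ℝ) + 1) * (k + 2)) ^ 2) := by ring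
    _ ≤ ε * (L : ℝ) ^ 2 * (64 * ((k : ℝ) + 2) ^ 4) :=
        mul_le_mul_of_nonneg_left (by linarith) (by positivity)

end Pool.Agent.H21.GH
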