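import Pool.Agent.H21.GH.Df

/-!
[H21 GH BDY]  Shifting the four variables.

`f` with values in `[0, 1]`, `x0, …, x3 ≤ X` naturals.  Claim: `∑_{a,b,c,d < N} ∏ f e ((y_j + x_j) - (y_i + x_i)) ≤ TT N f + 4 X N^3`
(`(y_0, …, y_3) = (a, b, c, d)`).

Proof.  `G(a, b, c, d) = ∏ f e (y_j - y_i)` for natural (or integer) arguments, `0 ≤ G ≤ 1`.  One variable at a time:
`∑_{a < N} H(a + x) = ∑_{x ≤ a < N + x} H(a) ≤ ∑_{a < N} H(a) + x` for `0 ≤ H ≤ 1` (`H : ℕ → ℝ`).  Four steps, each costs at most `X N^3`.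
-/

namespace Pool.Agent.H21.GH

open Finset Pool.Agent.H11.HM

private theorem bd_shift (N X x : ℕ) (H : ℕ → ℝ) (M : ℝ) (h0 : ∀ a, 0 ≤ H a) (h1 : ∀ a, H a ≤ M) (hx : x ≤ X) :
    ∑ a ∈ range N, H (a + x) ≤ ∑ a ∈ range N, H a + X * M := by
  have hM : 0 ≤ M := (h0 0).trans (h1 0)
  have e1 : ∑ a ∈ range (x + N), H a = ∑ a ∈ range x, H a + ∑ a ∈ range N, H (x + a) := Finset.sum_range_add _ _ _
  have e2 : ∑ a ∈ range (N + x), H a = ∑ a ∈ range N, H a + ∑ a ∈ range x, H (N + a) := Finset.sum_range_add _ _ _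
  have e3 : 0 ≤ ∑ a ∈ range x, H a := Finset.sum_nonneg fun a _ => h0 a
  have e4 : ∑ a ∈ range x, H (N + a) ≤ X * M := by
    calc ∑ a ∈ range x, H (N + a) ≤ ∑ a ∈ range x, M := Finset.sum_le_sum fun a _ => h1 _
      _ = x * M := by rw [Finset.sum_const, Finset.card_range, nsmul_eq_mul]
      _ ≤ X * M := mul_le_mul_of_nonneg_right (by exact_mod_cast hx) hM
  rw [Nat.add_comm x N] at e1
  have e5 : ∑ a ∈ range N, H (a + x) = ∑ a ∈ range N, H (x + a) := Finset.sum_congr rfl fun a _ => by rw [Nat.add_comm]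
  linarith

private theorem bd_sum (N : ℕ) (H : ℕ → ℝ) (M : ℝ) (h1 : ∀ a, H a ≤ M) : ∑ a ∈ range N, H a ≤ N * M := by
  calc ∑ a ∈ range N, H a ≤ ∑ a ∈ range N, M := Finset.sum_le_sum fun a _ => h1 _
    _ = N * M := by rw [Finset.sum_const, Finset.card_range, nsmul_eq_mul]

private theorem bd_four (N X : ℕ) (G : ℕ → ℕ → ℕ → ℕ → ℝ) (g0 : ∀ a b c d, 0 ≤ G a b c d) (g1 : ∀ a b c d, G a b c d ≤ 1)
    (x0 x1 x2 x3 : ℕ) (h0 : x0 ≤ X) (h1 : x1 ≤ X) (h2 : x2 ≤ X) (h3 : x3 ≤ X) :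
    ∑ a ∈ range N, ∑ b ∈ range N, ∑ c ∈ range N, ∑ d ∈ range N, G (a + x0) (b + x1) (c + x2) (d + x3) ≤
      ∑ a ∈ range N, ∑ b ∈ range N, ∑ c ∈ range N, ∑ d ∈ range N, G a b c d + 4 * X * (N : ℝ) ^ 3 := by
  have s1 := bd_shift N X x0 (fun a => ∑ b ∈ range N, ∑ c ∈ range N, ∑ d ∈ range N, G a (b + x1) (c + x2) (d + x3)) (N * (N * (N * 1)))
    (fun a => Finset.sum_nonneg fun b _ => Finset.sum_nonneg fun c _ => Finset.sum_nonneg fun d _ => g0 _ _ _ _)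
    (fun a => bd_sum N _ _ fun b => bd_sum N _ _ fun c => bd_sum N _ _ fun d => g1 _ _ _ _) h0
  have s2 : ∀ a, ∑ b ∈ range N, ∑ c ∈ range N, ∑ d ∈ range N, G a (b + x1) (c + x2) (d + x3) ≤
      ∑ b ∈ range N, ∑ c ∈ range N, ∑ d ∈ range N, G a b (c + x2) (d + x3) + X * (N * (N * 1)) := fun a =>
    bd_shift N X x1 (fun b => ∑ c ∈ range N, ∑ d ∈ range N, G a b (c + x2) (d + x3)) (N * (N * 1))
      (fun b => Finset.sum_nonneg fun c _ => Finset.sum_nonneg fun d _ => g0 _ _ _ _)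
      (fun b => bd_sum N _ _ fun c => bd_sum N _ _ fun d => g1 _ _ _ _) h1
  have s3 : ∀ a b, ∑ c ∈ range N, ∑ d ∈ range N, G a b (c + x2) (d + x3) ≤
      ∑ c ∈ range N, ∑ d ∈ range N, G a b c (d + x3) + X * (N * 1) := fun a b =>
    bd_shift N X x2 (fun c => ∑ d ∈ range N, G a b c (d + x3)) (N * 1)
      (fun c => Finset.sum_nonneg fun d _ => g0 _ _ _ _)
      (fun c => bd_sum N _ _ fun d => g1 _ _ _ _) h2
  have s4 : ∀ a b c, ∑ d ∈ range N, G a b c (d + x3) ≤ ∑ d ∈ range N, G a b c d + X * 1 := fun a b c =>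
    bd_shift N X x3 (fun d => G a b c d) 1 (fun d => g0 _ _ _ _) (fun d => g1 _ _ _ _) h3
  have t3 : ∀ a b, ∑ c ∈ range N, ∑ d ∈ range N, G a b (c + x2) (d + x3) ≤
      ∑ c ∈ range N, ∑ d ∈ range N, G a b c d + 2 * X * N := by
    intro a b
    have h := Finset.sum_le_sum (s := range N) fun c _ => s4 a b c
    rw [Finset.sum_add_distrib, Finset.sum_const, Finset.card_range, nsmul_eq_mul] at h
    have := s3 a b
    nlinarith
  have t2 : ∀ a, ∑ b ∈ range N, ∑ c ∈ range N, ∑ d ∈ range N, G a (b + x1) (c + x2) (d + x3) ≤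
      ∑ b ∈ range N, ∑ c ∈ range N, ∑ d ∈ range N, G a b c d + 3 * X * (N : ℝ) ^ 2 := by
    intro a
    have h := Finset.sum_le_sum (s := range N) fun b _ => t3 a b
    rw [Finset.sum_add_distrib, Finset.sum_const, Finset.card_range, nsmul_eq_mul] at h
    have := s2 a
    nlinarith
  have h := Finset.sum_le_sum (s := range N) fun a _ => t2 a
  rw [Finset.sum_add_distrib, Finset.sum_const, Finset.card_range, nsmul_eq_mul] at h
  have h5 : (N : ℝ) * (3 * X * (N : ℝ) ^ 2) + X * (N * (N * (N * 1))) = 4 * X * (N : ℝ) ^ 3 := by ring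
  linarith

theorem shift_bound (N X : ℕ) (f : Fin 6 → ℤ → ℝ) (hf0 : ∀ e z, 0 ≤ f e z) (hf1 : ∀ e z, f e z ≤ 1)
    (x0 x1 x2 x3 : ℕ) (h0 : x0 ≤ X) (h1 : x1 ≤ X) (h2 : x2 ≤ X) (h3 : x3 ≤ X) :
    (∑ a ∈ range N, ∑ b ∈ range N, ∑ c ∈ range N, ∑ d ∈ range N,
      f 0 ((b : ℤ) - a + (x1 - x0)) * f 1 ((c : ℤ) - a + (x2 - x0)) * f 2 ((d : ℤ) - a + (x3 - x0)) *
        f 3 ((c : ℤ) - b + (x2 - x1)) * f 4 ((d : ℤ) - b + (x3 - x1)) * f 5 ((d : ℤ) - c + (x3 - x2))) ≤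
      TT N f + 4 * X * (N : ℝ) ^ 3 := by
  have h := bd_four N X (fun a b c d => f 0 ((b : ℤ) - a) * f 1 ((c : ℤ) - a) * f 2 ((d : ℤ) - a) *
      f 3 ((c : ℤ) - b) * f 4 ((d : ℤ) - b) * f 5 ((d : ℤ) - c))
    (fun a b c d => by
      have := hf0 0 ((b : ℤ) - a)
      have := hf0 1 ((c : ℤ) - a)
      have := hf0 2 ((d : ℤ) - a)
      have := hf0 3 ((c : ℤ) - b)
      have := hf0 4 ((d : ℤ) - b)
      have := hf0 5 ((d : ℤ) - c)
      positivity)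
    (fun a b c d => by
      have k0 := hf0 0 ((b : ℤ) - a)
      have k1 := hf0 1 ((c : ℤ) - a)
      have k2 := hf0 2 ((d : ℤ) - a)
      have k3 := hf0 3 ((c : ℤ) - b)
      have k4 := hf0 4 ((d : ℤ) - b)
      have k5 := hf0 5 ((d : ℤ) - c)
      exact mul_le_one₀ (mul_le_one₀ (mul_le_one₀ (mul_le_one₀ (mul_le_one₀ (hf1 _ _) k1 (hf1 _ _)) k2 (hf1 _ _)) k3 (hf1 _ _))
        k4 (hf1 _ _)) k5 (hf1 _ _)) x0 x1 x2 x3 h0 h1 h2 h3
  refine le_trans (le_of_eq ?_) h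
  refine Finset.sum_congr rfl fun a _ => Finset.sum_congr rfl fun b _ => Finset.sum_congr rfl fun c _ =>
    Finset.sum_congr rfl fun d _ => ?_
  have e : ∀ (p q x y : ℕ), (p : ℤ) - q + (x - y) = ((p + x : ℕ) : ℤ) - ((q + y : ℕ) : ℤ) := by
    intro p q x y
    push_cast
    ring
  rw [e, e, e, e, e, e]

end Pool.Agent.H21.GH
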