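import Pool.Agent.H21.GH.Df

/-!
[H21 GH BIL]  Bilinear forms and correlations.

`h(z) = 1_F(z + q) - 1_F(z)` (`ind` of the set `F`), `|u|, |v| ≤ 1`.

Proof.  Let `T = ∑_{b < N} v(b) ∑_{a < N} h(b - a) u(a)`.  By Cauchy-Schwarz `T^2 ≤ N ∑_{b < N} (∑_{a < N} h(b-a) u(a))^2 ≤ N ∑_{b ∈ Z} (∑_{a < N} h(b-a) u(a))^2`
(sum over any finite set of integers `b` which contains `[0,N)` and all `b` with `h(b-a) ≠ 0` for some `a < N`, e.g. `b ∈ B`, where `B` is the
union of `range N` and the translates `F + a`, `F - q + a`).  Expand: `= N ∑_{a, a' < N} u(a) u(a') ∑_b h(b - a) h(b - a')`, and for `n = a - a'`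
`∑_b h(b - a) h(b - a') = ∑_z h(z) h(z + n) = 2 cor(n) - cor(n+q) - cor(n-q)` where `cor = cor F F` (`∑_z 1_F(z + q) 1_F(z + n + q) = ∑_z 1_F(z) 1_F(z+n) = cor(n)`,
`∑_z 1_F(z) 1_F(z+n+q) = cor(n+q)`, `∑_z 1_F(z + q) 1_F(z + n) = cor(n - q)`).  For each `n ∈ (-N, N)` there are at most `N` pairs `(a, a')`.
-/

namespace Pool.Agent.H21.GH

open Finset Pool.Agent.H11.HM

private theorem ind_sum (F Z : Finset ℤ) (s t : ℤ) (hZ : ∀ w ∈ F, w - s ∈ Z) :
    ∑ z ∈ Z, ind (F : Set ℤ) (z + s) * ind (F : Set ℤ) (z + t) = (cor F F (t - s) : ℝ) := by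
  classical
  have h1 : ∑ z ∈ F.image (fun w => w - s), ind (F : Set ℤ) (z + s) * ind (F : Set ℤ) (z + t) =
      ∑ z ∈ Z, ind (F : Set ℤ) (z + s) * ind (F : Set ℤ) (z + t) := by
    apply sum_subset
    · intro z hz
      rw [mem_image] at hz
      obtain ⟨w, hw, rfl⟩ := hz
      exact hZ w hw
    · intro z _ hz
      have h2 : z + s ∉ (F : Set ℤ) := by
        intro h3
        apply hz
        rw [mem_image]
        exact ⟨z + s, h3, by ring⟩
      unfold ind
      rw [if_neg h2, zero_mul]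
  rw [← h1, sum_image (fun x _ y _ h => by
    linarith)]
  unfold cor
  rw [card_eq_sum_ones, sum_filter]
  push_cast
  apply sum_congr rfl
  intro w hw
  have e1 : w - s + s = w := by ring
  have e2 : w - s + t = w + (t - s) := by ring
  rw [e1, e2]
  unfold ind
  rw [if_pos (show w ∈ (F : Set ℤ) from hw), one_mul]
  congr 1

theorem bilinear (F : Finset ℤ) (N : ℕ) (q : ℤ) (u v : ℕ → ℝ) (hu : ∀ a, |u a| ≤ 1) (hv : ∀ a, |v a| ≤ 1) :
    (∑ a ∈ range N, ∑ b ∈ range N,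
      (ind (F : Set ℤ) ((b : ℤ) - a + q) - ind (F : Set ℤ) ((b : ℤ) - a)) * u a * v b) ^ 2 ≤
      (N : ℝ) ^ 2 * ∑ n ∈ Ioo (-(N : ℤ)) N, |2 * (cor F F n : ℝ) - cor F F (n + q) - cor F F (n - q)| := by
  classical
  obtain ⟨h, hh⟩ : ∃ h : ℤ → ℝ, ∀ z, h z = ind (F : Set ℤ) (z + q) - ind (F : Set ℤ) z :=
    ⟨fun z => _, fun z => rfl⟩
  obtain ⟨A, hA⟩ : ∃ A : ℤ → ℝ, ∀ n, A n = 2 * (cor F F n : ℝ) - cor F F (n + q) - cor F F (n - q) :=
    ⟨fun z => _, fun z => rfl⟩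
  obtain ⟨B, hB⟩ : ∃ B : Finset ℤ, B = (range N).image (fun a : ℕ => (a : ℤ)) ∪
    (range N).biUnion (fun a : ℕ => F.image (fun w => w + (a : ℤ)) ∪ F.image (fun w => w - q + (a : ℤ))) :=
    ⟨_, rfl⟩
  have hsum : ∀ a ∈ range N, ∀ a' ∈ range N,
      ∑ b ∈ B, h (b - a) * h (b - a') = A ((a : ℤ) - a') := by
    intro a ha a' _
    obtain ⟨Z, hZ⟩ : ∃ Z : Finset ℤ, Z = B.image (fun b => b - (a : ℤ)) := ⟨_, rfl⟩
    have h1 : ∑ b ∈ B, h (b - a) * h (b - a') = ∑ z ∈ Z, h z * h (z + ((a : ℤ) - a')) := by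
      rw [hZ, sum_image (fun x _ y _ h => by
        linarith)]
      apply sum_congr rfl
      intro b _
      congr 2
      ring
    have hZ0 : ∀ w ∈ F, w - 0 ∈ Z := by
      intro w hw
      rw [hZ, mem_image]
      refine ⟨w + a, ?_, by ring⟩
      rw [hB, mem_union, mem_biUnion]
      right
      exact ⟨a, ha, mem_union_left _ (mem_image_of_mem _ hw)⟩
    have hZq : ∀ w ∈ F, w - q ∈ Z := by
      intro w hw
      rw [hZ, mem_image]
      refine ⟨w - q + a, ?_, by ring⟩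
      rw [hB, mem_union, mem_biUnion]
      right
      exact ⟨a, ha, mem_union_right _ (mem_image_of_mem (fun w => w - q + (a : ℤ)) hw)⟩
    rw [h1, hA]
    obtain ⟨n, hn⟩ : ∃ n : ℤ, n = (a : ℤ) - a' := ⟨_, rfl⟩
    rw [← hn]
    have e1 := ind_sum F Z q (n + q) hZq
    have e2 := ind_sum F Z q n hZq
    have e3 := ind_sum F Z 0 (n + q) hZ0
    have e4 := ind_sum F Z 0 n hZ0
    rw [show n + q - q = n by ring] at e1
    rw [sub_zero] at e3 e4
    have e5 : ∀ z, h z * h (z + n) = ind (F : Set ℤ) (z + q) * ind (F : Set ℤ) (z + (n + q)) -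
        ind (F : Set ℤ) (z + q) * ind (F : Set ℤ) (z + n) -
        ind (F : Set ℤ) (z + 0) * ind (F : Set ℤ) (z + (n + q)) +
        ind (F : Set ℤ) (z + 0) * ind (F : Set ℤ) (z + n) := by
      intro z
      rw [hh, hh, add_zero, show z + n + q = z + (n + q) by ring]
      ring
    rw [sum_congr rfl fun z _ => e5 z, sum_add_distrib, sum_sub_distrib, sum_sub_distrib, e1, e2, e3, e4]
    ring
  -- the inner function
  obtain ⟨g, hg⟩ : ∃ g : ℤ → ℝ, ∀ b, g b = ∑ a ∈ range N, h (b - a) * u a := ⟨fun z => _, fun z => rfl⟩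
  have hT : ∑ a ∈ range N, ∑ b ∈ range N,
      (ind (F : Set ℤ) ((b : ℤ) - a + q) - ind (F : Set ℤ) ((b : ℤ) - a)) * u a * v b =
      ∑ b ∈ range N, v b * g b := by
    rw [sum_comm]
    apply sum_congr rfl
    intro b _
    rw [hg, mul_sum]
    apply sum_congr rfl
    intro a _
    rw [hh]
    ring
  rw [hT]
  have hCS := sum_mul_sq_le_sq_mul_sq (range N) v (fun b => g (b : ℤ))
  refine hCS.trans ?_
  have hv2 : ∑ b ∈ range N, v b ^ 2 ≤ N := by
    have : ∑ b ∈ range N, v b ^ 2 ≤ ∑ _b ∈ range N, (1 : ℝ) := by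
      apply sum_le_sum
      intro b _
      rw [← sq_abs]
      have := hv b
      have := abs_nonneg (v b)
      nlinarith
    simpa using this
  have hg1 : ∑ b ∈ range N, g (b : ℤ) ^ 2 ≤ ∑ b ∈ B, g b ^ 2 := by
    have h1 : ∑ b ∈ range N, g (b : ℤ) ^ 2 = ∑ b ∈ (range N).image (fun a : ℕ => (a : ℤ)), g b ^ 2 := by
      rw [sum_image (fun x _ y _ h => by exact_mod_cast h)]
    rw [h1]
    apply sum_le_sum_of_subset_of_nonneg
    · rw [hB]
      exact subset_union_left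
    · intro b _ _
      positivity
  have hg2 : ∑ b ∈ B, g b ^ 2 = ∑ a ∈ range N, ∑ a' ∈ range N, u a * u a' * A ((a : ℤ) - a') := by
    have h1 : ∀ b, g b ^ 2 = ∑ a ∈ range N, ∑ a' ∈ range N, u a * u a' * (h (b - a) * h (b - a')) := by
      intro b
      rw [sq, hg, sum_mul_sum]
      apply sum_congr rfl
      intro a _
      apply sum_congr rfl
      intro a' _
      ring
    rw [sum_congr rfl fun b _ => h1 b, sum_comm]
    apply sum_congr rfl
    intro a ha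
    rw [sum_comm]
    apply sum_congr rfl
    intro a' ha'
    rw [← mul_sum, hsum a ha a' ha']
  have hg3 : ∑ a ∈ range N, ∑ a' ∈ range N, u a * u a' * A ((a : ℤ) - a') ≤
      (N : ℝ) * ∑ n ∈ Ioo (-(N : ℤ)) N, |A n| := by
    have h1 : ∀ a ∈ range N, ∑ a' ∈ range N, u a * u a' * A ((a : ℤ) - a') ≤
        ∑ n ∈ Ioo (-(N : ℤ)) N, |A n| := by
      intro a ha
      rw [mem_range] at ha
      have h2 : ∑ a' ∈ range N, u a * u a' * A ((a : ℤ) - a') ≤
          ∑ a' ∈ range N, |A ((a : ℤ) - a')| := by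
        apply sum_le_sum
        intro a' _
        refine (le_abs_self _).trans ?_
        rw [abs_mul, abs_mul]
        have h3 : |u a| * |u a'| ≤ 1 := mul_le_one₀ (hu a) (abs_nonneg _) (hu a')
        exact mul_le_of_le_one_left (abs_nonneg _) h3
      refine h2.trans ?_
      have h4 : ∑ a' ∈ range N, |A ((a : ℤ) - a')| =
          ∑ n ∈ (range N).image (fun a' : ℕ => (a : ℤ) - a'), |A n| := by
        rw [sum_image (fun x _ y _ h => by
          omega)]
      rw [h4]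
      apply sum_le_sum_of_subset_of_nonneg
      · intro n hn
        rw [mem_image] at hn
        obtain ⟨a', ha', rfl⟩ := hn
        rw [mem_range] at ha'
        rw [mem_Ioo]
        omega
      · intro n _ _
        exact abs_nonneg _
    refine (sum_le_sum h1).trans (le_of_eq ?_)
    rw [sum_const, card_range, nsmul_eq_mul]
  have hg4 : ∑ b ∈ range N, g (b : ℤ) ^ 2 ≤ (N : ℝ) * ∑ n ∈ Ioo (-(N : ℤ)) N, |A n| := by
    rw [hg2] at hg1
    exact hg1.trans hg3
  have hfin : (∑ b ∈ range N, v b ^ 2) * ∑ b ∈ range N, g (b : ℤ) ^ 2 ≤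
      (N : ℝ) * ((N : ℝ) * ∑ n ∈ Ioo (-(N : ℤ)) N, |A n|) :=
    mul_le_mul hv2 hg4 (sum_nonneg fun b _ => sq_nonneg _) (Nat.cast_nonneg _)
  refine hfin.trans (le_of_eq ?_)
  rw [sq, mul_assoc]
  congr 2
  apply sum_congr rfl
  intro n _
  rw [hA]

end Pool.Agent.H21.GH
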