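import Pool.Agent.H21.GH.Df

/-!
[H21 GH COR]  Second differences of a correlation.

Proof.  `|2 c(n) - c(n+q) - c(n-q)| ≤ |c(n+q) - c(n)| + |c(n) - c(n-q)|`, `c = cor F F`.  `c(-n) = c(n)` (`y ↦ y + n` is a bijection between
`{y ∈ F : y + n ∈ F}` and `{y ∈ F : y - n ∈ F}`), so `|c(n) - c(n-q)| = |c(-n) - c(-n+q)|`, and `n ↦ -n` permutes `(-N, N)`.
-/

namespace Pool.Agent.H21.GH

open Finset Pool.Agent.H11.HM

theorem cor_neg (F : Finset ℤ) (n : ℤ) : cor F F (-n) = cor F F n := by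
  unfold cor
  refine card_nbij' (fun y => y + -n) (fun y => y + n) ?_ ?_ ?_ ?_
  · intro y hy
    rw [mem_coe, mem_filter] at hy ⊢
    refine ⟨hy.2, ?_⟩
    have : y + -n + n = y := by ring
    rw [this]
    exact hy.1
  · intro y hy
    rw [mem_coe, mem_filter] at hy ⊢
    refine ⟨hy.2, ?_⟩
    have : y + n + -n = y := by ring
    rw [this]
    exact hy.1
  · intro y _
    change y + -n + n = y
    ring
  · intro y _
    change y + n + -n = y
    ring

theorem cor_second (F : Finset ℤ) (N : ℕ) (q : ℤ) :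
    ∑ n ∈ Ioo (-(N : ℤ)) N, |2 * (cor F F n : ℝ) - cor F F (n + q) - cor F F (n - q)| ≤
      2 * ∑ n ∈ Ioo (-(N : ℤ)) N, |(cor F F (n + q) : ℝ) - cor F F n| := by
  have h1 : ∑ n ∈ Ioo (-(N : ℤ)) N, |(cor F F n : ℝ) - cor F F (n - q)| =
      ∑ n ∈ Ioo (-(N : ℤ)) N, |(cor F F (n + q) : ℝ) - cor F F n| := by
    refine sum_nbij' (fun n => -n) (fun n => -n) ?_ ?_ ?_ ?_ ?_
    · intro n hn
      rw [mem_Ioo] at hn ⊢
      omega
    · intro n hn
      rw [mem_Ioo] at hn ⊢
      omega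
    · intro n _
      exact neg_neg n
    · intro n _
      exact neg_neg n
    · intro n _
      have e1 : cor F F (-n + q) = cor F F (n - q) := by
        rw [← cor_neg F (n - q)]
        congr 1
        ring
      rw [e1, cor_neg, abs_sub_comm]
  have h2 : ∑ n ∈ Ioo (-(N : ℤ)) N, |2 * (cor F F n : ℝ) - cor F F (n + q) - cor F F (n - q)| ≤
      ∑ n ∈ Ioo (-(N : ℤ)) N, (|(cor F F (n + q) : ℝ) - cor F F n| +
        |(cor F F n : ℝ) - cor F F (n - q)|) := by
    refine sum_le_sum fun n _ => ?_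
    rw [abs_sub_comm (cor F F (n + q) : ℝ) (cor F F n : ℝ)]
    have e : 2 * (cor F F n : ℝ) - cor F F (n + q) - cor F F (n - q) =
        ((cor F F n : ℝ) - cor F F (n + q)) + ((cor F F n : ℝ) - cor F F (n - q)) := by ring
    rw [e]
    exact abs_add_le _ _
  rw [sum_add_distrib, h1] at h2
  linarith

end Pool.Agent.H21.GH
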