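import Pool.Agent.H21.GH.Df

/-!
[H21 GH TEL]  Replacing the six factors one after the other.

Proof.  `h_e` = the family with `f` replaced by `g` in the pairs with number `< e`: `h_0 = f`, `h_6 = g`.  `TT N h_e - TT N h_{e+1}` has the factor
`(f e - g e)((pr e).2-variable - (pr e).1-variable)`; for fixed values of the two other variables each of the other five
factors depends on at most one of the two variables of `e` (or on none), so the inner double sum has the form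
`C ∑_a ∑_b (f e - g e)(b - a) u(a) v(b)` with `|C| ≤ 1`, `|u|, |v| ≤ 1`, and is at most `δ N^2` in absolute value; sum over the `N^2` values of
the other two variables.  (Six cases; exchange the order of summation with `Finset.sum_comm` first.)
-/

namespace Pool.Agent.H21.GH

open Finset Pool.Agent.H11.HM

/-- fourfold sums -/
noncomputable def tlS (N : ℕ) (F : ℕ → ℕ → ℕ → ℕ → ℝ) : ℝ :=
  ∑ a ∈ range N, ∑ b ∈ range N, ∑ c ∈ range N, ∑ d ∈ range N, F a b c d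

theorem tl_s1 (N : ℕ) (F : ℕ → ℕ → ℕ → ℕ → ℝ) : tlS N F = tlS N (fun b a c d => F a b c d) := by
  unfold tlS
  rw [sum_comm]

theorem tl_s2 (N : ℕ) (F : ℕ → ℕ → ℕ → ℕ → ℝ) : tlS N F = tlS N (fun a c b d => F a b c d) := by
  unfold tlS
  refine sum_congr rfl fun a _ => ?_
  rw [sum_comm]

theorem tl_s3 (N : ℕ) (F : ℕ → ℕ → ℕ → ℕ → ℝ) : tlS N F = tlS N (fun a b d c => F a b c d) := by
  unfold tlS
  refine sum_congr rfl fun a _ => sum_congr rfl fun b _ => ?_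
  rw [sum_comm]

theorem tl_sub (N : ℕ) (F G : ℕ → ℕ → ℕ → ℕ → ℝ) :
    tlS N F - tlS N G = tlS N (fun a b c d => F a b c d - G a b c d) := by
  unfold tlS
  simp only [sum_sub_distrib]

theorem tl_key (N : ℕ) (D : ℤ → ℝ) (δ : ℝ)
    (h : ∀ u v : ℕ → ℝ, (∀ a, |u a| ≤ 1) → (∀ a, |v a| ≤ 1) →
      |∑ a ∈ range N, ∑ b ∈ range N, D ((b : ℤ) - a) * u a * v b| ≤ δ * (N : ℝ) ^ 2)
    (U V : ℕ → ℕ → ℕ → ℝ) (C : ℕ → ℕ → ℝ) (hU : ∀ x y a, |U x y a| ≤ 1)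
    (hV : ∀ x y a, |V x y a| ≤ 1) (hC : ∀ x y, |C x y| ≤ 1) :
    |tlS N (fun x y a b => D ((b : ℤ) - a) * U x y a * V x y b * C x y)| ≤ δ * (N : ℝ) ^ 4 := by
  unfold tlS
  have h1 : ∀ x y : ℕ, |∑ a ∈ range N, ∑ b ∈ range N,
      D ((b : ℤ) - a) * U x y a * V x y b * C x y| ≤ δ * (N : ℝ) ^ 2 := by
    intro x y
    have h2 := h (U x y) (V x y) (hU x y) (hV x y)
    have h3 : ∑ a ∈ range N, ∑ b ∈ range N, D ((b : ℤ) - a) * U x y a * V x y b * C x y =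
        (∑ a ∈ range N, ∑ b ∈ range N, D ((b : ℤ) - a) * U x y a * V x y b) * C x y := by
      rw [sum_mul]
      refine sum_congr rfl fun a _ => ?_
      rw [sum_mul]
    rw [h3, abs_mul]
    calc |∑ a ∈ range N, ∑ b ∈ range N, D ((b : ℤ) - a) * U x y a * V x y b| * |C x y|
        ≤ |∑ a ∈ range N, ∑ b ∈ range N, D ((b : ℤ) - a) * U x y a * V x y b| * 1 :=
          mul_le_mul_of_nonneg_left (hC x y) (abs_nonneg _)
      _ ≤ δ * (N : ℝ) ^ 2 := by rw [mul_one]; exact h2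
  calc |∑ x ∈ range N, ∑ y ∈ range N, ∑ a ∈ range N, ∑ b ∈ range N,
        D ((b : ℤ) - a) * U x y a * V x y b * C x y|
      ≤ ∑ x ∈ range N, |∑ y ∈ range N, ∑ a ∈ range N, ∑ b ∈ range N,
        D ((b : ℤ) - a) * U x y a * V x y b * C x y| := abs_sum_le_sum_abs _ _
    _ ≤ ∑ x ∈ range N, ∑ y ∈ range N, |∑ a ∈ range N, ∑ b ∈ range N,
        D ((b : ℤ) - a) * U x y a * V x y b * C x y| :=
        sum_le_sum fun x _ => abs_sum_le_sum_abs _ _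
    _ ≤ ∑ x ∈ range N, ∑ y ∈ range N, δ * (N : ℝ) ^ 2 :=
        sum_le_sum fun x _ => sum_le_sum fun y _ => h1 x y
    _ = δ * (N : ℝ) ^ 4 := by
        rw [sum_const, sum_const, card_range, nsmul_eq_mul, nsmul_eq_mul]
        ring

theorem tl_m {x y : ℝ} (hx : |x| ≤ 1) (hy : |y| ≤ 1) : |x * y| ≤ 1 := by
  rw [abs_mul]
  exact mul_le_one₀ hx (abs_nonneg _) hy

/-- `TT` with separate arguments -/
noncomputable def tlT (N : ℕ) (f0 f1 f2 f3 f4 f5 : ℤ → ℝ) : ℝ :=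
  tlS N (fun a b c d => f0 ((b : ℤ) - a) * f1 ((c : ℤ) - a) * f2 ((d : ℤ) - a) * f3 ((c : ℤ) - b) *
    f4 ((d : ℤ) - b) * f5 ((d : ℤ) - c))

theorem telescope (N : ℕ) (f g : Fin 6 → ℤ → ℝ) (hf : ∀ e z, |f e z| ≤ 1) (hg : ∀ e z, |g e z| ≤ 1) (δ : ℝ)
    (h : ∀ e, ∀ u v : ℕ → ℝ, (∀ a, |u a| ≤ 1) → (∀ a, |v a| ≤ 1) →
      |∑ a ∈ range N, ∑ b ∈ range N, (f e ((b : ℤ) - a) - g e ((b : ℤ) - a)) * u a * v b| ≤ δ * (N : ℝ) ^ 2) :
    |TT N f - TT N g| ≤ 6 * δ * (N : ℝ) ^ 4 := by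
  have e0 : |tlT N (f 0) (f 1) (f 2) (f 3) (f 4) (f 5) - tlT N (g 0) (f 1) (f 2) (f 3) (f 4) (f 5)| ≤
      δ * (N : ℝ) ^ 4 := by
    unfold tlT
    rw [tl_sub, tl_s2, tl_s1, tl_s3, tl_s2]
    refine le_trans (le_of_eq ?_) (tl_key N (fun z => f 0 z - g 0 z) δ (h 0)
      (fun c d a => f 1 ((c : ℤ) - a) * f 2 ((d : ℤ) - a))
      (fun c d b => f 3 ((c : ℤ) - b) * f 4 ((d : ℤ) - b)) (fun c d => f 5 ((d : ℤ) - c))
      (fun _ _ _ => tl_m (hf _ _) (hf _ _)) (fun _ _ _ => tl_m (hf _ _) (hf _ _))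
      (fun _ _ => hf _ _))
    congr 2
    funext c d a b
    ring
  have e1 : |tlT N (g 0) (f 1) (f 2) (f 3) (f 4) (f 5) - tlT N (g 0) (g 1) (f 2) (f 3) (f 4) (f 5)| ≤
      δ * (N : ℝ) ^ 4 := by
    unfold tlT
    rw [tl_sub, tl_s1, tl_s3, tl_s2]
    refine le_trans (le_of_eq ?_) (tl_key N (fun z => f 1 z - g 1 z) δ (h 1)
      (fun b d a => g 0 ((b : ℤ) - a) * f 2 ((d : ℤ) - a))
      (fun b d c => f 3 ((c : ℤ) - b) * f 5 ((d : ℤ) - c)) (fun b d => f 4 ((d : ℤ) - b))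
      (fun _ _ _ => tl_m (hg _ _) (hf _ _)) (fun _ _ _ => tl_m (hf _ _) (hf _ _))
      (fun _ _ => hf _ _))
    congr 2
    funext b d a c
    ring
  have e2 : |tlT N (g 0) (g 1) (f 2) (f 3) (f 4) (f 5) - tlT N (g 0) (g 1) (g 2) (f 3) (f 4) (f 5)| ≤
      δ * (N : ℝ) ^ 4 := by
    unfold tlT
    rw [tl_sub, tl_s1, tl_s2]
    refine le_trans (le_of_eq ?_) (tl_key N (fun z => f 2 z - g 2 z) δ (h 2)
      (fun b c a => g 0 ((b : ℤ) - a) * g 1 ((c : ℤ) - a))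
      (fun b c d => f 4 ((d : ℤ) - b) * f 5 ((d : ℤ) - c)) (fun b c => f 3 ((c : ℤ) - b))
      (fun _ _ _ => tl_m (hg _ _) (hg _ _)) (fun _ _ _ => tl_m (hf _ _) (hf _ _))
      (fun _ _ => hf _ _))
    congr 2
    funext b c a d
    ring
  have e3 : |tlT N (g 0) (g 1) (g 2) (f 3) (f 4) (f 5) - tlT N (g 0) (g 1) (g 2) (g 3) (f 4) (f 5)| ≤
      δ * (N : ℝ) ^ 4 := by
    unfold tlT
    rw [tl_sub, tl_s3, tl_s2]
    refine le_trans (le_of_eq ?_) (tl_key N (fun z => f 3 z - g 3 z) δ (h 3)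
      (fun a d b => g 0 ((b : ℤ) - a) * f 4 ((d : ℤ) - b))
      (fun a d c => g 1 ((c : ℤ) - a) * f 5 ((d : ℤ) - c)) (fun a d => g 2 ((d : ℤ) - a))
      (fun _ _ _ => tl_m (hg _ _) (hf _ _)) (fun _ _ _ => tl_m (hg _ _) (hf _ _))
      (fun _ _ => hg _ _))
    congr 2
    funext a d b c
    ring
  have e4 : |tlT N (g 0) (g 1) (g 2) (g 3) (f 4) (f 5) - tlT N (g 0) (g 1) (g 2) (g 3) (g 4) (f 5)| ≤
      δ * (N : ℝ) ^ 4 := by
    unfold tlT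
    rw [tl_sub, tl_s2]
    refine le_trans (le_of_eq ?_) (tl_key N (fun z => f 4 z - g 4 z) δ (h 4)
      (fun a c b => g 0 ((b : ℤ) - a) * g 3 ((c : ℤ) - b))
      (fun a c d => g 2 ((d : ℤ) - a) * f 5 ((d : ℤ) - c)) (fun a c => g 1 ((c : ℤ) - a))
      (fun _ _ _ => tl_m (hg _ _) (hg _ _)) (fun _ _ _ => tl_m (hg _ _) (hf _ _))
      (fun _ _ => hg _ _))
    congr 2
    funext a c b d
    ring
  have e5 : |tlT N (g 0) (g 1) (g 2) (g 3) (g 4) (f 5) - tlT N (g 0) (g 1) (g 2) (g 3) (g 4) (g 5)| ≤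
      δ * (N : ℝ) ^ 4 := by
    unfold tlT
    rw [tl_sub]
    refine le_trans (le_of_eq ?_) (tl_key N (fun z => f 5 z - g 5 z) δ (h 5)
      (fun a b c => g 1 ((c : ℤ) - a) * g 3 ((c : ℤ) - b))
      (fun a b d => g 2 ((d : ℤ) - a) * g 4 ((d : ℤ) - b)) (fun a b => g 0 ((b : ℤ) - a))
      (fun _ _ _ => tl_m (hg _ _) (hg _ _)) (fun _ _ _ => tl_m (hg _ _) (hg _ _))
      (fun _ _ => hg _ _))
    congr 2
    funext a b c d
    ring
  have hTf : TT N f = tlT N (f 0) (f 1) (f 2) (f 3) (f 4) (f 5) := rfl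
  have hTg : TT N g = tlT N (g 0) (g 1) (g 2) (g 3) (g 4) (g 5) := rfl
  rw [hTf, hTg, abs_le]
  rw [abs_le] at e0 e1 e2 e3 e4 e5
  constructor <;> linarith [e0.1, e0.2, e1.1, e1.2, e2.1, e2.2, e3.1, e3.2, e4.1, e4.2, e5.1, e5.2]

end Pool.Agent.H21.GH
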