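import Pool.Agent.H21.GH.Wrp
import Pool.Agent.H21.GH.Apf
import Pool.Agent.H21.GH.Cor
import Pool.Agent.H21.GH.Bil
import Pool.Agent.H21.GH.Tel
import Pool.Agent.H21.GH.Bdy

/-!
[H21 GH TRA]  Transfer to the integers.

Proof.  `c1, P0` from `super ε` (we may assume `c1 ≤ 1`), `κ = 1/12`, `ε' = (c1/48)^2/18` (so that `√(18 ε') ≤ c1/48`), `K` from `ap_fam 6 ε'`,
`c = c1/8`.  For a prime `P ≥ P0` let `N1 ≥ 32 K P/c1` and `N1 ≥ K P`, `N1 ≥ 1`.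
Let `N ≥ N1`.  `F e` = the `z ∈ [0, 3N)` with `z - N ∈ C e`; `ap_fam` with `L = 3N` gives `m ≤ K` with `∑_{|n| < 3N} |cor (F e) (F e) (n + mP) - cor (F e) (F e) n| ≤ 9 ε' N^2`
for all `e`.  `F' e = {z - N : z ∈ F e} = C e ∩ [-N, 2N)` has the same correlations.  For `|z| < N` and `θ ∈ {0, m P}` (`mP ≤ N`)
`ind (C e) (z + θ) = ind (F' e) (z + θ)`.  `bilinear` with `q = mP` and `cor_second`: for `|u|, |v| ≤ 1`
`|∑∑ (ind (C e)(b - a + mP) - ind (C e)(b - a)) u v| ≤ (N^2 * 2 * 9 ε' N^2)^(1/2) ≤ (c1/48) N^2`.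
So by `telescope`: for every choice of `θ_e ∈ {0, mP}`: `TT N (ind (C e)(· + θ_e)) ≤ TT N (ind (C e)) + (c1/8) N^4` (`6 * c1/48`).
`wrapped` (for this `m`; `hC` from the hypothesis): `(1/2) c1 P^4 N^4 ≤ ∑_x (…)`; for each `x ∈ [0,P)^4` the inner sum is at most
`TT N (ind (C e)(· + θ_e)) + 4 m P N^3` (`shift_bound` with `x_i := m x_i ≤ m P`, `θ_e = mP` if `x_j < x_i`).  So
`(1/2) c1 N^4 ≤ TT N (ind C) + (c1/8) N^4 + 4 K P N^3`, and `4 K P N^3 ≤ (c1/8) N^4`.  Hence `TT ≥ (c1/4) N^4`.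
-/

namespace Pool.Agent.H21.GH

open Finset Pool.Agent.H11.HM

private theorem cor_shift (F F' : Finset ℤ) (h : ℤ) (hF : ∀ z, z ∈ F' ↔ z + h ∈ F) (n : ℤ) :
    cor F' F' n = cor F F n := by
  unfold cor
  apply card_bij (fun y _ => y + h)
  · intro y hy
    rw [mem_filter] at hy ⊢
    refine ⟨(hF y).1 hy.1, ?_⟩
    have := (hF (y + n)).1 hy.2
    rw [show y + h + n = y + n + h by ring]
    exact this
  · intro y _ y' _ hyy
    linarith
  · intro z hz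
    rw [mem_filter] at hz
    refine ⟨z - h, ?_, by ring⟩
    rw [mem_filter]
    refine ⟨(hF _).2 (by rw [sub_add_cancel]; exact hz.1), (hF _).2 ?_⟩
    rw [show z - h + n + h = z + n by ring]
    exact hz.2

/-- the bilinear estimate for `C` -/
private theorem bil_C (C : Set ℤ) (N : ℕ) (q : ℤ) (hq0 : 0 ≤ q) (hqN : q ≤ N) (F : Finset ℤ)
    (hF : ∀ z : ℤ, z ∈ F ↔ z - N ∈ C ∧ 0 ≤ z ∧ z < 3 * N) (η : ℝ) (hη : 0 ≤ η)
    (hcor : ∑ n ∈ Ioo (-((3 * N : ℕ) : ℤ)) ((3 * N : ℕ) : ℤ),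
      |(cor F F (n + q) : ℝ) - (cor F F n : ℝ)| ≤ η * ((3 * N : ℕ) : ℝ) ^ 2)
    (δ : ℝ) (hδ : 0 ≤ δ) (hδη : 18 * η ≤ δ ^ 2) (u v : ℕ → ℝ) (hu : ∀ a, |u a| ≤ 1) (hv : ∀ a, |v a| ≤ 1) :
    |∑ a ∈ range N, ∑ b ∈ range N, (ind C ((b : ℤ) - a + q) - ind C ((b : ℤ) - a)) * u a * v b| ≤
      δ * (N : ℝ) ^ 2 := by
  classical
  obtain ⟨F', hF'⟩ : ∃ F' : Finset ℤ, F' = F.image (fun z => z - (N : ℤ)) := ⟨_, rfl⟩
  have hF'm : ∀ z, z ∈ F' ↔ z + N ∈ F := by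
    intro z
    rw [hF', mem_image]
    constructor
    · rintro ⟨w, hw, rfl⟩
      rw [sub_add_cancel]
      exact hw
    · intro h
      exact ⟨z + N, h, by ring⟩
  have hind : ∀ z : ℤ, -(N : ℤ) ≤ z → z < 2 * N → ind C z = ind (F' : Set ℤ) z := by
    intro z h1 h2
    have h3 : z ∈ C ↔ z ∈ (F' : Set ℤ) := by
      rw [mem_coe, hF'm, hF, add_sub_cancel_right]
      constructor
      · intro h
        exact ⟨h, by linarith, by linarith⟩
      · intro h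
        exact h.1
    unfold ind
    by_cases hz : z ∈ C
    · rw [if_pos hz, if_pos (h3.1 hz)]
    · rw [if_neg hz, if_neg (fun h => hz (h3.2 h))]
  have h1 : ∑ a ∈ range N, ∑ b ∈ range N, (ind C ((b : ℤ) - a + q) - ind C ((b : ℤ) - a)) * u a * v b =
      ∑ a ∈ range N, ∑ b ∈ range N,
        (ind (F' : Set ℤ) ((b : ℤ) - a + q) - ind (F' : Set ℤ) ((b : ℤ) - a)) * u a * v b := by
    apply sum_congr rfl
    intro a ha
    apply sum_congr rfl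
    intro b hb
    rw [mem_range] at ha hb
    rw [hind _ (by omega) (by omega), hind _ (by omega) (by omega)]
  rw [h1]
  have h2 := bilinear F' N q u v hu hv
  have h3 := cor_second F' N q
  have h4 : ∑ n ∈ Ioo (-(N : ℤ)) N, |(cor F' F' (n + q) : ℝ) - cor F' F' n| ≤
      η * ((3 * N : ℕ) : ℝ) ^ 2 := by
    refine le_trans ?_ hcor
    have h5 : ∑ n ∈ Ioo (-(N : ℤ)) N, |(cor F' F' (n + q) : ℝ) - cor F' F' n| =
        ∑ n ∈ Ioo (-(N : ℤ)) N, |(cor F F (n + q) : ℝ) - cor F F n| := by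
      apply sum_congr rfl
      intro n _
      rw [cor_shift F F' N hF'm, cor_shift F F' N hF'm]
    rw [h5]
    apply sum_le_sum_of_subset_of_nonneg
    · intro n hn
      rw [mem_Ioo] at hn ⊢
      push_cast
      constructor <;> linarith [hn.1, hn.2]
    · intro n _ _
      exact abs_nonneg _
  apply abs_le_of_sq_le_sq _ (by positivity)
  refine h2.trans ?_
  have hN2 : (0 : ℝ) ≤ (N : ℝ) ^ 2 := by positivity
  push_cast at h4
  have h6 : ∑ n ∈ Ioo (-(N : ℤ)) N, |2 * (cor F' F' n : ℝ) - cor F' F' (n + q) - cor F' F' (n - q)| ≤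
      18 * η * (N : ℝ) ^ 2 := by nlinarith
  calc (N : ℝ) ^ 2 * ∑ n ∈ Ioo (-(N : ℤ)) N, |2 * (cor F' F' n : ℝ) - cor F' F' (n + q) - cor F' F' (n - q)|
      ≤ (N : ℝ) ^ 2 * (18 * η * (N : ℝ) ^ 2) := mul_le_mul_of_nonneg_left h6 hN2
    _ = (18 * η) * ((N : ℝ) ^ 2) ^ 2 := by ring
    _ ≤ δ ^ 2 * ((N : ℝ) ^ 2) ^ 2 := mul_le_mul_of_nonneg_right hδη (by positivity)
    _ = (δ * (N : ℝ) ^ 2) ^ 2 := by ring

private theorem ind_nonneg (C : Set ℤ) (z : ℤ) : 0 ≤ ind C z := by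
  unfold ind
  split_ifs <;> norm_num

private theorem ind_le_one (C : Set ℤ) (z : ℤ) : ind C z ≤ 1 := by
  unfold ind
  split_ifs <;> norm_num

private theorem abs_ind (C : Set ℤ) (z : ℤ) : |ind C z| ≤ 1 := by
  rw [abs_of_nonneg (ind_nonneg C z)]
  exact ind_le_one C z

open Classical in
theorem transfer (ε : ℝ) (hε : 0 < ε) : ∃ (K : ℕ) (κ c : ℝ) (P0 : ℕ), 1 ≤ K ∧ 0 < κ ∧ 0 < c ∧
    ∀ P : ℕ, P0 ≤ P → P.Prime → ∃ N1 : ℕ, ∀ N : ℕ, N1 ≤ N → ∀ C : Fin 6 → Set ℤ,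
      (∀ e, ∀ m : ℕ, 1 ≤ m → m ≤ K →
        (((Ioo (-(N : ℤ)) N).filter (fun w => (cnt (C e) P m w : ℝ) < (1 / 2 + ε) * P)).card : ℝ) ≤ κ * N) →
      c * (N : ℝ) ^ 4 ≤ TT N (fun e => ind (C e)) := by
  obtain ⟨c0, P0, hc0, hsup⟩ := super ε hε
  obtain ⟨c1, hc1d⟩ : ∃ c1 : ℝ, c1 = min c0 1 := ⟨_, rfl⟩
  have hc1 : 0 < c1 := by rw [hc1d]; exact lt_min hc0 one_pos
  have hc1le : c1 ≤ 1 := by rw [hc1d]; exact min_le_right _ _
  have hc10 : c1 ≤ c0 := by rw [hc1d]; exact min_le_left _ _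
  obtain ⟨η, hη⟩ : ∃ η : ℝ, η = (c1 / 48) ^ 2 / 18 := ⟨_, rfl⟩
  have hη0 : 0 < η := by rw [hη]; positivity
  have hη1 : η ≤ 1 := by
    rw [hη]
    have : (c1 / 48) ^ 2 ≤ 1 := by
      apply pow_le_one₀ (by positivity)
      linarith
    linarith
  obtain ⟨K, hK, hap⟩ := ap_fam 6 η hη0 hη1
  refine ⟨K, 1 / 12, c1 / 8, P0, hK, by norm_num, by positivity, ?_⟩
  intro P hP hPp
  have hPne : NeZero P := ⟨hPp.ne_zero⟩
  obtain ⟨N2, hN2⟩ := exists_nat_ge (32 * (K : ℝ) * P / c1)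
  refine ⟨N2 + K * P + 1, ?_⟩
  intro N hN C hC
  have hP1 : 1 ≤ P := hPp.one_lt.le
  have hPR : (0 : ℝ) < P := by exact_mod_cast hP1
  have hN0 : 1 ≤ N := by omega
  have hNR : (0 : ℝ) < N := by exact_mod_cast hN0
  obtain ⟨m, hm1, hmK, hmap⟩ := hap P (3 * N) hP1 (by omega)
    (fun e => (Ico (0 : ℤ) ((3 * N : ℕ) : ℤ)).filter (fun z => z - N ∈ C e))
    (fun e => filter_subset _ _)
  have hmP : m * P ≤ K * P := Nat.mul_le_mul_right P hmK
  -- the bilinear estimate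
  have hbil : ∀ e, ∀ u v : ℕ → ℝ, (∀ a, |u a| ≤ 1) → (∀ a, |v a| ≤ 1) →
      |∑ a ∈ range N, ∑ b ∈ range N,
        (ind (C e) ((b : ℤ) - a + ((m : ℤ) * P)) - ind (C e) ((b : ℤ) - a)) * u a * v b| ≤
        c1 / 48 * (N : ℝ) ^ 2 := by
    intro e u v hu hv
    refine bil_C (C e) N ((m : ℤ) * P) (by positivity) ?_
      ((Ico (0 : ℤ) ((3 * N : ℕ) : ℤ)).filter (fun z => z - N ∈ C e)) ?_ η hη0.le ?_ (c1 / 48)
      (by positivity) (by rw [hη]; linarith) u v hu hv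
    · have : m * P ≤ N := by omega
      exact_mod_cast this
    · intro z
      rw [mem_filter, mem_Ico]
      push_cast
      tauto
    · exact hmap e
  have htel : ∀ θ : Fin 6 → ℤ, (∀ e, θ e = 0 ∨ θ e = (m : ℤ) * P) →
      TT N (fun e z => ind (C e) (z + θ e)) ≤ TT N (fun e => ind (C e)) + c1 / 8 * (N : ℝ) ^ 4 := by
    intro θ hθ
    have h1 := telescope N (fun e z => ind (C e) (z + θ e)) (fun e => ind (C e))
      (fun e z => abs_ind _ _) (fun e z => abs_ind _ _) (c1 / 48) (by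
        intro e u v hu hv
        rcases hθ e with h | h
        · simp only [h, add_zero, sub_self, zero_mul, sum_const_zero, abs_zero]
          positivity
        · simp only [h]
          exact hbil e u v hu hv)
    have h2 := (abs_le.1 h1).2
    have h3 : 6 * (c1 / 48) * (N : ℝ) ^ 4 = c1 / 8 * (N : ℝ) ^ 4 := by ring
    linarith
  have hw := wrapped ε (1 / 12) c1 hc1.le P m N hPp (by
      intro D hD
      refine le_trans ?_ (hsup P hP hPp D hD)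
      exact mul_le_mul_of_nonneg_right hc10 (by positivity)) C (fun e => hC e m hm1 hmK)
  have hx : ∀ x ∈ Fintype.piFinset (fun _ : Fin 4 => range P),
        ∑ a ∈ range N, ∑ b ∈ range N, ∑ c ∈ range N, ∑ d ∈ range N,
          ind (C 0) ((b : ℤ) - a + om m P (x 0) (x 1)) * ind (C 1) ((c : ℤ) - a + om m P (x 0) (x 2)) *
            ind (C 2) ((d : ℤ) - a + om m P (x 0) (x 3)) * ind (C 3) ((c : ℤ) - b + om m P (x 1) (x 2)) *
            ind (C 4) ((d : ℤ) - b + om m P (x 1) (x 3)) * ind (C 5) ((d : ℤ) - c + om m P (x 2) (x 3)) ≤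
        TT N (fun e => ind (C e)) + c1 / 8 * (N : ℝ) ^ 4 + 4 * ((K * P : ℕ) : ℝ) * (N : ℝ) ^ 3 := by
    intro x hx
    rw [Fintype.mem_piFinset] at hx
    have hx' : ∀ i, m * x i ≤ K * P := by
      intro i
      have := mem_range.1 (hx i)
      exact Nat.mul_le_mul hmK this.le
    obtain ⟨θ, hθ⟩ : ∃ θ : Fin 6 → ℤ, ∀ e, θ e =
      if x (pr e).2 < x (pr e).1 then (m : ℤ) * P else 0 := ⟨fun e => _, fun e => rfl⟩
    have h1 := htel θ (fun e => by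
      rw [hθ]
      split_ifs
      · right; rfl
      · left; rfl)
    have h2 := shift_bound N (K * P) (fun e z => ind (C e) (z + θ e)) (fun e z => ind_nonneg _ _)
      (fun e z => ind_le_one _ _) (m * x 0) (m * x 1) (m * x 2) (m * x 3) (hx' 0) (hx' 1) (hx' 2) (hx' 3)
    have h3 : ∀ a b c d : ℕ,
        ind (C 0) ((b : ℤ) - a + om m P (x 0) (x 1)) * ind (C 1) ((c : ℤ) - a + om m P (x 0) (x 2)) *
            ind (C 2) ((d : ℤ) - a + om m P (x 0) (x 3)) * ind (C 3) ((c : ℤ) - b + om m P (x 1) (x 2)) *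
            ind (C 4) ((d : ℤ) - b + om m P (x 1) (x 3)) * ind (C 5) ((d : ℤ) - c + om m P (x 2) (x 3)) =
        ind (C 0) ((b : ℤ) - a + (((m * x 1 : ℕ) : ℤ) - ((m * x 0 : ℕ) : ℤ)) + θ 0) *
          ind (C 1) ((c : ℤ) - a + (((m * x 2 : ℕ) : ℤ) - ((m * x 0 : ℕ) : ℤ)) + θ 1) *
          ind (C 2) ((d : ℤ) - a + (((m * x 3 : ℕ) : ℤ) - ((m * x 0 : ℕ) : ℤ)) + θ 2) *
          ind (C 3) ((c : ℤ) - b + (((m * x 2 : ℕ) : ℤ) - ((m * x 1 : ℕ) : ℤ)) + θ 3) *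
          ind (C 4) ((d : ℤ) - b + (((m * x 3 : ℕ) : ℤ) - ((m * x 1 : ℕ) : ℤ)) + θ 4) *
          ind (C 5) ((d : ℤ) - c + (((m * x 3 : ℕ) : ℤ) - ((m * x 2 : ℕ) : ℤ)) + θ 5) := by
      intro a b c d
      have e0 : om m P (x 0) (x 1) = (((m * x 1 : ℕ) : ℤ) - ((m * x 0 : ℕ) : ℤ)) + θ 0 := by
        rw [hθ]; unfold om; push_cast; change _ = _ + (if x 1 < x 0 then (m : ℤ) * P else 0); ring
      have e1 : om m P (x 0) (x 2) = (((m * x 2 : ℕ) : ℤ) - ((m * x 0 : ℕ) : ℤ)) + θ 1 := by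
        rw [hθ]; unfold om; push_cast; change _ = _ + (if x 2 < x 0 then (m : ℤ) * P else 0); ring
      have e2 : om m P (x 0) (x 3) = (((m * x 3 : ℕ) : ℤ) - ((m * x 0 : ℕ) : ℤ)) + θ 2 := by
        rw [hθ]; unfold om; push_cast; change _ = _ + (if x 3 < x 0 then (m : ℤ) * P else 0); ring
      have e3 : om m P (x 1) (x 2) = (((m * x 2 : ℕ) : ℤ) - ((m * x 1 : ℕ) : ℤ)) + θ 3 := by
        rw [hθ]; unfold om; push_cast; change _ = _ + (if x 2 < x 1 then (m : ℤ) * P else 0); ring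
      have e4 : om m P (x 1) (x 3) = (((m * x 3 : ℕ) : ℤ) - ((m * x 1 : ℕ) : ℤ)) + θ 4 := by
        rw [hθ]; unfold om; push_cast; change _ = _ + (if x 3 < x 1 then (m : ℤ) * P else 0); ring
      have e5 : om m P (x 2) (x 3) = (((m * x 3 : ℕ) : ℤ) - ((m * x 2 : ℕ) : ℤ)) + θ 5 := by
        rw [hθ]; unfold om; push_cast; change _ = _ + (if x 3 < x 2 then (m : ℤ) * P else 0); ring
      rw [e0, e1, e2, e3, e4, e5]
      simp only [add_assoc]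
    rw [sum_congr rfl fun a _ => sum_congr rfl fun b _ => sum_congr rfl fun c _ =>
      sum_congr rfl fun d _ => h3 a b c d]
    refine h2.trans ?_
    linarith
  have hcard : ((Fintype.piFinset (fun _ : Fin 4 => range P)).card : ℝ) = (P : ℝ) ^ 4 := by
    rw [Fintype.card_piFinset]
    simp
  have hfin := hw.trans (sum_le_sum hx)
  rw [sum_const, nsmul_eq_mul, hcard] at hfin
  have hfin2 : (1 - 6 * (1 / 12)) * c1 * (N : ℝ) ^ 4 ≤
      TT N (fun e => ind (C e)) + c1 / 8 * (N : ℝ) ^ 4 + 4 * ((K * P : ℕ) : ℝ) * (N : ℝ) ^ 3 := by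
    have h4 : (0 : ℝ) < (P : ℝ) ^ 4 := by positivity
    refine le_of_mul_le_mul_left ?_ h4
    refine le_trans (le_of_eq (by ring)) hfin
  have hN3 : 4 * ((K * P : ℕ) : ℝ) * (N : ℝ) ^ 3 ≤ c1 / 8 * (N : ℝ) ^ 4 := by
    have h5 : (N2 : ℝ) ≤ N := by
      have : N2 ≤ N := by omega
      exact_mod_cast this
    have h6 : 32 * (K : ℝ) * P / c1 ≤ N := hN2.trans h5
    rw [div_le_iff₀ hc1] at h6
    push_cast
    have h7 : (0 : ℝ) ≤ (N : ℝ) ^ 3 := by positivity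
    have h8 := mul_le_mul_of_nonneg_right h6 h7
    nlinarith
  have hpos : 0 ≤ c1 * (N : ℝ) ^ 4 := by positivity
  have h9 : (1 - 6 * (1 / 12)) * c1 * (N : ℝ) ^ 4 = (1 / 2) * (c1 * (N : ℝ) ^ 4) := by ring
  have h10 : c1 / 8 * (N : ℝ) ^ 4 = (1 / 8) * (c1 * (N : ℝ) ^ 4) := by ring
  rw [h9] at hfin2
  rw [h10] at hfin2 hN3 ⊢
  linarith

end Pool.Agent.H21.GH
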