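import Pool.Agent.H21.GH.K4
import Pool.Agent.H21.GH.Tra
import Pool.Agent.H21.GH.Lv1

/-!
[H21 GH HALF]  Half of the multiples (assembly; helper21).

Proof.  Suppose the contrary for `ε > 0` (`ε ≤ 1/2`): every `q` has a multiple `Q` such that for all `X0` there are `X ≥ X0`, `M` with
fewer than `(1/2 - ε) X` of the `n ∈ (M, M+X]` having `E (Q n)`.  With `R = {z : ¬ E z.toNat}`: `Long R (1/2 + ε) Q`.  `transfer (ε/2)` gives `K, κ, c, P0`;
`γ = ε/8`, so `r - 4γ = 1/2 + ε/2`.  `K4P`: `δ, C`; `N2` such that `C N^(4-δ) < c N^4` for `N ≥ N2`.  `lev1` with `q = 6`, `N1 P = max (N1 of transfer) N2` gives `s, P, N, x, y`.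
Positions `b = (0, x, y, y + x)`: the differences `b_j - b_i` are `x, y, y + x, y - x, y, x`; `C e = {z : b_j - b_i + s z ∈ R}`, `cnt (C e) P m w = cnt R P (s m) (b_j - b_i + s w)`.
So `TT N (ind (C e)) ≥ c N^4`.  `A_j = {b_j + s u : u < N}`; the quadruples counted by `TT` are quadruples of `∏ A_j`, increasing (`x > s N`, `y > x + s N`),
admissible (all elements multiples of `6`), no difference has `E`.  So `c N^4 ≤ C N^(4-δ)`: contradiction.
-/

namespace Pool.Agent.H21.GH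

open Finset Pool.Agent.H11.HM Pool.Agent.H21.QT

open Classical in
/-- long intervals with few good elements are long intervals with many bad ones -/
theorem long_of_few (E : ℕ → Prop) (ε : ℝ) (Q : ℕ)
    (h : ∀ X0 : ℕ, ∃ X : ℕ, X0 ≤ X ∧ ∃ M : ℕ,
      (((Ioc M (M + X)).filter (fun n => E (Q * n))).card : ℝ) < (1 / 2 - ε) * X) :
    Long {z : ℤ | ¬ E z.toNat} (1 / 2 + ε) Q := by
  intro X0
  obtain ⟨X, hX, M, hM⟩ := h X0
  refine ⟨X, M, hX, ?_⟩
  have h1 := card_filter_add_card_filter_not (s := Ioc M (M + X)) (fun n => E (Q * n))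
  rw [Nat.card_Ioc, Nat.add_sub_cancel_left] at h1
  have h3 : ((((Ioc M (M + X)).filter (fun n => E (Q * n))).card : ℕ) : ℝ) +
      ((((Ioc M (M + X)).filter (fun n => ¬ E (Q * n))).card : ℕ) : ℝ) = X := by exact_mod_cast h1
  have h4 : (1 / 2 + ε) * (X : ℝ) ≤ ((((Ioc M (M + X)).filter (fun n => ¬ E (Q * n))).card : ℕ) : ℝ) := by
    linarith
  refine h4.trans (Nat.cast_le.2 (card_le_card ?_))
  intro n hn
  rw [mem_filter] at hn
  apply (@Finset.mem_filter _ _ (_) _ _).2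
  refine ⟨hn.1, ?_⟩
  show ¬ E ((Q * n : ℕ) : ℤ).toNat
  rw [Int.toNat_natCast]
  exact hn.2

theorem ind6 (p0 p1 p2 p3 p4 p5 : Prop) [Decidable p0] [Decidable p1] [Decidable p2] [Decidable p3]
    [Decidable p4] [Decidable p5] :
    (if p0 then (1 : ℝ) else 0) * (if p1 then (1 : ℝ) else 0) * (if p2 then (1 : ℝ) else 0) *
      (if p3 then (1 : ℝ) else 0) * (if p4 then (1 : ℝ) else 0) * (if p5 then (1 : ℝ) else 0) =
      if p0 ∧ p1 ∧ p2 ∧ p3 ∧ p4 ∧ p5 then 1 else 0 := by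
  by_cases h0 : p0 <;> by_cases h1 : p1 <;> by_cases h2 : p2 <;> by_cases h3 : p3 <;>
    by_cases h4 : p4 <;> by_cases h5 : p5 <;> simp [h0, h1, h2, h3, h4, h5]

/-- the positions of the six pairs -/
def bb (x y : ℕ) : Fin 4 → ℕ := ![0, x, y, y + x]

open Classical in
/-- the quadruples counted by `TT` -/
theorem tt_count (E : ℕ → Prop) (s N x y : ℕ) (hs : 0 < s) (hx : s * N < x) (hy : x + s * N < y)
    (hN : 1 ≤ N) :
    TT N (fun e => ind {z : ℤ | ((bb x y (pr e).2 : ℤ) - bb x y (pr e).1) + s * z ∈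
      {z : ℤ | ¬ E z.toNat}}) ≤
      (((Fintype.piFinset (fun j : Fin 4 => (range N).image (fun u => bb x y j + s * u))).filter
        (fun a => ∀ i j, a i < a j → ¬ E (a j - a i))).card : ℝ) := by
  obtain ⟨A, hA⟩ : ∃ A : Fin 4 → Finset ℕ, A = fun j => (range N).image (fun u => bb x y j + s * u) :=
    ⟨_, rfl⟩
  obtain ⟨W, hW⟩ : ∃ W : Finset (ℕ × ℕ × ℕ × ℕ), W = (range N ×ˢ range N ×ˢ range N ×ˢ range N).filter
    (fun w => ∀ e, ((bb x y (pr e).2 : ℤ) - bb x y (pr e).1) +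
      s * (((![w.1, w.2.1, w.2.2.1, w.2.2.2] : Fin 4 → ℕ) (pr e).2 : ℤ) -
        (![w.1, w.2.1, w.2.2.1, w.2.2.2] : Fin 4 → ℕ) (pr e).1) ∈ {z : ℤ | ¬ E z.toNat}) := ⟨_, rfl⟩
  have h1 : TT N (fun e => ind {z : ℤ | ((bb x y (pr e).2 : ℤ) - bb x y (pr e).1) + s * z ∈
      {z : ℤ | ¬ E z.toNat}}) = (W.card : ℝ) := by
    unfold TT
    rw [hW, card_filter, Nat.cast_sum]
    simp only [sum_product]
    apply sum_congr rfl
    intro a _
    apply sum_congr rfl
    intro b _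
    apply sum_congr rfl
    intro c _
    apply sum_congr rfl
    intro d _
    have hall : (∀ e, ((bb x y (pr e).2 : ℤ) - bb x y (pr e).1) +
        s * (((![a, b, c, d] : Fin 4 → ℕ) (pr e).2 : ℤ) -
          (![a, b, c, d] : Fin 4 → ℕ) (pr e).1) ∈ {z : ℤ | ¬ E z.toNat}) ↔
        ((b : ℤ) - a ∈ {z : ℤ | ((bb x y (pr 0).2 : ℤ) - bb x y (pr 0).1) + s * z ∈ {z : ℤ | ¬ E z.toNat}} ∧
        (c : ℤ) - a ∈ {z : ℤ | ((bb x y (pr 1).2 : ℤ) - bb x y (pr 1).1) + s * z ∈ {z : ℤ | ¬ E z.toNat}} ∧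
        (d : ℤ) - a ∈ {z : ℤ | ((bb x y (pr 2).2 : ℤ) - bb x y (pr 2).1) + s * z ∈ {z : ℤ | ¬ E z.toNat}} ∧
        (c : ℤ) - b ∈ {z : ℤ | ((bb x y (pr 3).2 : ℤ) - bb x y (pr 3).1) + s * z ∈ {z : ℤ | ¬ E z.toNat}} ∧
        (d : ℤ) - b ∈ {z : ℤ | ((bb x y (pr 4).2 : ℤ) - bb x y (pr 4).1) + s * z ∈ {z : ℤ | ¬ E z.toNat}} ∧
        (d : ℤ) - c ∈ {z : ℤ | ((bb x y (pr 5).2 : ℤ) - bb x y (pr 5).1) + s * z ∈ {z : ℤ | ¬ E z.toNat}}) := by
      constructor
      · intro h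
        exact ⟨h 0, h 1, h 2, h 3, h 4, h 5⟩
      · rintro ⟨h0, h1, h2, h3, h4, h5⟩ e
        fin_cases e
        · exact h0
        · exact h1
        · exact h2
        · exact h3
        · exact h4
        · exact h5
    unfold ind
    rw [ind6]
    by_cases H : ∀ e, ((bb x y (pr e).2 : ℤ) - bb x y (pr e).1) +
        s * (((![a, b, c, d] : Fin 4 → ℕ) (pr e).2 : ℤ) -
          (![a, b, c, d] : Fin 4 → ℕ) (pr e).1) ∈ {z : ℤ | ¬ E z.toNat}
    · rw [if_pos (hall.1 H), if_pos H, Nat.cast_one]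
    · rw [if_neg (fun h => H (hall.2 h)), if_neg H, Nat.cast_zero]
  rw [h1, Nat.cast_le]
  have hsN : ∀ u ∈ range N, s * u < s * N := fun u hu => Nat.mul_lt_mul_of_pos_left (mem_range.1 hu) hs
  apply card_le_card_of_injOn (fun w j => bb x y j + s * (![w.1, w.2.1, w.2.2.1, w.2.2.2] : Fin 4 → ℕ) j)
  · intro w hw
    rw [mem_coe, hW, mem_filter, mem_product, mem_product, mem_product] at hw
    obtain ⟨⟨w0, w1, w2, w3⟩, hw4⟩ := hw
    rw [mem_coe, mem_filter, Fintype.mem_piFinset]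
    have s0 := hsN _ w0
    have s1 := hsN _ w1
    have s2 := hsN _ w2
    have s3 := hsN _ w3
    refine ⟨?_, ?_⟩
    · intro j
      rw [mem_image]
      refine ⟨(![w.1, w.2.1, w.2.2.1, w.2.2.2] : Fin 4 → ℕ) j, ?_, rfl⟩
      fin_cases j
      · exact w0
      · exact w1
      · exact w2
      · exact w3
    · -- the order of the points
      have hord : ∀ i j : Fin 4, i < j →
          bb x y i + s * (![w.1, w.2.1, w.2.2.1, w.2.2.2] : Fin 4 → ℕ) i <
          bb x y j + s * (![w.1, w.2.1, w.2.2.1, w.2.2.2] : Fin 4 → ℕ) j := by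
        intro i j hij
        fin_cases i <;> fin_cases j <;> first
          | (exfalso; revert hij; decide)
          | (simp [bb]; omega)
      intro i j hij
      have hlt : i < j := by
        rcases lt_trichotomy i j with h | h | h
        · exact h
        · subst h; exact absurd hij (lt_irrefl _)
        · exact absurd (hij.trans (hord j i h)) (lt_irrefl _)
      obtain ⟨e, he⟩ : ∃ e : Fin 6, pr e = (i, j) := by
        revert hlt
        revert i j
        intro i j _ hlt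
        revert hlt
        fin_cases i <;> fin_cases j <;> intro hlt <;> first
          | (exfalso; revert hlt; decide)
          | exact ⟨0, rfl⟩
          | exact ⟨1, rfl⟩
          | exact ⟨2, rfl⟩
          | exact ⟨3, rfl⟩
          | exact ⟨4, rfl⟩
          | exact ⟨5, rfl⟩
      have h5 := hw4 e
      rw [he] at h5
      simp only [Set.mem_ofPred_eq] at h5
      intro hE
      apply h5
      have e6 : (((bb x y j : ℕ) : ℤ) - (bb x y i : ℕ) + s *
          (((![w.1, w.2.1, w.2.2.1, w.2.2.2] : Fin 4 → ℕ) j : ℤ) -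
          (![w.1, w.2.1, w.2.2.1, w.2.2.2] : Fin 4 → ℕ) i)).toNat =
          bb x y j + s * (![w.1, w.2.1, w.2.2.1, w.2.2.2] : Fin 4 → ℕ) j -
          (bb x y i + s * (![w.1, w.2.1, w.2.2.1, w.2.2.2] : Fin 4 → ℕ) i) := by
        have e7 : (((bb x y j : ℕ) : ℤ) - (bb x y i : ℕ) + s *
          (((![w.1, w.2.1, w.2.2.1, w.2.2.2] : Fin 4 → ℕ) j : ℤ) -
          (![w.1, w.2.1, w.2.2.1, w.2.2.2] : Fin 4 → ℕ) i)) =
          ((bb x y j + s * (![w.1, w.2.1, w.2.2.1, w.2.2.2] : Fin 4 → ℕ) j : ℕ) : ℤ) -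
          ((bb x y i + s * (![w.1, w.2.1, w.2.2.1, w.2.2.2] : Fin 4 → ℕ) i : ℕ) : ℤ) := by
          push_cast
          ring
        rw [e7]
        exact Int.toNat_sub _ _
      rw [e6]
      exact hE
  · intro w _ w' _ hww
    have h6 : ∀ j : Fin 4, (![w.1, w.2.1, w.2.2.1, w.2.2.2] : Fin 4 → ℕ) j =
        (![w'.1, w'.2.1, w'.2.2.1, w'.2.2.2] : Fin 4 → ℕ) j := by
      intro j
      have h7 := congrFun hww j
      simp only at h7
      have h8 : s * (![w.1, w.2.1, w.2.2.1, w.2.2.2] : Fin 4 → ℕ) j =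
        s * (![w'.1, w'.2.1, w'.2.2.1, w'.2.2.2] : Fin 4 → ℕ) j := by omega
      exact Nat.eq_of_mul_eq_mul_left hs h8
    have g0 := h6 0
    have g1 := h6 1
    have g2 := h6 2
    have g3 := h6 3
    simp at g0 g1 g2 g3
    exact Prod.ext g0 (Prod.ext g1 (Prod.ext g2 g3))

open Classical in
theorem half_dens (E : ℕ → Prop) (h4 : K4P E) (ε : ℝ) (hε : 0 < ε) :
    ∃ q : ℕ, 0 < q ∧ ∀ Q : ℕ, 0 < Q → q ∣ Q → ∃ X0 : ℕ, ∀ X : ℕ, X0 ≤ X → ∀ M : ℕ,
      (1 / 2 - ε) * X ≤ (((Ioc M (M + X)).filter (fun n => E (Q * n))).card : ℝ) := by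
  by_contra hcon
  push Not at hcon
  have hbad : ∀ q : ℕ, 0 < q → ∃ Q : ℕ, 0 < Q ∧ q ∣ Q ∧ Long {z : ℤ | ¬ E z.toNat} (1 / 2 + ε) Q := by
    intro q hq
    obtain ⟨Q, hQ, hqQ, h⟩ := hcon q hq
    exact ⟨Q, hQ, hqQ, long_of_few E ε Q h⟩
  obtain ⟨K, κ, c, P0, hK, hκ, hc, htr⟩ := transfer (ε / 2) (by linarith)
  obtain ⟨δ, C, hδ, hC, hcount⟩ := h4
  -- a large size
  obtain ⟨N2, hN2⟩ : ∃ N2 : ℕ, ∀ N : ℕ, N2 ≤ N → 1 ≤ N →
      C * (N : ℝ) ^ ((4 : ℝ) - δ) < c * (N : ℝ) ^ 4 := by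
    have ht : Filter.Tendsto (fun L : ℕ => (L : ℝ) ^ δ) Filter.atTop Filter.atTop :=
      (tendsto_rpow_atTop hδ).comp tendsto_natCast_atTop_atTop
    obtain ⟨N2, hN2⟩ := Filter.eventually_atTop.1 (ht.eventually_gt_atTop (C / c))
    refine ⟨N2, fun L hL hL1 => ?_⟩
    have hLR : (0 : ℝ) < L := by exact_mod_cast hL1
    have h1 := hN2 L hL
    rw [div_lt_iff₀ hc] at h1
    have e1 : (L : ℝ) ^ ((4 : ℝ) - δ) * (L : ℝ) ^ δ = (L : ℝ) ^ 4 := by
      rw [← Real.rpow_add hLR]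
      have : (4 : ℝ) - δ + δ = (4 : ℕ) := by norm_num
      rw [this, Real.rpow_natCast]
    have h3 : 0 < (L : ℝ) ^ ((4 : ℝ) - δ) := Real.rpow_pos_of_pos hLR _
    calc C * (L : ℝ) ^ ((4 : ℝ) - δ) < ((L : ℝ) ^ δ * c) * (L : ℝ) ^ ((4 : ℝ) - δ) :=
          mul_lt_mul_of_pos_right h1 h3
      _ = c * ((L : ℝ) ^ ((4 : ℝ) - δ) * (L : ℝ) ^ δ) := by ring
      _ = _ := by rw [e1]
  choose! N1 hN1 using htr
  obtain ⟨s, P, N, x, y, hs, hqs, hqx, hqy, hP0, hPp, hNN, hN, hx, hy, p1, p2, p3, p4⟩ :=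
    lev1 {z : ℤ | ¬ E z.toNat} (1 / 2 + ε) (ε / 8) κ K (by linarith) hκ hK hbad 6 (by norm_num) P0
      (fun P => max (N1 P) N2)
  have hr : 1 / 2 + ε - 4 * (ε / 8) = 1 / 2 + ε / 2 := by ring
  rw [hr] at p1 p2 p3 p4
  have htt := hN1 P hP0 hPp N ((le_max_left _ _).trans hNN)
    (fun e => {z : ℤ | ((bb x y (pr e).2 : ℤ) - bb x y (pr e).1) + s * z ∈ {z : ℤ | ¬ E z.toNat}}) (by
      intro e m hm hmK
      have hcnt : ∀ w : ℤ, cnt {z : ℤ | ((bb x y (pr e).2 : ℤ) - bb x y (pr e).1) + s * z ∈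
          {z : ℤ | ¬ E z.toNat}} P m w =
          cnt {z : ℤ | ¬ E z.toNat} P ((s : ℤ) * m) (((bb x y (pr e).2 : ℤ) - bb x y (pr e).1) + s * w) := by
        intro w
        unfold cnt
        congr 1
        ext n
        simp only [mem_filter, Set.mem_ofPred_eq]
        have e9 : ((bb x y (pr e).2 : ℤ) - bb x y (pr e).1) + s * (w + (m : ℤ) * n) =
            ((bb x y (pr e).2 : ℤ) - bb x y (pr e).1) + s * w + (s : ℤ) * m * n := by ring
        rw [e9]
      simp only [hcnt]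
      have hpos : (((bb x y (pr e).2 : ℕ) : ℤ) - (bb x y (pr e).1 : ℕ)) = x ∨
          (((bb x y (pr e).2 : ℕ) : ℤ) - (bb x y (pr e).1 : ℕ)) = y ∨
          (((bb x y (pr e).2 : ℕ) : ℤ) - (bb x y (pr e).1 : ℕ)) = (y : ℤ) + x ∨
          (((bb x y (pr e).2 : ℕ) : ℤ) - (bb x y (pr e).1 : ℕ)) = (y : ℤ) - x := by
        fin_cases e <;> simp [pr, bb]
      rcases hpos with h | h | h | h
      · rw [h]; exact p1 m hm hmK
      · rw [h]; exact p2 m hm hmK
      · rw [h]; exact p3 m hm hmK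
      · rw [h]; exact p4 m hm hmK)
  have h5 := tt_count E s N x y hs hx hy hN
  have h6 := hcount N (fun j : Fin 4 => (range N).image (fun u => bb x y j + s * u)) hN
    (fun j => card_image_le.trans (card_range N).le)
  have h7 : (((Fintype.piFinset (fun j : Fin 4 => (range N).image (fun u => bb x y j + s * u))).filter
        (fun a => ∀ i j, a i < a j → ¬ E (a j - a i))).card : ℝ) ≤
      (((Fintype.piFinset (fun j : Fin 4 => (range N).image (fun u => bb x y j + s * u))).filter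
        (fun a => AdT (fun j => (a j : ℤ)) ∧ ∀ i j, a i < a j → ¬ E (a j - a i))).card : ℝ) := by
    rw [Nat.cast_le]
    apply card_le_card
    intro a ha
    rw [mem_filter, Fintype.mem_piFinset] at ha ⊢
    refine ⟨ha.1, ?_, ha.2⟩
    have h8 : ∀ j, ∃ n, a j = 6 * n := by
      intro j
      obtain ⟨u, _, hu⟩ := mem_image.1 (ha.1 j)
      have h9 : 6 ∣ a j := by
        rw [← hu]
        apply Nat.dvd_add _ (Dvd.dvd.mul_right hqs _)
        fin_cases j
        · exact dvd_zero _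
        · exact hqx
        · exact hqy
        · exact Nat.dvd_add hqy hqx
      exact h9
    choose n hn using h8
    have h10 := adT_two 2 dvd_rfl (fun j => 3 * n j) 1 (fun j => by omega)
    refine (fun p hp => ?_)
    obtain ⟨b, hb⟩ := h10 p hp
    refine ⟨b, fun j hj => hb j ?_⟩
    have e : 2 * (3 * n j) = a j := by rw [hn j]; ring
    show (p : ℤ) ∣ b + ((2 * (3 * n j) : ℕ) : ℤ)
    rw [e]
    exact hj
  exact absurd (htt.trans (h5.trans (h7.trans h6)))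
    (not_le.2 (hN2 N ((le_max_right _ _).trans hNN) hN))

end Pool.Agent.H21.GH
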