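import Pool.Agent.H21.GH.Df

/-!
[H21 GH AVG]  Averages along progressions.

AVG_AP.  `∑_{n < Λ} cnt R Λ' (r d) (B + d n) = ∑_{t < Λ'} #{n < Λ : B + d (n + r t) ∈ R}` (exchange the sums), and for each `t < Λ'` the number
`#{n < Λ : B + d (n + r t) ∈ R} = #{n ∈ [r t, Λ + r t) : B + d n ∈ R}` differs from `cnt R Λ d B` by at most `r t ≤ r Λ'`.
ATOM.  `X ≥ Λ/τ`, `X ≥ 1`, `M` from `Long`; `B0 = Q (M+1)`: `cnt R X Q B0 = #{n ∈ (M, M+X] : Q n ∈ R} ≥ r X`.  `avg_ap` with `d = Q`, `r = 1`, `Λ = X`,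
`Λ' = Λ`: `∑_{n < X} cnt R Λ Q (B0 + Q n) ≥ Λ r X - Λ^2 ≥ Λ (r - τ) X`, so some `n < X` has `cnt ≥ (r - τ) Λ`; `B = B0 + Q n`.
INCREMENT.  `∑_{n < Λ} cnt R Λ' (r d) (B + d n) ≥ Λ' α Λ - r Λ'^2 ≥ Λ Λ' (α - τ)`.  If all terms are `< (α + τ) Λ'` then with `f > δ Λ` = number of the
poor ones the sum is `≤ f (α - γ) Λ' + (Λ - f)(α + τ) Λ' = Λ Λ' (α + τ) - f (γ + τ) Λ' < Λ Λ' (α + τ - δ γ) ≤ Λ Λ' (α - τ)`: contradiction.
-/

namespace Pool.Agent.H21.GH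

open Finset Pool.Agent.H11.HM

private theorem av_cnt (R : Set ℤ) (P : ℕ) (s z : ℤ) :
    (cnt R P s z : ℝ) = ∑ n ∈ range P, ind R (z + s * n) := by
  classical
  unfold cnt ind
  rw [Finset.card_filter]
  push_cast
  rfl

private theorem av_ind (R : Set ℤ) (z : ℤ) : 0 ≤ ind R z ∧ ind R z ≤ 1 := by
  unfold ind
  split_ifs <;> norm_num

private theorem av_shift (h : ℕ → ℝ) (h0 : ∀ n, 0 ≤ h n ∧ h n ≤ 1) (Λ k : ℕ) :
    |∑ n ∈ range Λ, h (n + k) - ∑ n ∈ range Λ, h n| ≤ k := by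
  have e1 : ∑ n ∈ range (k + Λ), h n = ∑ n ∈ range k, h n + ∑ n ∈ range Λ, h (k + n) :=
    Finset.sum_range_add _ _ _
  have e2 : ∑ n ∈ range (Λ + k), h n = ∑ n ∈ range Λ, h n + ∑ n ∈ range k, h (Λ + n) :=
    Finset.sum_range_add _ _ _
  rw [add_comm Λ k, e1] at e2
  have e3 : ∑ n ∈ range Λ, h (n + k) = ∑ n ∈ range Λ, h (k + n) :=
    Finset.sum_congr rfl fun n _ => by rw [add_comm]
  rw [e3]
  have h1 : ∀ g : ℕ → ℝ, (∀ n, 0 ≤ g n ∧ g n ≤ 1) → 0 ≤ ∑ n ∈ range k, g n ∧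
      ∑ n ∈ range k, g n ≤ k := by
    intro g hg
    refine ⟨Finset.sum_nonneg fun n _ => (hg n).1, ?_⟩
    refine (Finset.sum_le_sum fun n _ => (hg n).2).trans ?_
    rw [Finset.sum_const, Finset.card_range, nsmul_eq_mul, mul_one]
  have h2 := h1 h h0
  have h3 := h1 (fun n => h (Λ + n)) fun n => h0 _
  rw [abs_le]
  constructor <;> linarith [h2.1, h2.2, h3.1, h3.2]

theorem avg_ap (R : Set ℤ) (B d : ℤ) (r Λ Λ' : ℕ) :
    |∑ n ∈ range Λ, (cnt R Λ' (r * d) (B + d * n) : ℝ) - (Λ' : ℝ) * cnt R Λ d B| ≤ r * (Λ' : ℝ) ^ 2 := by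
  have h1 : ∑ n ∈ range Λ, (cnt R Λ' (r * d) (B + d * n) : ℝ) =
      ∑ t ∈ range Λ', ∑ n ∈ range Λ, ind R (B + d * ((n + r * t : ℕ) : ℤ)) := by
    rw [Finset.sum_comm]
    refine Finset.sum_congr rfl fun n _ => ?_
    rw [av_cnt]
    refine Finset.sum_congr rfl fun t _ => ?_
    congr 1
    push_cast
    ring
  have h2 : (Λ' : ℝ) * cnt R Λ d B = ∑ _t ∈ range Λ', ∑ n ∈ range Λ, ind R (B + d * (n : ℤ)) := by
    rw [av_cnt, Finset.sum_const, Finset.card_range, nsmul_eq_mul]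
  rw [h1, h2, ← Finset.sum_sub_distrib]
  refine (Finset.abs_sum_le_sum_abs _ _).trans ?_
  have h3 : ∀ t ∈ range Λ', |∑ n ∈ range Λ, ind R (B + d * ((n + r * t : ℕ) : ℤ)) -
      ∑ n ∈ range Λ, ind R (B + d * (n : ℤ))| ≤ (r : ℝ) * Λ' := by
    intro t ht
    have h4 := av_shift (fun n => ind R (B + d * (n : ℤ))) (fun n => av_ind R _) Λ (r * t)
    refine h4.trans ?_
    push_cast
    have : (t : ℝ) ≤ Λ' := by exact_mod_cast (Finset.mem_range.1 ht).le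
    exact mul_le_mul_of_nonneg_left this (Nat.cast_nonneg _)
  refine (Finset.sum_le_sum h3).trans ?_
  rw [Finset.sum_const, Finset.card_range, nsmul_eq_mul]
  apply le_of_eq
  ring

/-- an atom of large density in a long interval -/
theorem atom_exists (R : Set ℤ) (r τ : ℝ) (hτ : 0 < τ) (Q : ℕ) (hQ : 0 < Q) (hL : Long R r Q) (Λ : ℕ)
    (hΛ : 1 ≤ Λ) : ∃ B : ℤ, 0 < B ∧ (Q : ℤ) ∣ B ∧ (r - τ) * Λ ≤ (cnt R Λ Q B : ℝ) := by
  classical
  obtain ⟨X, M, hX, hM⟩ := hL (max 1 ⌈(Λ : ℝ) / τ⌉₊)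
  have hX1 : 1 ≤ X := (le_max_left _ _).trans hX
  have hX2 : (Λ : ℝ) ≤ τ * X := by
    have h1 : (Λ : ℝ) / τ ≤ X := (Nat.le_ceil _).trans (by
      exact_mod_cast (le_max_right _ _).trans hX)
    rw [div_le_iff₀ hτ] at h1
    linarith
  have hXR : (1 : ℝ) ≤ X := by exact_mod_cast hX1
  have hΛR : (1 : ℝ) ≤ Λ := by exact_mod_cast hΛ
  obtain ⟨B0, hB0⟩ : ∃ B0 : ℤ, B0 = (Q : ℤ) * (M + 1) := ⟨_, rfl⟩
  have hcnt : (((Ioc M (M + X)).filter (fun n => ((Q * n : ℕ) : ℤ) ∈ R)).card : ℝ) =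
      cnt R X Q B0 := by
    unfold cnt
    congr 1
    symm
    refine Finset.card_nbij' (fun n => M + 1 + n) (fun n => n - (M + 1)) ?_ ?_ ?_ ?_
    · intro n hn
      simp only [Finset.coe_filter, Finset.mem_range, Set.mem_setOf_eq, Finset.mem_Ioc] at hn ⊢
      refine ⟨⟨by omega, by omega⟩, ?_⟩
      have h2 : ((Q * (M + 1 + n) : ℕ) : ℤ) = B0 + Q * n := by
        rw [hB0]
        push_cast
        ring
      rw [h2]
      exact hn.2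
    · intro n hn
      simp only [Finset.coe_filter, Finset.mem_range, Set.mem_setOf_eq, Finset.mem_Ioc] at hn ⊢
      refine ⟨by omega, ?_⟩
      have h2 : B0 + Q * ((n - (M + 1) : ℕ) : ℤ) = ((Q * n : ℕ) : ℤ) := by
        rw [hB0]
        push_cast [Nat.cast_sub (by omega : M + 1 ≤ n)]
        ring
      rw [h2]
      exact hn.2
    · intro n _
      simp
    · intro n hn
      simp only [Finset.coe_filter, Set.mem_setOf_eq, Finset.mem_Ioc] at hn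
      show M + 1 + (n - (M + 1)) = n
      omega
  rw [hcnt] at hM
  have h1 := avg_ap R B0 Q 1 X Λ
  rw [abs_le] at h1
  have h2 : ∑ n ∈ range X, (cnt R Λ ((1 : ℕ) * Q) (B0 + Q * n) : ℝ) ≥ (r - τ) * Λ * X := by
    have h3 := h1.1
    push_cast at h3 ⊢
    nlinarith
  by_contra hcon
  push Not at hcon
  have h3 : ∑ n ∈ range X, (cnt R Λ ((1 : ℕ) * Q) (B0 + Q * n) : ℝ) <
      ∑ _n ∈ range X, (r - τ) * Λ := by
    refine Finset.sum_lt_sum_of_nonempty ⟨0, Finset.mem_range.2 hX1⟩ fun n _ => ?_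
    have h4 := hcon (B0 + Q * n) (by
      rw [hB0]
      positivity) (by
      rw [hB0]
      exact ⟨(M + 1) + n, by ring⟩)
    simpa using h4
  rw [Finset.sum_const, Finset.card_range, nsmul_eq_mul] at h3
  linarith

/-- density increment: if more than `δ Λ` of the subprogressions are poor, one is rich -/
theorem increment (R : Set ℤ) (B d : ℤ) (r Λ Λ' : ℕ) (α γ δ τ : ℝ) (hγ : 0 < γ) (hδ : 0 < δ) (hτ : 0 < τ)
    (hτ1 : 2 * τ ≤ δ * γ) (hΛ : 1 ≤ Λ) (hΛ' : 1 ≤ Λ') (hr : (r : ℝ) * Λ' ≤ τ * Λ)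
    (hB : α * Λ ≤ (cnt R Λ d B : ℝ))
    (hbad : δ * Λ < (((range Λ).filter (fun n : ℕ =>
      (cnt R Λ' (r * d) (B + d * n) : ℝ) < (α - γ) * Λ')).card : ℝ)) :
    ∃ n < Λ, (α + τ) * Λ' ≤ (cnt R Λ' (r * d) (B + d * n) : ℝ) := by
  classical
  by_contra hcon
  push Not at hcon
  have hΛR : (1 : ℝ) ≤ Λ := by exact_mod_cast hΛ
  have hΛR' : (1 : ℝ) ≤ Λ' := by exact_mod_cast hΛ'
  have h1 := avg_ap R B d r Λ Λ'
  rw [abs_le] at h1
  have h2 : (Λ : ℝ) * Λ' * (α - τ) ≤ ∑ n ∈ range Λ, (cnt R Λ' (r * d) (B + d * n) : ℝ) := by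
    have h3 := h1.1
    have h4 : (Λ' : ℝ) * (α * Λ) ≤ Λ' * cnt R Λ d B := mul_le_mul_of_nonneg_left hB (by linarith)
    have h5 : Λ' * ((r : ℝ) * Λ') ≤ Λ' * (τ * Λ) := mul_le_mul_of_nonneg_left hr (by linarith)
    nlinarith
  obtain ⟨F, hF⟩ : ∃ F : Finset ℕ, F = (range Λ).filter (fun n : ℕ =>
      (cnt R Λ' (r * d) (B + d * n) : ℝ) < (α - γ) * Λ') := ⟨_, rfl⟩
  have hF1 : δ * Λ < (F.card : ℝ) := by
    rw [hF]
    convert hbad
  have h3 : ∑ n ∈ range Λ, (cnt R Λ' (r * d) (B + d * n) : ℝ) ≤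
      ∑ n ∈ range Λ, ((α + τ) * Λ' - if (cnt R Λ' (r * d) (B + d * n) : ℝ) < (α - γ) * Λ' then
        (γ + τ) * Λ' else 0) := by
    refine Finset.sum_le_sum fun n hn => ?_
    split_ifs with h
    · linarith
    · linarith [hcon n (Finset.mem_range.1 hn)]
  rw [Finset.sum_sub_distrib, Finset.sum_const, Finset.card_range, nsmul_eq_mul,
    ← Finset.sum_filter, Finset.sum_const, nsmul_eq_mul, ← hF] at h3
  have h4 : δ * Λ * ((γ + τ) * Λ') < F.card * ((γ + τ) * Λ') :=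
    mul_lt_mul_of_pos_right hF1 (by positivity)
  have h5 : 2 * τ * (Λ * Λ') ≤ δ * γ * (Λ * Λ') := mul_le_mul_of_nonneg_right hτ1 (by positivity)
  have h6 : 0 ≤ δ * Λ * (τ * Λ') := by positivity
  nlinarith

end Pool.Agent.H21.GH
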