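import Pool.Agent.H21.GH.Coe

/-!
[H21 GH CLQ]  The clique lemma.

Proof.  Enlarge `D e` to a set `D' e` with exactly `2k` elements (`Finset.exists_superset_card_eq`, `2k ≤ p`).
`f = ∏_e ∏_{d ∈ D' e} (X_j - X_i - C d)`, `(i, j) = pr e` (index set `univ.sigma D'`, `12 k` factors) has at `t = (3k,3k,3k,3k)` the coefficient
of `∏_e (X_j - X_i)^(2k)` (`top_coeff`), which is `≠ 0` (`coeff_ne`), and total degree `≤ 12 k = t.degree` (`top_deg`), so `=`.
`MvPolynomial.combinatorial_nullstellensatz_exists_eval_nonzero` with `S_i = univ` (`3k < p` elements) gives `x` with `f(x) ≠ 0`.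
-/

namespace Pool.Agent.H21.GH

open Finset MvPolynomial

/-- sets of forbidden differences of density less than one half cannot block all quadruples -/
theorem clique4 (p k : ℕ) [Fact p.Prime] (h : 4 * k < p) (D : Fin 6 → Finset (ZMod p))
    (hD : ∀ e, (D e).card ≤ 2 * k) :
    ∃ x : Fin 4 → ZMod p, ∀ e, x (pr e).2 - x (pr e).1 ∉ D e := by
  have hex : ∀ e, ∃ t : Finset (ZMod p), D e ⊆ t ∧ t.card = 2 * k := fun e =>
    exists_superset_card_eq (hD e) (by rw [ZMod.card]; omega)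
  choose D' hD1 hD2 using hex
  obtain ⟨L, hLd⟩ : ∃ L : (Σ _ : Fin 6, ZMod p) → MvPolynomial (Fin 4) (ZMod p),
    L = fun a => X (pr a.1).2 - X (pr a.1).1 := ⟨_, rfl⟩
  obtain ⟨c, hcd⟩ : ∃ c : (Σ _ : Fin 6, ZMod p) → ZMod p, c = fun a => a.2 := ⟨_, rfl⟩
  obtain ⟨S, hSd⟩ : ∃ S : Finset (Σ _ : Fin 6, ZMod p), S = univ.sigma D' := ⟨_, rfl⟩
  obtain ⟨t, htd⟩ : ∃ t : Fin 4 →₀ ℕ, t = Finsupp.equivFunOnFinite.symm (fun _ : Fin 4 => 3 * k) :=
    ⟨_, rfl⟩
  have hti : ∀ i, t i = 3 * k := fun i => by rw [htd]; rfl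
  have ht : t.degree = 12 * k := by
    rw [Finsupp.degree_eq_sum]
    simp only [hti, sum_const, card_univ, Fintype.card_fin, smul_eq_mul]
    ring
  have hSc : S.card = 12 * k := by
    rw [hSd, card_sigma]
    simp only [hD2, sum_const, card_univ, Fintype.card_fin, smul_eq_mul]
    ring
  have hL : ∀ a ∈ S, (L a).IsHomogeneous 1 := fun a _ => by
    rw [hLd]
    exact (isHomogeneous_X _ _).sub (isHomogeneous_X _ _)
  have h1 : coeff t (∏ a ∈ S, (L a - C (c a))) ≠ 0 := by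
    rw [top_coeff S L hL c t (by rw [ht, hSc])]
    have h2 : ∏ a ∈ S, L a =
        ∏ e : Fin 6, ((X (pr e).2 : MvPolynomial (Fin 4) (ZMod p)) - X (pr e).1) ^ (2 * k) := by
      rw [hSd, prod_sigma, hLd]
      refine prod_congr rfl fun e _ => ?_
      simp only
      rw [prod_const, hD2]
    rw [h2, htd]
    exact coeff_ne p k h
  have h3 : (∏ a ∈ S, (L a - C (c a))).totalDegree = t.degree := by
    refine le_antisymm ?_ ?_
    · rw [ht, ← hSc]
      exact top_deg S L hL c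
    · exact le_totalDegree (mem_support_iff.2 h1)
  obtain ⟨x, -, hx⟩ := combinatorial_nullstellensatz_exists_eval_nonzero
    (∏ a ∈ S, (L a - C (c a))) t h1 h3 (fun _ => univ) (fun i => by
      rw [hti, card_univ, ZMod.card]
      omega)
  refine ⟨x, fun e he => hx ?_⟩
  rw [eval_prod]
  have hm : (⟨e, x (pr e).2 - x (pr e).1⟩ : Σ _ : Fin 6, ZMod p) ∈ S := by
    rw [hSd, mem_sigma]
    exact ⟨mem_univ _, hD1 e he⟩
  refine prod_eq_zero hm ?_
  rw [hLd, hcd]
  simp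

end Pool.Agent.H21.GH
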