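import Pool.Agent.H21.GH.Res

/-!
[H21 GH CNT]  Counting lemma for four parts.

Let `0 < d ≤ 1`, `ε = d^2/8`.  `s0, s1, s2, s3`: all six pairs `ε`-uniform and of density `≥ d`.

Proof.  `x ∈ s0` is bad for `s_j` if it has fewer than `(density - ε) |s_j|` neighbours in `s_j`: at most `ε |s0|` such `x` (`few_bad`); so
at least `(1 - 3 ε) |s0| ≥ |s0|/2` elements `x` of `s0` are good for `s1, s2, s3`.  For such an `x` let `A_j` = neighbours of `x` in `s_j`,
`|A_j| ≥ (d - ε) |s_j| ≥ (d/2) |s_j|`.  `unif_res` with `α = d/2`, `ε₂ = d/4` (`ε ≤ α ε₂`: `d^2/8`; `2 ε ≤ ε₂`: `d^2/4 ≤ d/4`; `ε ≤ α`): the pairs `(A_i, A_j)` are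
`ε₂`-uniform with density `≥ d - ε ≥ d/2 = 2 ε₂`.  `SimpleGraph.triangle_counting'` gives at least
`(1 - 2 ε₂) ε₂^3 |A1| |A2| |A3| ≥ (1/2) (d/4)^3 (d/2)^3 |s1| |s2| |s3|` triangles in `A1 × A2 × A3`.  Sum over the good `x`:
`≥ (1/2) (1/2) (d/4)^3 (d/2)^3 |s0| |s1| |s2| |s3| = d^6/2048 |s0| |s1| |s2| |s3|`.
-/

namespace Pool.Agent.H21.GH

open Finset

open Classical in
theorem cn_one {V : Type*} (G : SimpleGraph V) [DecidableRel G.Adj] (d : ℝ) (hd : 0 < d) (hd1 : d ≤ 1)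
    (s : Fin 4 → Finset V) (hu : ∀ i j, i < j → G.IsUniform (d ^ 2 / 8) (s i) (s j))
    (hs : ∀ i j, i < j → d ≤ G.edgeDensity (s i) (s j)) (A : Fin 4 → Finset V)
    (hA : ∀ j, 0 < j → A j ⊆ s j) (hAc : ∀ j, 0 < j → d / 2 * (s j).card ≤ (A j).card) :
    d ^ 6 / 1024 * ((s 1).card * (s 2).card * (s 3).card : ℝ) ≤
      ((((A 1) ×ˢ (A 2) ×ˢ (A 3)).filter (fun (p : V × V × V) =>
        G.Adj p.1 p.2.1 ∧ G.Adj p.1 p.2.2 ∧ G.Adj p.2.1 p.2.2)).card : ℝ) := by
  have h1 : ∀ i j : Fin 4, 0 < i → i < j → G.IsUniform (d / 4) (A i) (A j) ∧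
      2 * (d / 4) ≤ G.edgeDensity (A i) (A j) := by
    intro i j hi hij
    have h2 := unif_res G (d ^ 2 / 8) (d / 4) (d / 2) (s i) (s j) (A i) (A j) (hu i j hij)
      (by positivity) (by positivity) (by nlinarith) (by nlinarith) (by nlinarith)
      (hA i hi) (hA j (hi.trans hij)) (hAc i hi) (hAc j (hi.trans hij))
    refine ⟨h2.1, ?_⟩
    have h3 := hs i j hij
    nlinarith [h2.2]
  have e12 := h1 1 2 (by decide) (by decide)
  have e13 := h1 1 3 (by decide) (by decide)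
  have e23 := h1 2 3 (by decide) (by decide)
  have h4 := G.triangle_counting' e12.2 e12.1 e13.2 e13.1 e23.2 e23.1
  have h5 : (((A 1) ×ˢ (A 2) ×ˢ (A 3)).filter (fun (p : V × V × V) =>
        G.Adj p.1 p.2.1 ∧ G.Adj p.1 p.2.2 ∧ G.Adj p.2.1 p.2.2)).card =
      (((A 1) ×ˢ (A 2) ×ˢ (A 3)).filter fun (a, b, c) ↦ G.Adj a b ∧ G.Adj a c ∧ G.Adj b c).card := by
    congr 1
  rw [h5]
  refine le_trans ?_ h4
  have a1 := hAc 1 (by decide)
  have a2 := hAc 2 (by decide)
  have a3 := hAc 3 (by decide)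
  have b1 : (0 : ℝ) ≤ (s 1).card := Nat.cast_nonneg _
  have b2 : (0 : ℝ) ≤ (s 2).card := Nat.cast_nonneg _
  have b3 : (0 : ℝ) ≤ (s 3).card := Nat.cast_nonneg _
  have h6 : (d / 2 * (s 1).card) * (d / 2 * (s 2).card) * (d / 2 * (s 3).card) ≤
      ((A 1).card : ℝ) * (A 2).card * (A 3).card := by
    refine mul_le_mul (mul_le_mul a1 a2 (by positivity) (by positivity)) a3 (by positivity)
      (by positivity)
  calc d ^ 6 / 1024 * ((s 1).card * (s 2).card * (s 3).card : ℝ)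
      = (1 / 2 * (d / 4) ^ 3) * ((d / 2 * (s 1).card) * (d / 2 * (s 2).card) *
          (d / 2 * (s 3).card)) := by ring
    _ ≤ ((1 - 2 * (d / 4)) * (d / 4) ^ 3) * (((A 1).card : ℝ) * (A 2).card * (A 3).card) := by
        refine mul_le_mul ?_ h6 (by positivity) ?_
        · refine mul_le_mul_of_nonneg_right ?_ (by positivity)
          linarith
        · refine mul_nonneg ?_ (by positivity)
          linarith
    _ = (1 - 2 * (d / 4)) * (d / 4) ^ 3 * (A 1).card * (A 2).card * (A 3).card := by ring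

open Classical in
theorem k4_counting {V : Type*} (G : SimpleGraph V) [DecidableRel G.Adj] (d : ℝ) (hd : 0 < d) (hd1 : d ≤ 1)
    (s : Fin 4 → Finset V) (hu : ∀ i j, i < j → G.IsUniform (d ^ 2 / 8) (s i) (s j))
    (hs : ∀ i j, i < j → d ≤ G.edgeDensity (s i) (s j)) :
    d ^ 6 / 2048 * ((s 0).card * (s 1).card * (s 2).card * (s 3).card : ℝ) ≤
      (((Fintype.piFinset s).filter (fun v => ∀ i j, i < j → G.Adj (v i) (v j))).card : ℝ) := by
  have he1 : d ^ 2 / 8 ≤ 1 := by nlinarith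
  -- bad elements
  obtain ⟨B, hB⟩ : ∃ B : Fin 4 → Finset V, ∀ j, B j = (s 0).filter (fun x =>
      ((((s j).filter (fun y => G.Adj x y)).card : ℕ) : ℝ) <
        (G.edgeDensity (s 0) (s j) - d ^ 2 / 8) * (s j).card) := ⟨_, fun _ => rfl⟩
  have hBc : ∀ j : Fin 4, 0 < j → ((B j).card : ℝ) ≤ d ^ 2 / 8 * (s 0).card := by
    intro j hj
    rw [hB]
    exact few_bad G (d ^ 2 / 8) he1 (s 0) (s j) (hu 0 j hj)
  obtain ⟨X, hX⟩ : ∃ X : Finset V, X = s 0 \ (B 1 ∪ B 2 ∪ B 3) := ⟨_, rfl⟩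
  have hXs : X ⊆ s 0 := by rw [hX]; exact sdiff_subset
  have hXc : ((s 0).card : ℝ) / 2 ≤ X.card := by
    have h1 : (s 0).card ≤ X.card + (B 1 ∪ B 2 ∪ B 3).card := by
      rw [hX]
      have h2 := card_le_card (show s 0 ⊆ (s 0 \ (B 1 ∪ B 2 ∪ B 3)) ∪ (B 1 ∪ B 2 ∪ B 3) by
        intro x hx
        rw [mem_union, mem_sdiff]
        tauto)
      exact h2.trans (card_union_le _ _)
    have h2 : (B 1 ∪ B 2 ∪ B 3).card ≤ (B 1).card + (B 2).card + (B 3).card :=
      (card_union_le _ _).trans (Nat.add_le_add_right (card_union_le _ _) _)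
    have h3 : ((s 0).card : ℝ) ≤ X.card + ((B 1).card + (B 2).card + (B 3).card) := by
      exact_mod_cast h1.trans (Nat.add_le_add_left h2 _)
    have c1 := hBc 1 (by decide)
    have c2 := hBc 2 (by decide)
    have c3 := hBc 3 (by decide)
    have h4 : d ^ 2 / 8 * ((s 0).card : ℝ) ≤ 1 / 8 * (s 0).card :=
      mul_le_mul_of_nonneg_right (by nlinarith) (Nat.cast_nonneg _)
    have h5 : (0 : ℝ) ≤ (s 0).card := Nat.cast_nonneg _
    linarith
  -- the neighbourhoods
  have hgood : ∀ x ∈ X, d ^ 6 / 1024 * ((s 1).card * (s 2).card * (s 3).card : ℝ) ≤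
      (((((s 1).filter (fun y => G.Adj x y)) ×ˢ ((s 2).filter (fun y => G.Adj x y)) ×ˢ
        ((s 3).filter (fun y => G.Adj x y))).filter (fun (p : V × V × V) =>
        G.Adj p.1 p.2.1 ∧ G.Adj p.1 p.2.2 ∧ G.Adj p.2.1 p.2.2)).card : ℝ) := by
    intro x hx
    refine cn_one G d hd hd1 s hu hs (fun j => (s j).filter (fun y => G.Adj x y))
      (fun j _ => filter_subset _ _) ?_
    intro j hj
    have hxj : x ∉ B j := by
      rw [hX, mem_sdiff, mem_union, mem_union] at hx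
      have hj' : j = 1 ∨ j = 2 ∨ j = 3 := by
        fin_cases j
        · exact absurd hj (by decide)
        · exact Or.inl rfl
        · exact Or.inr (Or.inl rfl)
        · exact Or.inr (Or.inr rfl)
      rcases hj' with rfl | rfl | rfl <;> tauto
    rw [hB, mem_filter] at hxj
    push Not at hxj
    have h1 := hxj (hXs hx)
    refine le_trans ?_ h1
    refine mul_le_mul_of_nonneg_right ?_ (Nat.cast_nonneg _)
    have h2 := hs 0 j hj
    nlinarith
  -- counting
  obtain ⟨Tx, hTx⟩ : ∃ Tx : V → Finset (V × V × V), ∀ x, Tx x =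
      (((s 1).filter (fun y => G.Adj x y)) ×ˢ ((s 2).filter (fun y => G.Adj x y)) ×ˢ
        ((s 3).filter (fun y => G.Adj x y))).filter (fun (p : V × V × V) =>
        G.Adj p.1 p.2.1 ∧ G.Adj p.1 p.2.2 ∧ G.Adj p.2.1 p.2.2) := ⟨_, fun _ => rfl⟩
  have hcard : (X.sigma Tx).card ≤
      ((Fintype.piFinset s).filter (fun v => ∀ i j, i < j → G.Adj (v i) (v j))).card := by
    refine card_le_card_of_injOn (fun p => ![p.1, p.2.1, p.2.2.1, p.2.2.2]) ?_ ?_
    · rintro ⟨x, a, b, c⟩ hp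
      rw [mem_coe, mem_sigma, hTx, mem_filter, mem_product, mem_product, mem_filter, mem_filter,
        mem_filter] at hp
      obtain ⟨hx, ⟨⟨ha1, ha2⟩, ⟨hb1, hb2⟩, hc1, hc2⟩, h1, h2, h3⟩ := hp
      rw [mem_coe, mem_filter, Fintype.mem_piFinset]
      constructor
      · intro i
        fin_cases i
        · exact hXs hx
        · exact ha1
        · exact hb1
        · exact hc1
      · intro i j hij
        fin_cases i <;> fin_cases j <;>
          first
          | exact absurd hij (by decide)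
          | exact ha2
          | exact hb2
          | exact hc2
          | exact h1
          | exact h2
          | exact h3
    · rintro ⟨x, a, b, c⟩ _ ⟨x', a', b', c'⟩ _ h
      have h0 := congrFun h 0
      have h1 := congrFun h 1
      have h2 := congrFun h 2
      have h3 := congrFun h 3
      simp at h0 h1 h2 h3
      rw [h0, h1, h2, h3]
  rw [card_sigma] at hcard
  have hsum : (X.card : ℝ) * (d ^ 6 / 1024 * ((s 1).card * (s 2).card * (s 3).card : ℝ)) ≤
      ((∑ x ∈ X, (Tx x).card : ℕ) : ℝ) := by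
    push_cast
    rw [← nsmul_eq_mul]
    refine card_nsmul_le_sum X _ _ fun x hx => ?_
    rw [hTx]
    exact hgood x hx
  have hfin : ((∑ x ∈ X, (Tx x).card : ℕ) : ℝ) ≤
      (((Fintype.piFinset s).filter (fun v => ∀ i j, i < j → G.Adj (v i) (v j))).card : ℝ) := by
    exact_mod_cast hcard
  refine le_trans ?_ (hsum.trans hfin)
  have h1 : (0 : ℝ) ≤ d ^ 6 / 1024 * ((s 1).card * (s 2).card * (s 3).card : ℝ) := by positivity
  calc d ^ 6 / 2048 * ((s 0).card * (s 1).card * (s 2).card * (s 3).card : ℝ)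
      = ((s 0).card : ℝ) / 2 * (d ^ 6 / 1024 * ((s 1).card * (s 2).card * (s 3).card : ℝ)) := by
        ring
    _ ≤ X.card * (d ^ 6 / 1024 * ((s 1).card * (s 2).card * (s 3).card : ℝ)) :=
        mul_le_mul_of_nonneg_right hXc h1

end Pool.Agent.H21.GH
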