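import Pool.Agent.H11.HM.Df

/-!
MP_8923e7_nt, project GH (half of the gaps).  Definitions.

The six pairs `i < j` of `{0, 1, 2, 3}` are numbered `e = 0, …, 5` by `pr e = (i, j)`:
`(0,1), (0,2), (0,3), (1,2), (1,3), (2,3)`.  `ind`, `cnt`, `cor` are those of `Pool.Agent.H11.HM.Df`.
-/

namespace Pool.Agent.H21.GH

open Finset Pool.Agent.H11.HM

/-- the six pairs -/
def pr : Fin 6 → Fin 4 × Fin 4 := ![(0, 1), (0, 2), (0, 3), (1, 2), (1, 3), (2, 3)]

/-- weighted number of the quadruples in `[0, N)^4` -/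
noncomputable def TT (N : ℕ) (f : Fin 6 → ℤ → ℝ) : ℝ :=
  ∑ a ∈ range N, ∑ b ∈ range N, ∑ c ∈ range N, ∑ d ∈ range N,
    f 0 ((b : ℤ) - a) * f 1 ((c : ℤ) - a) * f 2 ((d : ℤ) - a) * f 3 ((c : ℤ) - b) * f 4 ((d : ℤ) - b) *
      f 5 ((d : ℤ) - c)

open Classical in
/-- for all steps `s m`, `m ≤ K`, the progressions of length `P` starting at the points `x + s w`, `|w| < N`,
contain at least `ρ P` elements of `R`, with at most `κ N` exceptions `w` -/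
def POK (R : Set ℤ) (ρ κ : ℝ) (K P N s : ℕ) (x : ℤ) : Prop :=
  ∀ m : ℕ, 1 ≤ m → m ≤ K →
    (((Ioo (-(N : ℤ)) N).filter (fun w => (cnt R P ((s : ℤ) * m) (x + s * w) : ℝ) < ρ * P)).card : ℝ) ≤
      κ * N

open Classical in
/-- in arbitrarily long intervals the proportion of the `n` with `Q n ∈ R` is at least `r` -/
def Long (R : Set ℤ) (r : ℝ) (Q : ℕ) : Prop :=
  ∀ X0 : ℕ, ∃ X M : ℕ, X0 ≤ X ∧
    r * X ≤ (((Ioc M (M + X)).filter (fun n => ((Q * n : ℕ) : ℤ) ∈ R)).card : ℝ)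

end Pool.Agent.H21.GH
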