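import Pool.Agent.H21.GH.Top
import Pool.Agent.H21.GH.Df

/-!
[H21 GH COE]  A coefficient that does not vanish (Dyson's coefficient for four variables, by the combinatorial
Nullstellensatz).

`f0 = ∏_{i < j} (X_j - X_i)^(2k)` over `ZMod p`, `t = (3k, 3k, 3k, 3k)`, `4 k < p`.  Claim: `coeff t f0 ≠ 0`.

Proof.  `f = ∏_{i < j} ∏_{e < 2k} (X_j - X_i - (e + 1 - k))` (constants `-k+1, …, k`) has the same coefficient at `t` as `f0`
(`top_coeff`, `t.degree = 12 k` = number of factors; `∏_{e < 2k} (X_j - X_i) = (X_j - X_i)^(2k)`), and total degree `≤ 12 k`.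
Let `A` = image of `range (3k+1)` in `ZMod p` (`3k + 1` elements, as `3k < p`).
UNIQUE POINT (`uniq_point`): if `x_i ≤ 3k` are naturals such that for `i < j` the integer `x_j - x_i` is not in `[-k+1, k]`, i.e.
`x_j + k ≤ x_i` or `x_i + k + 1 ≤ x_j`, then `x = (3k, 2k, k, 0)` (`omega` after splitting the six alternatives).
Hence `f` vanishes at every point of `A^4` except `a = (3k, 2k, k, 0)`, where `f(a) ≠ 0`: the factors are
`x_j - x_i - d` with `|x_j - x_i - d| ≤ 4k < p`, so they vanish modulo `p` only if they vanish.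
Let `g = ∏_i ∏_{b ≤ 3k, b ≠ a_i} (X_i - C b)`: `12 k` factors, coefficient at `t` equal to `1` (`top_coeff`: it is that of
`∏_i X_i^(3k)`), `g(a) ≠ 0`, and `g` vanishes at the other points of `A^4`.  Put `λ = f(a)/g(a) ≠ 0`, `F = f - C λ * g`.
`F` vanishes on `A^4`.  If `coeff t f0 = 0` then `coeff t F = -λ ≠ 0`, `totalDegree F ≤ 12 k = t.degree`, so equal
(`MvPolynomial.le_totalDegree`), and `MvPolynomial.combinatorial_nullstellensatz_exists_eval_nonzero` gives a point of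
`A^4` with `F ≠ 0`: contradiction.  (`k = 0`: fine, `A = {0}`.)
-/

namespace Pool.Agent.H21.GH

open Finset MvPolynomial

theorem uniq_point (k x0 x1 x2 x3 : ℕ) (h0 : x0 ≤ 3 * k) (h1 : x1 ≤ 3 * k) (h2 : x2 ≤ 3 * k)
    (h3 : x3 ≤ 3 * k) (h01 : x1 + k ≤ x0 ∨ x0 + k + 1 ≤ x1) (h02 : x2 + k ≤ x0 ∨ x0 + k + 1 ≤ x2)
    (h03 : x3 + k ≤ x0 ∨ x0 + k + 1 ≤ x3) (h12 : x2 + k ≤ x1 ∨ x1 + k + 1 ≤ x2)
    (h13 : x3 + k ≤ x1 ∨ x1 + k + 1 ≤ x3) (h23 : x3 + k ≤ x2 ∨ x2 + k + 1 ≤ x3) :
    x0 = 3 * k ∧ x1 = 2 * k ∧ x2 = k ∧ x3 = 0 := by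
  omega

private def av (k : ℕ) : Fin 4 → ℕ := ![3 * k, 2 * k, k, 0]

private theorem av_le (k : ℕ) (i : Fin 4) : av k i ≤ 3 * k := by
  fin_cases i <;> simp [av] <;> omega

private theorem cast_ne {p : ℕ} {z : ℤ} (h0 : z ≠ 0) (h1 : |z| < p) : (z : ZMod p) ≠ 0 := by
  intro h
  exact h0 (Int.eq_zero_of_abs_lt_dvd ((ZMod.intCast_zmod_eq_zero_iff_dvd z p).1 h) h1)

private noncomputable def ff (p k : ℕ) : MvPolynomial (Fin 4) (ZMod p) :=
  ∏ x ∈ (univ : Finset (Fin 6)) ×ˢ range (2 * k),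
    ((X (pr x.1).2 - X (pr x.1).1) - C (((x.2 : ℤ) + 1 - k : ℤ) : ZMod p))

private noncomputable def gg (p k : ℕ) : MvPolynomial (Fin 4) (ZMod p) :=
  ∏ x ∈ (univ : Finset (Fin 4)).sigma (fun i => (range (3 * k + 1)).erase (av k i)),
    (X x.1 - C ((x.2 : ℤ) : ZMod p))

private noncomputable def tt (k : ℕ) : Fin 4 →₀ ℕ :=
  Finsupp.equivFunOnFinite.symm (fun _ : Fin 4 => 3 * k)

private theorem tt_degree (k : ℕ) : (tt k).degree = 12 * k := by
  rw [Finsupp.degree_eq_sum]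
  simp [tt]
  ring

private theorem hom_sub (p : ℕ) (i j : Fin 4) :
    ((X i : MvPolynomial (Fin 4) (ZMod p)) - X j).IsHomogeneous 1 :=
  (isHomogeneous_X _ i).sub (isHomogeneous_X _ j)

private theorem card_s (k : ℕ) : ((univ : Finset (Fin 6)) ×ˢ range (2 * k)).card = 12 * k := by
  rw [card_product, card_univ, Fintype.card_fin, card_range]
  ring

private theorem card_s' (k : ℕ) :
    ((univ : Finset (Fin 4)).sigma (fun i => (range (3 * k + 1)).erase (av k i))).card = 12 * k := by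
  rw [card_sigma]
  have : ∀ i ∈ (univ : Finset (Fin 4)), ((range (3 * k + 1)).erase (av k i)).card = 3 * k := by
    intro i _
    rw [card_erase_of_mem (mem_range.2 (Nat.lt_succ_of_le (av_le k i))), card_range]
    rfl
  rw [sum_congr rfl this, sum_const, card_univ, Fintype.card_fin]
  simp
  ring

private theorem ff_deg (p k : ℕ) : (ff p k).totalDegree ≤ 12 * k := by
  have := top_deg ((univ : Finset (Fin 6)) ×ˢ range (2 * k))
    (fun x => (X (pr x.1).2 : MvPolynomial (Fin 4) (ZMod p)) - X (pr x.1).1)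
    (fun x _ => hom_sub p _ _) (fun x => (((x.2 : ℤ) + 1 - k : ℤ) : ZMod p))
  rw [card_s] at this
  exact this

private theorem gg_deg (p k : ℕ) : (gg p k).totalDegree ≤ 12 * k := by
  have := top_deg ((univ : Finset (Fin 4)).sigma (fun i => (range (3 * k + 1)).erase (av k i)))
    (fun x => (X x.1 : MvPolynomial (Fin 4) (ZMod p)))
    (fun x _ => isHomogeneous_X _ _) (fun x => ((x.2 : ℤ) : ZMod p))
  rw [card_s'] at this
  exact this

private theorem ff_coeff (p k : ℕ) : coeff (tt k) (ff p k) = coeff (tt k)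
    (∏ e : Fin 6, ((X (pr e).2 : MvPolynomial (Fin 4) (ZMod p)) - X (pr e).1) ^ (2 * k)) := by
  have := top_coeff ((univ : Finset (Fin 6)) ×ˢ range (2 * k))
    (fun x => (X (pr x.1).2 : MvPolynomial (Fin 4) (ZMod p)) - X (pr x.1).1)
    (fun x _ => hom_sub p _ _) (fun x => (((x.2 : ℤ) + 1 - k : ℤ) : ZMod p)) (tt k)
    (by rw [tt_degree, card_s])
  unfold ff
  rw [this, prod_product]
  simp [prod_const]

private theorem gg_coeff (p k : ℕ) [Fact p.Prime] : coeff (tt k) (gg p k) = 1 := by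
  have := top_coeff ((univ : Finset (Fin 4)).sigma (fun i => (range (3 * k + 1)).erase (av k i)))
    (fun x => (X x.1 : MvPolynomial (Fin 4) (ZMod p)))
    (fun x _ => isHomogeneous_X _ _) (fun x => ((x.2 : ℤ) : ZMod p)) (tt k)
    (by rw [tt_degree, card_s'])
  unfold gg
  rw [this, prod_sigma]
  have h2 : ∀ i ∈ (univ : Finset (Fin 4)),
      (∏ b ∈ (range (3 * k + 1)).erase (av k i), (X i : MvPolynomial (Fin 4) (ZMod p))) =
        X i ^ (tt k i) := by
    intro i _
    rw [prod_const, card_erase_of_mem (mem_range.2 (Nat.lt_succ_of_le (av_le k i))), card_range]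
    rfl
  have h3 : (∏ i : Fin 4, (X i : MvPolynomial (Fin 4) (ZMod p)) ^ (tt k i)) =
      monomial (tt k) 1 := by
    rw [monomial_eq, C_1, one_mul, Finsupp.prod_fintype _ _ (fun i => pow_zero _)]
  have h4 : (∏ i : Fin 4, ∏ b ∈ (range (3 * k + 1)).erase (av k i),
      (X i : MvPolynomial (Fin 4) (ZMod p))) = monomial (tt k) 1 := by
    rw [prod_congr rfl h2, h3]
  change coeff (tt k) (∏ i : Fin 4, ∏ b ∈ (range (3 * k + 1)).erase (av k i),
      (X i : MvPolynomial (Fin 4) (ZMod p))) = 1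
  rw [h4, coeff_monomial, if_pos rfl]

private theorem eval_ff (p k : ℕ) (n : Fin 4 → ℕ) :
    eval (fun i => ((n i : ℤ) : ZMod p)) (ff p k) =
      ∏ x ∈ (univ : Finset (Fin 6)) ×ˢ range (2 * k),
        ((((n (pr x.1).2 : ℤ) - n (pr x.1).1 - (x.2 + 1 - k) : ℤ)) : ZMod p) := by
  unfold ff
  rw [map_prod]
  refine prod_congr rfl fun x _ => ?_
  rw [map_sub, map_sub, eval_X, eval_X, eval_C]
  push_cast
  ring

private theorem eval_gg (p k : ℕ) (n : Fin 4 → ℕ) :
    eval (fun i => ((n i : ℤ) : ZMod p)) (gg p k) =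
      ∏ x ∈ (univ : Finset (Fin 4)).sigma (fun i => (range (3 * k + 1)).erase (av k i)),
        ((((n x.1 : ℤ) - x.2 : ℤ)) : ZMod p) := by
  unfold gg
  rw [map_prod]
  refine prod_congr rfl fun x _ => ?_
  rw [map_sub, eval_X, eval_C]
  push_cast
  ring

private theorem pair_zero (k : ℕ) (n : Fin 4 → ℕ) (hn : ∀ i, n i ≤ 3 * k) (hne : n ≠ av k) :
    ∃ e : Fin 6, ¬ (n (pr e).2 + k ≤ n (pr e).1 ∨ n (pr e).1 + k + 1 ≤ n (pr e).2) := by
  by_contra hcon
  push Not at hcon
  apply hne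
  have h := uniq_point k (n 0) (n 1) (n 2) (n 3) (hn 0) (hn 1) (hn 2) (hn 3) (hcon 0) (hcon 1)
    (hcon 2) (hcon 3) (hcon 4) (hcon 5)
  funext i
  fin_cases i
  · exact h.1
  · exact h.2.1
  · exact h.2.2.1
  · exact h.2.2.2

theorem coeff_ne (p k : ℕ) [Fact p.Prime] (h : 4 * k < p) :
    coeff (Finsupp.equivFunOnFinite.symm (fun _ : Fin 4 => 3 * k))
      (∏ e : Fin 6, ((X (pr e).2 : MvPolynomial (Fin 4) (ZMod p)) - X (pr e).1) ^ (2 * k)) ≠ 0 := by
  intro hc
  have hff : coeff (tt k) (ff p k) = 0 := by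
    rw [ff_coeff]; exact hc
  have hfa : eval (fun i => ((av k i : ℤ) : ZMod p)) (ff p k) ≠ 0 := by
    rw [eval_ff, prod_ne_zero_iff]
    rintro ⟨e, d⟩ hx
    rw [mem_product, mem_range] at hx
    have hd : d < 2 * k := hx.2
    apply cast_ne
    · fin_cases e <;> simp [av, pr] <;> omega
    · rw [abs_lt]
      fin_cases e <;> simp [av, pr] <;> omega
  have hga : eval (fun i => ((av k i : ℤ) : ZMod p)) (gg p k) ≠ 0 := by
    rw [eval_gg, prod_ne_zero_iff]
    rintro ⟨i, b⟩ hx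
    rw [mem_sigma, mem_erase, mem_range] at hx
    obtain ⟨-, hb1, hb2⟩ := hx
    simp only at hb1 hb2
    have ha := av_le k i
    apply cast_ne
    · simp only
      omega
    · simp only
      rw [abs_lt]
      omega
  set lam : ZMod p := eval (fun i => ((av k i : ℤ) : ZMod p)) (ff p k) /
    eval (fun i => ((av k i : ℤ) : ZMod p)) (gg p k) with hlam
  have hl : lam ≠ 0 := div_ne_zero hfa hga
  set F : MvPolynomial (Fin 4) (ZMod p) := ff p k - C lam * gg p k with hF
  have hcF : F.coeff (tt k) ≠ 0 := by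
    rw [hF, coeff_sub, coeff_C_mul, gg_coeff, hff, mul_one, zero_sub]
    exact neg_ne_zero.2 hl
  have hdF : F.totalDegree = (tt k).degree := by
    apply le_antisymm
    · rw [tt_degree, hF]
      refine (totalDegree_sub _ _).trans (max_le (ff_deg p k) ?_)
      refine (totalDegree_mul _ _).trans ?_
      rw [totalDegree_C, zero_add]
      exact gg_deg p k
    · exact le_totalDegree (mem_support_iff.2 hcF)
  have hinj : Set.InjOn (fun a : ℕ => ((a : ℤ) : ZMod p)) (range (3 * k + 1) : Finset ℕ) := by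
    intro a ha b hb hab
    rw [mem_coe, mem_range] at ha hb
    by_contra hne
    have h1 : (((a : ℤ) - b : ℤ) : ZMod p) ≠ 0 := by
      apply cast_ne
      · omega
      · rw [abs_lt]; omega
    apply h1
    push_cast
    have h2 : ((a : ℤ) : ZMod p) = ((b : ℤ) : ZMod p) := hab
    push_cast at h2
    rw [h2, sub_self]
  obtain ⟨x, hx, hxF⟩ := combinatorial_nullstellensatz_exists_eval_nonzero F (tt k) hcF hdF
    (fun _ => (range (3 * k + 1)).image (fun a : ℕ => ((a : ℤ) : ZMod p))) (by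
      intro i
      rw [card_image_of_injOn hinj, card_range]
      exact Nat.lt_succ_self _)
  have hx2 : ∀ i, ∃ a : ℕ, a ≤ 3 * k ∧ x i = ((a : ℤ) : ZMod p) := by
    intro i
    obtain ⟨a, ha, ha2⟩ := mem_image.1 (hx i)
    exact ⟨a, Nat.lt_succ_iff.1 (mem_range.1 ha), ha2.symm⟩
  choose n hn hxn using hx2
  have hxe : x = fun i => ((n i : ℤ) : ZMod p) := funext hxn
  apply hxF
  rw [hxe, hF, map_sub, map_mul, eval_C]
  by_cases hna : n = av k
  · rw [hna, hlam, div_mul_cancel₀ _ hga, sub_self]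
  · have h1 : eval (fun i => ((n i : ℤ) : ZMod p)) (ff p k) = 0 := by
      rw [eval_ff]
      obtain ⟨e, he⟩ := pair_zero k n hn hna
      push Not at he
      obtain ⟨d, hd⟩ : ∃ d : ℕ, (d : ℤ) = (n (pr e).2 : ℤ) - n (pr e).1 - 1 + k :=
        ⟨((n (pr e).2 : ℤ) - n (pr e).1 - 1 + k).toNat, by omega⟩
      apply prod_eq_zero (i := (e, d))
      · rw [mem_product, mem_range]
        refine ⟨mem_univ _, ?_⟩
        simp only
        omega
      · simp only
        have : ((n (pr e).2 : ℤ) - n (pr e).1 - (d + 1 - k) : ℤ) = 0 := by omega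
        rw [this, Int.cast_zero]
    have h2 : eval (fun i => ((n i : ℤ) : ZMod p)) (gg p k) = 0 := by
      rw [eval_gg]
      obtain ⟨i, hi⟩ : ∃ i, n i ≠ av k i := by
        by_contra hcon
        push Not at hcon
        exact hna (funext hcon)
      apply prod_eq_zero (i := ⟨i, n i⟩)
      · rw [mem_sigma, mem_erase, mem_range]
        exact ⟨mem_univ _, hi, Nat.lt_succ_of_le (hn i)⟩
      · simp
    rw [h1, h2, mul_zero, sub_zero]

end Pool.Agent.H21.GH
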