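import Pool.Agent.H21.GH.Df

/-!
[H21 GH WW]  Choice of a position.

Proof.  `n0` ranges over `Ico (h + g N) (Λ - h - g N)`, which has at least `Λ/3` elements (`3 (2 (h + g N)) ≤ 2 Λ`).  Sum over `n0` and over
the `3 K` pairs `(m, θ)` of the number of the `w ∈ (-N, N)` with `bad m (n0 + θ h + g w)`: for fixed `m, θ, w` the map `n0 ↦ n0 + θ h + g w` is
injective into `Ico 0 Λ`, so the total is at most `3 K * 2 N * μ Λ`.  So for some `n0` the sum over `(m, θ)` is at most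
`6 K N μ Λ/(Λ/3) = 18 K μ N ≤ κ N`, and all terms are `≥ 0`.  (`Λ ≥ 1`.)
-/

namespace Pool.Agent.H21.GH

open Finset Pool.Agent.H11.HM

open Classical in
theorem position (bad : ℕ → ℤ → Prop) (K N g h Λ : ℕ) (μ κ : ℝ) (hΛ1 : 1 ≤ Λ) (hΛ : 3 * (h + g * N) ≤ Λ)
    (hb : ∀ m : ℕ, 1 ≤ m → m ≤ K → (((Ico 0 (Λ : ℤ)).filter (fun n => bad m n)).card : ℝ) ≤ μ * Λ)
    (hμ : 18 * K * μ ≤ κ) : ∃ n0 : ℤ, ((h + g * N : ℕ) : ℤ) ≤ n0 ∧ n0 + (h + g * N : ℕ) ≤ Λ ∧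
      ∀ m : ℕ, 1 ≤ m → m ≤ K → ∀ θ : ℤ, -1 ≤ θ → θ ≤ 1 →
        (((Ioo (-(N : ℤ)) N).filter (fun w => bad m (n0 + θ * h + g * w))).card : ℝ) ≤ κ * N := by
  have hΛ0 : (1 : ℝ) ≤ Λ := by exact_mod_cast hΛ1
  obtain ⟨L, hL⟩ : ∃ L, L = h + g * N := ⟨_, rfl⟩
  rw [← hL] at hΛ ⊢
  obtain ⟨I, hI⟩ : ∃ I, I = Ico (L : ℤ) (Λ - L) := ⟨_, rfl⟩
  have hIc : (Λ : ℝ) / 3 ≤ (I.card : ℝ) := by
    rw [hI, Int.card_Ico]
    have h1 : (((Λ : ℤ) - L - L).toNat : ℤ) = Λ - L - L := Int.toNat_of_nonneg (by omega)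
    have h2 : ((((Λ : ℤ) - L - L).toNat : ℕ) : ℝ) = Λ - L - L := by exact_mod_cast h1
    rw [h2]
    have h3 : (3 : ℝ) * L ≤ Λ := by exact_mod_cast hΛ
    linarith
  have hIne : I.Nonempty := by
    rw [← Finset.card_pos]
    have : (0 : ℝ) < I.card := by linarith
    exact_mod_cast this
  -- the total
  obtain ⟨S, hS⟩ : ∃ S : ℤ → ℝ, S = fun n0 => ∑ m ∈ Icc 1 K, ∑ θ ∈ Icc (-1 : ℤ) 1, ∑ w ∈ Ioo (-(N : ℤ)) N,
      (if bad m (n0 + θ * h + g * w) then (1 : ℝ) else 0) := ⟨_, rfl⟩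
  have hμ0 : 0 ≤ (K : ℝ) * μ := by
    rcases Nat.eq_zero_or_pos K with h0 | h0
    · rw [h0]; simp
    · have h1 := hb 1 le_rfl h0
      have h2 : (0 : ℝ) ≤ (((Ico 0 (Λ : ℤ)).filter (fun n => bad 1 n)).card : ℝ) := Nat.cast_nonneg _
      have h3 : 0 ≤ μ * Λ := h2.trans h1
      have h4 : 0 ≤ μ := by
        by_contra hc
        rw [not_le] at hc
        nlinarith
      positivity
  have hκ0 : 0 ≤ κ := by linarith
  have hN0 : (0 : ℝ) ≤ N := Nat.cast_nonneg _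
  have hinner : ∀ m ∈ Icc 1 K, ∀ θ ∈ Icc (-1 : ℤ) 1, ∀ w ∈ Ioo (-(N : ℤ)) N,
      ∑ n0 ∈ I, (if bad m (n0 + θ * h + g * w) then (1 : ℝ) else 0) ≤ μ * Λ := by
    intro m hm θ hθ w hw
    rw [Finset.mem_Icc] at hm hθ
    rw [Finset.mem_Ioo] at hw
    refine le_trans ?_ (hb m hm.1 hm.2)
    rw [Finset.sum_boole]
    have h1 : (I.filter (fun n0 => bad m (n0 + θ * h + g * w))).card ≤ ((Ico 0 (Λ : ℤ)).filter (fun n => bad m n)).card := by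
      refine Finset.card_le_card_of_injOn (fun n0 => n0 + θ * h + g * w) ?_ ?_
      · intro n0 hn0
        rw [Finset.mem_coe, Finset.mem_filter, hI, Finset.mem_Ico] at hn0
        rw [Finset.mem_coe, Finset.mem_filter, Finset.mem_Ico]
        have hLz : (L : ℤ) = h + g * N := by rw [hL]; push_cast; ring
        have a1 : -(h : ℤ) ≤ θ * h := by
          have : (0 : ℤ) ≤ h := Int.natCast_nonneg _
          nlinarith [hθ.1]
        have a2 : θ * h ≤ (h : ℤ) := by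
          have : (0 : ℤ) ≤ h := Int.natCast_nonneg _
          nlinarith [hθ.2]
        have a3 : -((g : ℤ) * N) ≤ g * w := by
          have : (0 : ℤ) ≤ g := Int.natCast_nonneg _
          nlinarith [hw.1]
        have a4 : (g : ℤ) * w ≤ g * N := by
          have : (0 : ℤ) ≤ g := Int.natCast_nonneg _
          nlinarith [hw.2]
        refine ⟨⟨by linarith [hn0.1.1], by linarith [hn0.1.2]⟩, hn0.2⟩
      · intro a _ b _ hab
        simp only at hab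
        linarith
    exact_mod_cast h1
  have htot : ∑ n0 ∈ I, S n0 ≤ 6 * K * N * μ * Λ := by
    have e1 : ∑ n0 ∈ I, S n0 = ∑ m ∈ Icc 1 K, ∑ θ ∈ Icc (-1 : ℤ) 1, ∑ w ∈ Ioo (-(N : ℤ)) N, ∑ n0 ∈ I,
        (if bad m (n0 + θ * h + g * w) then (1 : ℝ) else 0) := by
      rw [hS, Finset.sum_comm]
      refine Finset.sum_congr rfl fun m _ => ?_
      rw [Finset.sum_comm]
      refine Finset.sum_congr rfl fun θ _ => ?_
      rw [Finset.sum_comm]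
    rw [e1]
    calc ∑ m ∈ Icc 1 K, ∑ θ ∈ Icc (-1 : ℤ) 1, ∑ w ∈ Ioo (-(N : ℤ)) N, ∑ n0 ∈ I,
          (if bad m (n0 + θ * h + g * w) then (1 : ℝ) else 0)
        ≤ ∑ m ∈ Icc 1 K, ∑ θ ∈ Icc (-1 : ℤ) 1, ∑ w ∈ Ioo (-(N : ℤ)) N, μ * Λ :=
          Finset.sum_le_sum fun m hm => Finset.sum_le_sum fun θ hθ => Finset.sum_le_sum fun w hw => hinner m hm θ hθ w hw
      _ = K * (3 * (((2 * N - 1 : ℕ) : ℝ) * (μ * Λ))) := by
          rw [Finset.sum_const, Finset.sum_const, Finset.sum_const, Nat.card_Icc, Int.card_Icc, Int.card_Ioo,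
            nsmul_eq_mul, nsmul_eq_mul, nsmul_eq_mul]
          have c1 : K + 1 - 1 = K := by omega
          have c2 : ((1 : ℤ) + 1 - -1).toNat = 3 := by decide
          have c3 : ((N : ℤ) - -(N : ℤ) - 1).toNat = 2 * N - 1 := by omega
          rw [c1, c2, c3]
          norm_num
      _ ≤ K * (3 * ((2 * N) * (μ * Λ))) := by
          have c4 : (((2 * N - 1 : ℕ) : ℕ) : ℝ) ≤ 2 * N := by
            have : (2 * N - 1 : ℕ) ≤ 2 * N := by omega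
            exact_mod_cast this
          have c5 : 0 ≤ (K : ℝ) * μ * Λ := by positivity
          nlinarith
      _ = 6 * K * N * μ * Λ := by ring
  obtain ⟨n0, hn0, hle⟩ : ∃ n0 ∈ I, S n0 ≤ κ * N := by
    apply Finset.exists_le_of_sum_le hIne
    refine htot.trans ?_
    rw [Finset.sum_const, nsmul_eq_mul]
    have h1 : (Λ : ℝ) / 3 * (κ * N) ≤ I.card * (κ * N) := mul_le_mul_of_nonneg_right hIc (by positivity)
    refine le_trans ?_ h1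
    have h2 : 18 * (K * μ) * ((Λ : ℝ) / 3 * N) ≤ κ * ((Λ : ℝ) / 3 * N) :=
      mul_le_mul_of_nonneg_right (by linarith) (by positivity)
    calc 6 * K * N * μ * Λ = 18 * (K * μ) * ((Λ : ℝ) / 3 * N) := by ring
      _ ≤ κ * ((Λ : ℝ) / 3 * N) := h2
      _ = (Λ : ℝ) / 3 * (κ * N) := by ring
  rw [hI, Finset.mem_Ico] at hn0
  refine ⟨n0, hn0.1, by linarith [hn0.2], fun m h1 h2 θ h3 h4 => ?_⟩
  refine le_trans ?_ hle
  rw [hS]
  simp only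
  rw [← Finset.sum_boole]
  have hin : ∀ m' θ', (0 : ℝ) ≤ ∑ w ∈ Ioo (-(N : ℤ)) N, (if bad m' (n0 + θ' * h + g * w) then (1 : ℝ) else 0) := fun m' θ' =>
    Finset.sum_nonneg fun w _ => by split_ifs <;> norm_num
  have k1 : ∑ w ∈ Ioo (-(N : ℤ)) N, (if bad m (n0 + θ * h + g * w) then (1 : ℝ) else 0) ≤
      ∑ θ' ∈ Icc (-1 : ℤ) 1, ∑ w ∈ Ioo (-(N : ℤ)) N, (if bad m (n0 + θ' * h + g * w) then (1 : ℝ) else 0) :=
    Finset.single_le_sum (f := fun θ' => ∑ w ∈ Ioo (-(N : ℤ)) N, (if bad m (n0 + θ' * h + g * w) then (1 : ℝ) else 0))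
      (fun θ' _ => hin m θ') (Finset.mem_Icc.2 ⟨h3, h4⟩)
  have k2 : ∑ θ' ∈ Icc (-1 : ℤ) 1, ∑ w ∈ Ioo (-(N : ℤ)) N, (if bad m (n0 + θ' * h + g * w) then (1 : ℝ) else 0) ≤
      ∑ m' ∈ Icc 1 K, ∑ θ' ∈ Icc (-1 : ℤ) 1, ∑ w ∈ Ioo (-(N : ℤ)) N, (if bad m' (n0 + θ' * h + g * w) then (1 : ℝ) else 0) :=
    Finset.single_le_sum (f := fun m' => ∑ θ' ∈ Icc (-1 : ℤ) 1, ∑ w ∈ Ioo (-(N : ℤ)) N, (if bad m' (n0 + θ' * h + g * w) then (1 : ℝ) else 0))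
      (fun m' _ => Finset.sum_nonneg fun θ' _ => hin m' θ') (Finset.mem_Icc.2 ⟨h1, h2⟩)
  exact k1.trans k2

end Pool.Agent.H21.GH
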