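import Pool.Agent.H21.GH.Vv
import Pool.Agent.H21.GH.Ww

/-!
MP_8923e7_nt, project GH.  The common part of LV2 and LV1: if most subprogressions are rich, a position is found.
-/

namespace Pool.Agent.H21.GH

open Finset Pool.Agent.H11.HM

theorem good_case (R : Set ℤ) (B : ℤ) (d g h d' Λ Λ' K P N : ℕ) (β γ δ κ ρ : ℝ) (hd : 0 < d)
    (hK : 1 ≤ K) (hP : 1 ≤ P) (hγ : 0 < γ) (hδ : 0 < δ) (hβ : β ≤ 1) (hΛ' : 1 ≤ Λ') (hΛ1 : 1 ≤ Λ)
    (hdiv : ∀ m : ℕ, 1 ≤ m → m ≤ K → g * d * m ∣ d') (hd' : 0 < d') (hP2 : (d' : ℝ) * Λ' ≤ γ * P)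
    (hbad : (((range Λ).filter (fun n : ℕ => (cnt R Λ' d' (B + d * n) : ℝ) < β * Λ')).card : ℝ) ≤ δ * Λ)
    (hΛ2 : 2 * (g * K * P) ≤ Λ) (hΛ3 : 3 * (h + g * N) ≤ Λ - g * K * P) (hρ : ρ ≤ β - 2 * γ)
    (hμ : 18 * K * (2 * δ / γ) ≤ κ) :
    ∃ n0 : ℤ, ((h + g * N : ℕ) : ℤ) ≤ n0 ∧ ∀ θ : ℤ, -1 ≤ θ → θ ≤ 1 →
      POK R ρ κ K P N (g * d) (B + d * n0 + θ * (h * d : ℕ)) := by
  classical
  have hPR : (0 : ℝ) < P := by exact_mod_cast hP
  have h1 : ∀ m : ℕ, 1 ≤ m → m ≤ K → (((Ico 0 ((Λ - g * K * P : ℕ) : ℤ)).filter (fun n =>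
      (cnt R P (((g * d : ℕ) : ℤ) * m) (B + d * n) : ℝ) < ρ * P)).card : ℝ) ≤
      (2 * δ / γ) * ((Λ - g * K * P : ℕ) : ℝ) := by
    intro m hm hmK
    obtain ⟨r, hr⟩ := hdiv m hm hmK
    have hr1 : r ≤ d' := by
      apply Nat.le_of_dvd hd'
      exact ⟨g * d * m, by rw [hr]; ring⟩
    have hrR : (r : ℝ) * Λ' ≤ γ * P := by
      refine le_trans ?_ hP2
      exact mul_le_mul_of_nonneg_right (by exact_mod_cast hr1) (Nat.cast_nonneg _)
    have hcast : ((r : ℤ) * (((g * m : ℕ) : ℤ) * (d : ℤ))) = ((d' : ℕ) : ℤ) := by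
      rw [hr]
      push_cast
      ring
    have h2 := vv R B (d : ℤ) r (g * m) Λ Λ' P β γ δ hγ hδ hβ hΛ' hP hrR (by
      rw [hcast]
      exact hbad)
    have h3 : (((Ico 0 ((Λ - g * K * P : ℕ) : ℤ)).filter (fun n =>
        (cnt R P (((g * d : ℕ) : ℤ) * m) (B + d * n) : ℝ) < ρ * P)).card : ℝ) ≤
        (((range (Λ - g * m * P)).filter (fun n : ℕ =>
          (cnt R P (((g * m : ℕ) : ℤ) * (d : ℤ)) (B + d * n) : ℝ) < (β - 2 * γ) * P)).card : ℝ) := by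
      rw [Nat.cast_le]
      apply card_le_card_of_injOn (fun n => n.toNat)
      · intro n hn
        rw [mem_coe, mem_filter, mem_Ico] at hn
        rw [mem_coe, mem_filter, mem_range]
        obtain ⟨⟨hn0, hn1⟩, hn2⟩ := hn
        have e1 : ((n.toNat : ℕ) : ℤ) = n := Int.toNat_of_nonneg hn0
        have e2 : g * m * P ≤ g * K * P := by gcongr
        have e0 : n.toNat < Λ - g * m * P := by omega
        refine ⟨e0, ?_⟩
        show (cnt R P (((g * m : ℕ) : ℤ) * (d : ℤ)) (B + d * ((n.toNat : ℕ) : ℤ)) : ℝ) < (β - 2 * γ) * P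
        rw [e1]
        have e3 : (((g * m : ℕ) : ℤ) * (d : ℤ)) = ((g * d : ℕ) : ℤ) * m := by push_cast; ring
        rw [e3]
        refine lt_of_lt_of_le hn2 ?_
        exact mul_le_mul_of_nonneg_right hρ hPR.le
      · intro a ha b hb hab
        rw [mem_coe, mem_filter, mem_Ico] at ha hb
        have : a.toNat = b.toNat := hab
        omega
    refine h3.trans (h2.trans ?_)
    have h4 : (Λ : ℝ) ≤ 2 * ((Λ - g * K * P : ℕ) : ℝ) := by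
      have : Λ ≤ 2 * (Λ - g * K * P) := by omega
      exact_mod_cast this
    calc δ / γ * Λ ≤ δ / γ * (2 * ((Λ - g * K * P : ℕ) : ℝ)) :=
          mul_le_mul_of_nonneg_left h4 (by positivity)
      _ = _ := by ring
  obtain ⟨n0, hn1, _, hn3⟩ := position (fun m n => (cnt R P (((g * d : ℕ) : ℤ) * m) (B + d * n) : ℝ) < ρ * P)
    K N g h (Λ - g * K * P) (2 * δ / γ) κ (by omega) hΛ3 h1 hμ
  refine ⟨n0, hn1, fun θ hθ1 hθ2 m hm hmK => ?_⟩
  refine le_trans (le_of_eq ?_) (hn3 m hm hmK θ hθ1 hθ2)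
  congr 2
  ext w
  simp only [mem_filter]
  have e : B + (d : ℤ) * n0 + θ * ((h * d : ℕ) : ℤ) + ((g * d : ℕ) : ℤ) * w =
      B + d * (n0 + θ * h + g * w) := by
    push_cast
    ring
  rw [e]

end Pool.Agent.H21.GH
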