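import Pool.Agent.H21.LA.Cp
import Pool.Agent.H21.CP.Med

/-!
MP_8923e7_nt, project GH.  Four points: the hypothesis `K4P`.
-/

namespace Pool.Agent.H21.GH

open Finset Pool.Agent.H21.QT Pool.Agent.H21.CP Pool.Agent.H21.SH

open Classical in
/-- in every product of four sets with at most `n` elements all but `C n^(4-δ)` of the admissible quadruples
contain two elements whose difference has the property `E` -/
def K4P (E : ℕ → Prop) : Prop :=
  ∃ δ C : ℝ, 0 < δ ∧ 0 ≤ C ∧ ∀ (n : ℕ) (A : Fin 4 → Finset ℕ), 1 ≤ n → (∀ j, (A j).card ≤ n) →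
    (((Fintype.piFinset A).filter (fun a => AdT (fun j => (a j : ℤ)) ∧
      ∀ i j, a i < a j → ¬ E (a j - a i))).card : ℝ) ≤ C * (n : ℝ) ^ ((4 : ℝ) - δ)

theorem k4_gap : K4P GapE := by
  classical
  obtain ⟨δ, C, hδ, _, hC, h⟩ := cons_chen (13 / 50) Q2 Q2_prime 4 (by norm_num) (med 4 (by norm_num))
  refine ⟨δ, C, hδ, hC, fun n A hn hA => ?_⟩
  have h2 := h n (fun j => (A j).image (fun n : ℕ => (n : ℤ))) hn
    (fun j => card_image_le.trans (hA j))
  have e4 : ((4 : ℕ) : ℝ) = (4 : ℝ) := by norm_num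
  rw [e4] at h2
  refine le_trans ?_ h2
  rw [Nat.cast_le]
  apply card_le_card_of_injOn (fun (a : Fin 4 → ℕ) (j : Fin 4) => (a j : ℤ))
  · intro a ha
    rw [mem_coe, mem_filter, Fintype.mem_piFinset] at ha
    rw [mem_coe, mem_filter, Fintype.mem_piFinset]
    refine ⟨fun j => mem_image_of_mem _ (ha.1 j), ha.2.1, ?_⟩
    intro i j hij
    have hgap : GapP ((a i : ℕ) : ℤ) ((a j : ℕ) : ℤ) :=
      ⟨hij.1, hij.2.mono fun N hN => hN.1⟩
    have hlt : a i < a j := by exact_mod_cast hgap.1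
    exact ha.2.2 i j hlt (gapE_of_gapP _ _ hgap)
  · intro a _ b _ hab
    funext j
    have h3 := congrFun hab j
    simp only at h3
    exact_mod_cast h3

/-- quadruples in two classes modulo `3` of the multiples of an even number are admissible -/
theorem adT_two (Q : ℕ) (hQ2 : 2 ∣ Q) (n : Fin 4 → ℕ) (r : ℕ) (hr : ∀ j, ¬ 3 ∣ r + n j) :
    AdT (fun j => ((Q * n j : ℕ) : ℤ)) := by
  intro p hp
  rcases Nat.lt_or_ge p 5 with h5 | h5
  · have hp2 : p = 2 ∨ p = 3 := by
      have := hp.two_le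
      interval_cases p
      · exact Or.inl rfl
      · exact Or.inr rfl
      · exfalso; revert hp; norm_num
    rcases hp2 with rfl | rfl
    · refine ⟨1, fun j hj => ?_⟩
      have h1 : ((2 : ℕ) : ℤ) ∣ ((Q * n j : ℕ) : ℤ) := by
        exact_mod_cast Dvd.dvd.mul_right hQ2 _
      have h2 : ((2 : ℕ) : ℤ) ∣ 1 := (Int.dvd_add_left h1).1 hj
      norm_num at h2
    · by_cases h3 : 3 ∣ Q
      · refine ⟨1, fun j hj => ?_⟩
        have h1 : ((3 : ℕ) : ℤ) ∣ ((Q * n j : ℕ) : ℤ) := by
          exact_mod_cast Dvd.dvd.mul_right h3 _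
        have h2 : ((3 : ℕ) : ℤ) ∣ 1 := (Int.dvd_add_left h1).1 hj
        norm_num at h2
      · refine ⟨((Q * r : ℕ) : ℤ), fun j hj => ?_⟩
        have h1 : (3 : ℕ) ∣ Q * (r + n j) := by
          have : ((3 : ℕ) : ℤ) ∣ ((Q * (r + n j) : ℕ) : ℤ) := by
            have e : ((Q * (r + n j) : ℕ) : ℤ) = ((Q * r : ℕ) : ℤ) + ((Q * n j : ℕ) : ℤ) := by
              push_cast; ring
            rw [e]
            exact hj
          exact_mod_cast this
        rcases (Nat.Prime.dvd_mul (by norm_num)).1 h1 with h | h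
        · exact h3 h
        · exact hr j h
  · -- at least five residue classes, four elements
    haveI : NeZero p := ⟨hp.pos.ne'⟩
    obtain ⟨z, hz⟩ : ∃ z : ZMod p, z ∉ (univ : Finset (Fin 4)).image (fun j => ((Q * n j : ℕ) : ZMod p)) := by
      by_contra hno
      push Not at hno
      have h1 : (univ : Finset (ZMod p)) ⊆ (univ : Finset (Fin 4)).image (fun j => ((Q * n j : ℕ) : ZMod p)) :=
        fun z _ => hno z
      have h2 := card_le_card h1
      rw [card_univ, ZMod.card] at h2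
      have h3 := (card_image_le (s := (univ : Finset (Fin 4))) (f := fun j => ((Q * n j : ℕ) : ZMod p)))
      rw [card_univ, Fintype.card_fin] at h3
      omega
    refine ⟨-(z.val : ℤ), fun j hj => hz ?_⟩
    rw [mem_image]
    refine ⟨j, mem_univ j, ?_⟩
    have h1 : ((-(z.val : ℤ) + ((Q * n j : ℕ) : ℤ) : ℤ) : ZMod p) = 0 :=
      (ZMod.intCast_zmod_eq_zero_iff_dvd _ p).2 hj
    push_cast at h1
    rw [ZMod.natCast_val, ZMod.cast_id', id] at h1
    have h2 : (Q : ZMod p) * (n j : ZMod p) = z := by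
      linear_combination h1
    rw [Nat.cast_mul]
    exact h2

end Pool.Agent.H21.GH
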