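import Pool.Agent.H21.GH.Gc

/-!
[H21 GH LV2]  One scale.

Constants: `δ = κ γ/(36 K)` (and `≤ 1`: replace `κ` by `min κ 1`), `τ = δ γ/2 ≤ γ/2`, `J = ⌈(1 + 2τ - r)/τ⌉` (natural number; so `1 + τ - J τ ≤ r - τ` and, if `J ≥ 1`,
`1 + τ - J τ > r - 2τ ≥ r - γ`), `ρ = r - 4γ`.  We may assume `r ≤ 1 + τ`... (if `r > 1` then `Long` fails for `X0 ≥ 1`; `J ≥ 1` if `r ≤ 1`.)

INDUCTION.  `C(j)`: if `ρ + 3γ ≤ 1 + τ - jτ` (or `j = 0`) then for all `P0, N1` and `d > 0` there is `Λ ≥ 1` such that for all `B > 0` with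
`(1 + τ - jτ) Λ ≤ cnt R Λ d B` there are `s, P, N, x` with `d ∣ s ∣ d (K!)^j`, `P0 ≤ P` prime, `N1 P ≤ N`, `1 ≤ N`, `d ∣ x - B`, `s N < x` and `POK R ρ κ K P N s x`.
* `C(0)`: `Λ = 1`, `(1 + τ) ≤ cnt ≤ 1` is impossible.
* `C(j) ⇒ C(j+1)`: let `α = 1 - jτ = 1 + τ - (j+1)τ ≥ ρ + 3γ`, `d' = d K!`, `Λ'` from `C(j)` for `d'`; `P` prime `≥ max(P0, K! Λ'/γ)`
  (`Nat.exists_infinite_primes`), `N = max (N1 P) 1`, `Λ` with `K! Λ' ≤ τ Λ`, `Λ ≥ 2 K P`, `Λ - K P ≥ 3 N`.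
  Let `B` be given.  If at most `δ Λ` of the `n < Λ` have `cnt R Λ' d' (B + d n) < (α - γ) Λ'`: for `1 ≤ m ≤ K` apply `vv` with `g = m`, `r = K!/m`, `β = α - γ`
  (`K!/m * m = K!` as `m ∣ K!`): at most `(δ/γ) Λ ≤ 2 (δ/γ) (Λ - K P)` of the `n < Λ - mP` have `cnt R P (m d) (B + d n) < (α - 3γ) P`, in particular
  `< ρ P`.  `position` with `bad m n := cnt R P (m d) (B + d n) < ρ P`, `Λ := Λ - K P`, `h = 0`, `g = 1`, `μ = 2δ/γ` (`18 K μ = κ`) gives `n0 ≥ N`; `s = d`,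
  `x = B + d n0` (natural number), `θ = 0`.
  Otherwise `increment` (with `r = K!`) gives `n < Λ` with `cnt R Λ' d' (B + d n) ≥ (α + τ) Λ' = (1 + τ - jτ) Λ'`: apply `C(j)` to `B + d n`.
CONCLUSION.  `C(J)` for `d = Q` and `atom_exists` (`(r - τ) Λ ≤ cnt`, `1 + τ - Jτ ≤ r - τ`, `B > 0`, `Q ∣ B`).
-/

namespace Pool.Agent.H21.GH

open Finset Pool.Agent.H11.HM

open Classical in
theorem lev2_ind (R : Set ℤ) (γ κ δ τ ρ : ℝ) (K : ℕ) (hγ : 0 < γ) (hδ : 0 < δ) (hτ : 0 < τ)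
    (hτ1 : 2 * τ ≤ δ * γ) (hK : 1 ≤ K) (hμ : 18 * K * (2 * δ / γ) ≤ κ) (P0 : ℕ) (N1 : ℕ → ℕ) :
    ∀ j : ℕ, (j = 0 ∨ ρ + 3 * γ ≤ 1 + τ - j * τ) → ∀ d : ℕ, 0 < d → ∃ Λ : ℕ, 1 ≤ Λ ∧
      ∀ B : ℤ, 0 < B → (1 + τ - j * τ) * Λ ≤ (cnt R Λ d B : ℝ) →
        ∃ s P N x : ℕ, d ∣ s ∧ s ∣ d * K.factorial ^ j ∧ 0 < s ∧ P0 ≤ P ∧ P.Prime ∧ N1 P ≤ N ∧ 1 ≤ N ∧
          (d : ℤ) ∣ (x : ℤ) - B ∧ s * N < x ∧ POK R ρ κ K P N s x := by
  intro j
  induction j with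
  | zero =>
    intro _ d hd
    refine ⟨1, le_rfl, fun B hB hcnt => ?_⟩
    exfalso
    have h1 : cnt R 1 d B ≤ 1 := by
      unfold cnt
      refine (card_filter_le _ _).trans ?_
      rw [card_range]
    have h2 : (cnt R 1 d B : ℝ) ≤ 1 := by exact_mod_cast h1
    push_cast at hcnt
    linarith
  | succ j ih =>
    intro hj d hd
    have hj1 : ρ + 3 * γ ≤ 1 - j * τ := by
      rcases hj with h | h
      · exact absurd h (Nat.succ_ne_zero j)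
      · push_cast at h
        linarith
    obtain ⟨Λ', hΛ', hrec⟩ := ih (Or.inr (by linarith)) (d * K.factorial) (by positivity)
    have hKf : 0 < K.factorial := Nat.factorial_pos K
    obtain ⟨P, hPge, hPp⟩ := Nat.exists_infinite_primes (max P0 ⌈((d * K.factorial : ℕ) : ℝ) * Λ' / γ⌉₊)
    have hP0 : P0 ≤ P := (le_max_left _ _).trans hPge
    have hPc : ((d * K.factorial : ℕ) : ℝ) * Λ' ≤ γ * P := by
      have h1 : ((d * K.factorial : ℕ) : ℝ) * Λ' / γ ≤ P :=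
        (Nat.le_ceil _).trans (by exact_mod_cast (le_max_right _ _).trans hPge)
      rw [div_le_iff₀ hγ] at h1
      linarith
    obtain ⟨N, hN⟩ : ∃ N : ℕ, N = max (N1 P) 1 := ⟨_, rfl⟩
    have hN1 : N1 P ≤ N := by rw [hN]; exact le_max_left _ _
    have hN2 : 1 ≤ N := by rw [hN]; exact le_max_right _ _
    obtain ⟨Λ, hΛ⟩ : ∃ Λ : ℕ, Λ = ⌈(K.factorial : ℝ) * Λ' / τ⌉₊ + (3 * (K * P) + 3 * N) + 1 := ⟨_, rfl⟩
    have hΛτ : (K.factorial : ℝ) * Λ' ≤ τ * Λ := by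
      have h1 : (K.factorial : ℝ) * Λ' / τ ≤ Λ := by
        refine (Nat.le_ceil _).trans ?_
        rw [hΛ]
        push_cast
        have : (0 : ℝ) ≤ 3 * (K * P) + 3 * N := by positivity
        linarith
      rw [div_le_iff₀ hτ] at h1
      linarith
    refine ⟨Λ, by omega, fun B hB hcnt => ?_⟩
    obtain ⟨α, hα⟩ : ∃ α : ℝ, α = 1 - j * τ := ⟨_, rfl⟩
    have hcntα : α * Λ ≤ (cnt R Λ d B : ℝ) := by
      refine le_trans (le_of_eq ?_) hcnt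
      rw [hα]
      push_cast
      ring
    have hα1 : α ≤ 1 := by
      rw [hα]
      have : (0 : ℝ) ≤ j * τ := by positivity
      linarith
    have hcast : ((d * K.factorial : ℕ) : ℤ) = (K.factorial : ℤ) * (d : ℤ) := by push_cast; ring
    by_cases hbad : (((range Λ).filter (fun n : ℕ =>
        (cnt R Λ' ((d * K.factorial : ℕ) : ℤ) (B + d * n) : ℝ) < (α - γ) * Λ')).card : ℝ) ≤ δ * Λ
    · obtain ⟨n0, hn0, hpok⟩ := good_case R B d 1 0 (d * K.factorial) Λ Λ' K P N (α - γ) γ δ κ ρ hd hK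
        hPp.one_lt.le hγ hδ (by linarith) hΛ' (by omega)
        (by
          intro m hm hmK
          rw [one_mul]
          exact Nat.mul_dvd_mul_left d (Nat.dvd_factorial hm hmK))
        (by positivity) hPc hbad (by rw [one_mul]; omega) (by rw [one_mul, one_mul]; omega)
        (by rw [hα]; linarith) hμ
      have hn0' : (N : ℤ) ≤ n0 := by
        have : ((0 + 1 * N : ℕ) : ℤ) = N := by push_cast; ring
        rw [this] at hn0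
        exact hn0
      have hd1 : (1 : ℤ) ≤ d := by exact_mod_cast hd
      have hxpos : 0 ≤ B + (d : ℤ) * n0 := by nlinarith
      have hxc : (((B + (d : ℤ) * n0).toNat : ℕ) : ℤ) = B + d * n0 := Int.toNat_of_nonneg hxpos
      refine ⟨d, P, N, (B + (d : ℤ) * n0).toNat, dvd_rfl, Dvd.intro _ rfl, hd, hP0, hPp, hN1, hN2, ?_, ?_, ?_⟩
      · rw [hxc]
        exact ⟨n0, by ring⟩
      · have h5 : ((d * N : ℕ) : ℤ) < B + d * n0 := by
          push_cast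
          nlinarith
        rw [← hxc] at h5
        exact_mod_cast h5
      · rw [hxc]
        have h6 := hpok 0 (by norm_num) (by norm_num)
        simpa using h6
    · push Not at hbad
      obtain ⟨n, hn, hinc⟩ := increment R B d K.factorial Λ Λ' α γ δ τ hγ hδ hτ hτ1 (by omega) hΛ' hΛτ hcntα
        (by
          rw [← hcast]
          exact hbad)
      rw [← hcast] at hinc
      obtain ⟨s, P', N', x, h1, h2, h3, h4, h5, h6, h7, h8, h9, h10⟩ := hrec (B + d * n) (by positivity) (by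
        refine le_trans (le_of_eq ?_) hinc
        rw [hα]
        ring)
      refine ⟨s, P', N', x, (Dvd.intro _ rfl).trans h1, ?_, h3, h4, h5, h6, h7, ?_, h9, h10⟩
      · rw [pow_succ]
        have e : d * (K.factorial ^ j * K.factorial) = d * K.factorial * K.factorial ^ j := by ring
        rw [e]
        exact h2
      · have h11 : (d : ℤ) ∣ (x : ℤ) - (B + d * n) := by
          refine dvd_trans ?_ h8
          rw [hcast]
          exact Dvd.intro_left _ rfl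
        have h12 : (x : ℤ) - B = ((x : ℤ) - (B + d * n)) + d * n := by ring
        rw [h12]
        exact dvd_add h11 (Dvd.intro _ rfl)

/-- the constants -/
theorem lev_const (r γ κ : ℝ) (K : ℕ) (hγ : 0 < γ) (hκ : 0 < κ) (hK : 1 ≤ K) :
    ∃ (δ τ : ℝ) (J : ℕ), 0 < δ ∧ 0 < τ ∧ 2 * τ ≤ δ * γ ∧ 18 * K * (2 * δ / γ) ≤ κ ∧
      (J = 0 ∨ (r - 4 * γ) + 3 * γ ≤ 1 + τ - J * τ) ∧ 1 + τ - J * τ ≤ r - τ := by
  have hKR : (1 : ℝ) ≤ K := by exact_mod_cast hK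
  obtain ⟨δ, hδ⟩ : ∃ δ : ℝ, δ = min 1 (κ * γ / (36 * K)) := ⟨_, rfl⟩
  have hδ0 : 0 < δ := by rw [hδ]; exact lt_min one_pos (by positivity)
  have hδ1 : δ ≤ 1 := by rw [hδ]; exact min_le_left _ _
  have hδ2 : δ ≤ κ * γ / (36 * K) := by rw [hδ]; exact min_le_right _ _
  obtain ⟨τ, hτ⟩ : ∃ τ : ℝ, τ = δ * γ / 2 := ⟨_, rfl⟩
  have hτ0 : 0 < τ := by rw [hτ]; positivity
  refine ⟨δ, τ, ⌈(1 + 2 * τ - r) / τ⌉₊, hδ0, hτ0, by rw [hτ]; linarith, ?_, ?_, ?_⟩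
  · rw [le_div_iff₀ (by positivity)] at hδ2
    rw [mul_div_assoc', div_le_iff₀ hγ]
    linarith
  · rcases Nat.eq_zero_or_pos ⌈(1 + 2 * τ - r) / τ⌉₊ with h | h
    · exact Or.inl h
    · right
      have h0 : 0 < (1 + 2 * τ - r) / τ := Nat.ceil_pos.1 h
      have h1 := Nat.ceil_lt_add_one h0.le
      have h2 : (⌈(1 + 2 * τ - r) / τ⌉₊ : ℝ) * τ < 1 + 2 * τ - r + τ := by
        calc (⌈(1 + 2 * τ - r) / τ⌉₊ : ℝ) * τ < ((1 + 2 * τ - r) / τ + 1) * τ :=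
              mul_lt_mul_of_pos_right h1 hτ0
          _ = _ := by field_simp
      have h3 : 2 * τ ≤ γ := by
        rw [hτ]
        nlinarith
      linarith
  · have h1 := Nat.le_ceil ((1 + 2 * τ - r) / τ)
    rw [div_le_iff₀ hτ0] at h1
    linarith

theorem lev2 (R : Set ℤ) (r γ κ : ℝ) (K : ℕ) (hγ : 0 < γ) (hκ : 0 < κ) (hK : 1 ≤ K) : ∃ J : ℕ,
    ∀ Q : ℕ, 0 < Q → Long R r Q → ∀ (P0 : ℕ) (N1 : ℕ → ℕ), ∃ s P N x : ℕ, Q ∣ s ∧
      s ∣ Q * K.factorial ^ J ∧ 0 < s ∧ P0 ≤ P ∧ P.Prime ∧ N1 P ≤ N ∧ 1 ≤ N ∧ Q ∣ x ∧ s * N < x ∧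
      POK R (r - 4 * γ) κ K P N s x := by
  obtain ⟨δ, τ, J, hδ, hτ, hτ1, hμ, hJ, hJ2⟩ := lev_const r γ κ K hγ hκ hK
  refine ⟨J, fun Q hQ hL P0 N1 => ?_⟩
  obtain ⟨Λ, hΛ, h⟩ := lev2_ind R γ κ δ τ (r - 4 * γ) K hγ hδ hτ hτ1 hK hμ P0 N1 J hJ Q hQ
  obtain ⟨B, hB, hQB, hcnt⟩ := atom_exists R r τ hτ Q hQ hL Λ hΛ
  obtain ⟨s, P, N, x, h1, h2, h3, h4, h5, h6, h7, h8, h9, h10⟩ := h B hB (by
    refine le_trans ?_ hcnt
    exact mul_le_mul_of_nonneg_right hJ2 (Nat.cast_nonneg _))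
  refine ⟨s, P, N, x, h1, h2, h3, h4, h5, h6, h7, ?_, h9, h10⟩
  have h11 : (Q : ℤ) ∣ (x : ℤ) := by
    have h12 : (x : ℤ) = ((x : ℤ) - B) + B := by ring
    rw [h12]
    exact dvd_add h8 hQB
  exact_mod_cast h11

end Pool.Agent.H21.GH
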