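import Pool.Agent.H21.GH.Cnt

/-!
[H21 GH REM]  The removal lemma for `K_4` (from Mathlib's regularity lemma; compare
`Mathlib/Combinatorics/SimpleGraph/Triangle/Removal.lean`).

Proof.  `d = η/16` (`η ≤ 1`), `ε = d^2/8`, `l = ⌈8/η⌉`, `b = SzemerediRegularity.bound ε l`.  `n0 = l`, `c = d^6/2048 / (2 b)^4`.
`szemeredi_regularity` gives an equipartition `P` with `l ≤ |parts| ≤ b`, `ε`-uniform.  `G' = G.regularityReduced P ε d`.
* Every edge of `G` not in `G'` joins two elements of one part, or of a non-uniform pair, or of a pair of density `< d`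
  (as in `SimpleGraph.unreduced_edges_subset`): at most
  `(η/2)/2 n^2` (`IsEquipartition.card_biUnion_offDiag_le` with `η/2`, `4/(η/2) ≤ l`) `+ 4 ε n^2` (`IsEquipartition.sum_nonUniforms_lt`)
  `+ 4 d n^2` (`IsEquipartition.card_interedges_sparsePairs_le`) `≤ (η/4 + η/32 + η/4) n^2 ≤ η n^2` ordered pairs.
* If `G'` contains `v 0, …, v 3` pairwise adjacent, they lie in four different parts `s i`, pairwise `ε`-uniform with density
  `≥ d` (the part containing `v i` is unique), each with at least `n/(2b)` elements (private `card_bound` in Mathlib: copy it), so `k4_counting`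
  gives `≥ c n^4` quadruples: contradiction.
-/

namespace Pool.Agent.H21.GH

open Finset

private lemma rem_aux {n k : ℕ} (hk : 0 < k) (hn : k ≤ n) : n < 2 * k * (n / k) := by
  rw [mul_assoc, two_mul, ← add_lt_add_iff_right (n % k), add_right_comm, add_assoc,
    Nat.mod_add_div n k, add_comm, add_lt_add_iff_right]
  apply (Nat.mod_lt n hk).trans_le
  simpa using Nat.mul_le_mul_left k ((Nat.one_le_div_iff hk).2 hn)

private lemma rem_card {V : Type} [Fintype V] [DecidableEq V] {P : Finpartition (univ : Finset V)}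
    {s : Finset V} {b : ℕ} (hP₁ : P.IsEquipartition) (hP₃ : P.parts.card ≤ b)
    (hX : s ∈ P.parts) : (Fintype.card V : ℝ) / (2 * b : ℝ) ≤ s.card := by
  cases isEmpty_or_nonempty V
  · simp [Fintype.card_eq_zero]
  have hpos := Finset.Nonempty.card_pos ⟨_, hX⟩
  have hn : P.parts.card ≤ Fintype.card V := P.card_parts_le_card
  have hb : (P.parts.card : ℝ) ≤ b := by exact_mod_cast hP₃
  have hp : (0 : ℝ) < P.parts.card := by exact_mod_cast hpos
  calc (Fintype.card V : ℝ) / (2 * b : ℝ) ≤ Fintype.card V / (2 * P.parts.card : ℝ) := by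
        apply div_le_div_of_nonneg_left (Nat.cast_nonneg _) (by positivity)
        linarith
    _ ≤ ((Fintype.card V / P.parts.card : ℕ) : ℝ) := by
        rw [div_le_iff₀' (by positivity)]
        exact_mod_cast (rem_aux hpos hn).le
    _ ≤ (s.card : ℝ) := by
        exact_mod_cast hP₁.average_le_card_part hX

private lemma rem_sub {V : Type} [Fintype V] [DecidableEq V] {G : SimpleGraph V}
    [DecidableRel G.Adj] {P : Finpartition (univ : Finset V)} {ε d : ℝ} (p : V × V)
    (h1 : G.Adj p.1 p.2) (h2 : ¬ (G.regularityReduced P ε d).Adj p.1 p.2) :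
    p ∈ ((P.nonUniforms G ε).biUnion (fun (U, V) => U ×ˢ V) ∪ P.parts.biUnion offDiag ∪
        (P.sparsePairs G d).biUnion fun (U, V) => G.interedges U V) := by
  obtain ⟨x, y⟩ := p
  revert h1 h2
  simp only [SimpleGraph.regularityReduced_adj, not_and, not_exists,
    not_le, mem_biUnion, mem_union, mem_product, Prod.exists, mem_offDiag,
    or_assoc, and_assoc, P.mk_mem_nonUniforms, Finpartition.mk_mem_sparsePairs,
    SimpleGraph.mem_interedges_iff]
  intro h h'
  replace h' := h' h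
  obtain ⟨U, hU, hx⟩ := P.exists_mem (mem_univ x)
  obtain ⟨V, hV, hy⟩ := P.exists_mem (mem_univ y)
  obtain rfl | hUV := eq_or_ne U V
  · exact Or.inr (Or.inl ⟨U, hU, hx, hy, G.ne_of_adj h⟩)
  by_cases h₂ : G.IsUniform ε U V
  · exact Or.inr <| Or.inr ⟨U, V, hU, hV, hUV, h' _ hU _ hV hx hy hUV h₂, hx, hy, h⟩
  · exact Or.inl ⟨U, V, hU, hV, hUV, h₂, hx, hy⟩

open Classical in
theorem k4_removal (η : ℝ) (hη : 0 < η) (hη1 : η ≤ 1) : ∃ (c : ℝ) (n0 : ℕ), 0 < c ∧
    ∀ (V : Type) [Fintype V] (G : SimpleGraph V), n0 ≤ Fintype.card V →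
      (((univ : Finset (Fin 4 → V)).filter (fun v => ∀ i j, i < j → G.Adj (v i) (v j))).card : ℝ) <
        c * (Fintype.card V : ℝ) ^ 4 →
      ∃ G' : SimpleGraph V, G' ≤ G ∧ (∀ v : Fin 4 → V, ∃ i j, i < j ∧ ¬ G'.Adj (v i) (v j)) ∧
        (((univ : Finset (V × V)).filter (fun p => G.Adj p.1 p.2 ∧ ¬ G'.Adj p.1 p.2)).card : ℝ) ≤
          η * (Fintype.card V : ℝ) ^ 2 := by
  obtain ⟨d, hd⟩ : ∃ d : ℝ, d = η / 16 := ⟨_, rfl⟩
  obtain ⟨ε, hε⟩ : ∃ ε : ℝ, ε = d ^ 2 / 8 := ⟨_, rfl⟩
  obtain ⟨l, hl⟩ : ∃ l : ℕ, l = ⌈8 / η⌉₊ := ⟨_, rfl⟩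
  obtain ⟨b, hb⟩ : ∃ b : ℕ, b = SzemerediRegularity.bound ε l := ⟨_, rfl⟩
  have hd0 : 0 < d := by rw [hd]; positivity
  have hd1 : d ≤ 1 := by rw [hd]; linarith
  have hε0 : 0 < ε := by rw [hε]; positivity
  have hb0 : 0 < b := by rw [hb]; exact SzemerediRegularity.bound_pos _ _
  have hb0' : (0 : ℝ) < b := by exact_mod_cast hb0
  have hl1 : 8 / η ≤ l := by rw [hl]; exact Nat.le_ceil _
  have hl0 : 0 < l := by
    have h1 : (0 : ℝ) < l := lt_of_lt_of_le (by positivity) hl1
    exact_mod_cast h1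
  refine ⟨d ^ 6 / 2048 / (2 * b) ^ 4, l, by positivity, ?_⟩
  intro V _ G hn hcount
  obtain ⟨P, hP1, hP2, hP3, hP4⟩ := szemeredi_regularity G hε0 hn
  rw [← hb] at hP3
  have hV : Nonempty V := Fintype.card_pos_iff.1 (lt_of_lt_of_le hl0 hn)
  have hparts : 4 / (η / 2) ≤ (P.parts.card : ℝ) := by
    have h1 : (l : ℝ) ≤ P.parts.card := by exact_mod_cast hP2
    have h2 : 4 / (η / 2) = 8 / η := by
      field_simp
      norm_num
    rw [h2]
    exact hl1.trans h1
  refine ⟨G.regularityReduced P ε d, SimpleGraph.regularityReduced_le, ?_, ?_⟩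
  · intro v
    by_contra hcon
    push Not at hcon
    have hpart : ∀ i, ∃ s ∈ P.parts, v i ∈ s := fun i => P.exists_mem (mem_univ (v i))
    choose s hs hvs using hpart
    have hkey : ∀ i j, i < j → G.IsUniform ε (s i) (s j) ∧ d ≤ G.edgeDensity (s i) (s j) := by
      intro i j hij
      obtain ⟨-, U, hU, W, hW, hvU, hvW, -, hu, hdd⟩ := hcon i j hij
      have e1 : U = s i := P.disjoint.elim hU (hs i) (not_disjoint_iff.2 ⟨v i, hvU, hvs i⟩)
      have e2 : W = s j := P.disjoint.elim hW (hs j) (not_disjoint_iff.2 ⟨v j, hvW, hvs j⟩)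
      rw [e1, e2] at hu hdd
      exact ⟨hu, hdd⟩
    have hk4 := k4_counting G d hd0 hd1 s (fun i j hij => by
      rw [← hε]; exact (hkey i j hij).1) (fun i j hij => (hkey i j hij).2)
    have hcard : ∀ i, (Fintype.card V : ℝ) / (2 * b) ≤ (s i).card := fun i =>
      rem_card hP1 hP3 (hs i)
    have hN : (0 : ℝ) ≤ (Fintype.card V : ℝ) / (2 * b) := by positivity
    have hprod : ((Fintype.card V : ℝ) / (2 * b)) ^ 4 ≤
        ((s 0).card * (s 1).card * (s 2).card * (s 3).card : ℝ) := by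
      have h4 : ((Fintype.card V : ℝ) / (2 * b)) ^ 4 = (Fintype.card V : ℝ) / (2 * b) *
          ((Fintype.card V : ℝ) / (2 * b)) * ((Fintype.card V : ℝ) / (2 * b)) *
          ((Fintype.card V : ℝ) / (2 * b)) := by ring
      rw [h4]
      gcongr <;> exact hcard _
    have hle : (((Fintype.piFinset s).filter
        (fun v => ∀ i j, i < j → G.Adj (v i) (v j))).card : ℝ) ≤
        (((univ : Finset (Fin 4 → V)).filter (fun v => ∀ i j, i < j → G.Adj (v i) (v j))).card : ℝ) := by
      have : (Fintype.piFinset s).filter (fun v => ∀ i j, i < j → G.Adj (v i) (v j)) ⊆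
          (univ : Finset (Fin 4 → V)).filter (fun v => ∀ i j, i < j → G.Adj (v i) (v j)) :=
        filter_subset_filter _ (subset_univ _)
      exact_mod_cast card_le_card this
    have hfin : d ^ 6 / 2048 / (2 * b) ^ 4 * (Fintype.card V : ℝ) ^ 4 ≤
        d ^ 6 / 2048 * ((s 0).card * (s 1).card * (s 2).card * (s 3).card : ℝ) := by
      calc d ^ 6 / 2048 / (2 * b) ^ 4 * (Fintype.card V : ℝ) ^ 4
          = d ^ 6 / 2048 * ((Fintype.card V : ℝ) / (2 * b)) ^ 4 := by
            rw [div_pow]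
            ring
        _ ≤ _ := mul_le_mul_of_nonneg_left hprod (by positivity)
    linarith
  · have hsub : (univ : Finset (V × V)).filter
        (fun p => G.Adj p.1 p.2 ∧ ¬ (G.regularityReduced P ε d).Adj p.1 p.2) ⊆
        ((P.nonUniforms G ε).biUnion (fun (U, V) => U ×ˢ V) ∪ P.parts.biUnion offDiag ∪
        (P.sparsePairs G d).biUnion fun (U, V) => G.interedges U V) := by
      intro p hp
      rw [mem_filter] at hp
      exact rem_sub p hp.2.1 hp.2.2
    have h1 := hP1.sum_nonUniforms_lt univ_nonempty hε0 hP4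
    have h2 := hP1.card_biUnion_offDiag_le (𝕜 := ℝ) (ε := η / 2) (by positivity) hparts
    have h3 := hP1.card_interedges_sparsePairs_le (G := G) (ε := d) hd0.le
    rw [card_univ] at h1 h2 h3
    have h4 : (((univ : Finset (V × V)).filter
        (fun p => G.Adj p.1 p.2 ∧ ¬ (G.regularityReduced P ε d).Adj p.1 p.2)).card : ℝ) ≤
        (((P.nonUniforms G ε).biUnion (fun (U, V) => U ×ˢ V)).card : ℝ) +
        ((P.parts.biUnion offDiag).card : ℝ) +
        (((P.sparsePairs G d).biUnion fun (U, V) => G.interedges U V).card : ℝ) := by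
      have h5 := (card_le_card hsub).trans (card_union_le _ _)
      have h6 := card_union_le ((P.nonUniforms G ε).biUnion (fun (U, V) => U ×ˢ V))
        (P.parts.biUnion offDiag)
      have h7 := h5.trans (Nat.add_le_add_right h6 _)
      exact_mod_cast h7
    refine le_trans (le_of_eq ?_) (h4.trans ?_)
    · congr!
    have hn2 : (0 : ℝ) ≤ (Fintype.card V : ℝ) ^ 2 := by positivity
    have hd2 : d ^ 2 / 2 ≤ η / 4 := by
      rw [hd]
      nlinarith
    have h8 : 4 * ε * (Fintype.card V : ℝ) ^ 2 + η / 2 / 2 * (Fintype.card V : ℝ) ^ 2 +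
        4 * d * (Fintype.card V : ℝ) ^ 2 ≤ η * (Fintype.card V : ℝ) ^ 2 := by
      have h9 : 4 * ε + η / 2 / 2 + 4 * d ≤ η := by
        rw [hε]
        have : 4 * d = η / 4 := by rw [hd]; ring
        linarith
      nlinarith
    linarith

end Pool.Agent.H21.GH
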