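import Mathlib

/-!
[H21 GH RES]  Large subsets of a uniform pair form a uniform pair.

Proof.  `s' ⊆ A` with `|A| ε₂ ≤ |s'|`: `|s| ε ≤ |s| α ε₂ ≤ |A| ε₂ ≤ |s'|` (`ε ≤ α ε₂`), the same for `t'`; so the densities of `(s', t')` and of `(A, B)`
(`|s| ε ≤ |s| α ≤ |A|` as `ε ≤ α`) are both within `ε` of that of `(s, t)`, hence within `2 ε ≤ ε₂` of each other.
-/

namespace Pool.Agent.H21.GH

open Finset

theorem unif_res {V : Type*} (G : SimpleGraph V) [DecidableRel G.Adj] (ε ε₂ α : ℝ) (s t A B : Finset V)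
    (h : G.IsUniform ε s t) (hα : 0 < α) (hε₂ : 0 < ε₂) (h1 : ε ≤ α * ε₂) (h2 : 2 * ε ≤ ε₂) (h3 : ε ≤ α)
    (hA : A ⊆ s) (hB : B ⊆ t) (hAc : α * s.card ≤ A.card) (hBc : α * t.card ≤ B.card) :
    G.IsUniform ε₂ A B ∧ (G.edgeDensity s t : ℝ) - ε ≤ G.edgeDensity A B := by
  have hs0 : (0 : ℝ) ≤ s.card := Nat.cast_nonneg _
  have ht0 : (0 : ℝ) ≤ t.card := Nat.cast_nonneg _
  have hAB : |(G.edgeDensity A B : ℝ) - (G.edgeDensity s t : ℝ)| < ε := by
    refine h hA hB ?_ ?_
    · calc (s.card : ℝ) * ε ≤ s.card * α := mul_le_mul_of_nonneg_left h3 hs0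
        _ = α * s.card := mul_comm _ _
        _ ≤ A.card := hAc
    · calc (t.card : ℝ) * ε ≤ t.card * α := mul_le_mul_of_nonneg_left h3 ht0
        _ = α * t.card := mul_comm _ _
        _ ≤ B.card := hBc
  refine ⟨?_, by linarith [(abs_lt.1 hAB).1]⟩
  intro s' hs' t' ht' hsc htc
  have h4 : |(G.edgeDensity s' t' : ℝ) - (G.edgeDensity s t : ℝ)| < ε := by
    refine h (hs'.trans hA) (ht'.trans hB) ?_ ?_
    · calc (s.card : ℝ) * ε ≤ s.card * (α * ε₂) := mul_le_mul_of_nonneg_left h1 hs0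
        _ = (α * s.card) * ε₂ := by ring
        _ ≤ A.card * ε₂ := mul_le_mul_of_nonneg_right hAc hε₂.le
        _ ≤ s'.card := hsc
    · calc (t.card : ℝ) * ε ≤ t.card * (α * ε₂) := mul_le_mul_of_nonneg_left h1 ht0
        _ = (α * t.card) * ε₂ := by ring
        _ ≤ B.card * ε₂ := mul_le_mul_of_nonneg_right hBc hε₂.le
        _ ≤ t'.card := htc
  rw [abs_lt] at h4 hAB ⊢
  constructor
  · linarith [h4.1, hAB.2]
  · linarith [h4.2, hAB.1]

/-- few vertices have a small degree -/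
theorem few_bad {V : Type*} (G : SimpleGraph V) [DecidableRel G.Adj] (ε : ℝ) (hε1 : ε ≤ 1)
    (s t : Finset V) (h : G.IsUniform ε s t) [DecidablePred fun x =>
      (((t.filter (fun y => G.Adj x y)).card : ℕ) : ℝ) < (G.edgeDensity s t - ε) * t.card] :
    ((s.filter (fun x => (((t.filter (fun y => G.Adj x y)).card : ℕ) : ℝ) <
      (G.edgeDensity s t - ε) * t.card)).card : ℝ) ≤ ε * s.card := by
  have ht0 : (0 : ℝ) ≤ t.card := Nat.cast_nonneg _
  have hs0 : (0 : ℝ) ≤ s.card := Nat.cast_nonneg _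
  have hε : 0 < ε := by
    have h0 := h (Finset.Subset.refl s) (Finset.Subset.refl t)
      (by nlinarith) (by nlinarith)
    rw [sub_self, abs_zero] at h0
    exact h0
  obtain ⟨S, hS⟩ : ∃ S, S = s.filter (fun x => (((t.filter (fun y => G.Adj x y)).card : ℕ) : ℝ) <
      (G.edgeDensity s t - ε) * t.card) := ⟨_, rfl⟩
  rw [← hS]
  by_contra hc
  rw [not_le] at hc
  have hSs : S ⊆ s := by rw [hS]; exact Finset.filter_subset _ _
  have h1 := h hSs (Finset.Subset.refl t) (by rw [mul_comm]; exact hc.le) (by nlinarith)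
  have hSpos : (0 : ℝ) < S.card := by
    have : 0 ≤ ε * s.card := by positivity
    linarith
  obtain ⟨x0, hx0⟩ : S.Nonempty := by
    rw [← Finset.card_pos]
    exact_mod_cast hSpos
  have hmem : ∀ x ∈ S, (((t.filter (fun y => G.Adj x y)).card : ℕ) : ℝ) < (G.edgeDensity s t - ε) * t.card := by
    intro x hx
    rw [hS, Finset.mem_filter] at hx
    exact hx.2
  have htpos : (0 : ℝ) < t.card := by
    rcases ht0.lt_or_eq with h2 | h2
    · exact h2
    · exfalso
      have h3 := hmem x0 hx0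
      rw [← h2, mul_zero] at h3
      have : (0 : ℝ) ≤ (((t.filter (fun y => G.Adj x0 y)).card : ℕ) : ℝ) := Nat.cast_nonneg _
      linarith
  have h4 : ((G.interedges S t).card : ℝ) = ∑ x ∈ S, (((t.filter (fun y => G.Adj x y)).card : ℕ) : ℝ) := by
    rw [← Nat.cast_sum]
    congr 1
    unfold SimpleGraph.interedges Rel.interedges
    rw [Finset.card_filter, Finset.sum_product]
    refine Finset.sum_congr rfl fun x _ => ?_
    rw [Finset.card_filter]
  have h5 : ((G.interedges S t).card : ℝ) ≤ S.card * ((G.edgeDensity s t - ε) * t.card) := by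
    rw [h4, ← nsmul_eq_mul]
    exact Finset.sum_le_card_nsmul _ _ _ fun x hx => (hmem x hx).le
  have h6 : (G.edgeDensity S t : ℝ) = (G.interedges S t).card / (S.card * t.card) := by
    rw [SimpleGraph.edgeDensity_def]
    push_cast
    rfl
  rw [abs_lt] at h1
  have h7 : (G.edgeDensity S t : ℝ) ≤ G.edgeDensity s t - ε := by
    rw [h6, div_le_iff₀ (by positivity)]
    calc ((G.interedges S t).card : ℝ) ≤ S.card * ((G.edgeDensity s t - ε) * t.card) := h5
      _ = (G.edgeDensity s t - ε) * (S.card * t.card) := by ring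
  linarith [h1.1]

end Pool.Agent.H21.GH
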