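import Pool.Agent.H21.GH.Rem
import Pool.Agent.H21.GH.Clq

/-!
[H21 GH SUP]  Supersaturation: sets `D e ⊆ Z_p` of density `> 1/2` have a positive proportion of `K_4`'s, with a constant
which does not depend on `p`.

Proof.  We may assume `ε ≤ 1/2`.  `η = ε/112/8`.. (small: `7 * 16 * η * p ≤ (ε/2) p` is what is used, so `η = ε/224`),
`c1, n0` from `k4_removal η`, `c = 256 c1 / 24`, `P0 ≥ n0`, `P0 ≥ 8/ε`.
Graph on `V = Fin 4 × ZMod p` (`4p` vertices): for `e` with `pr e = (i, j)` the vertices `(i, x)` and `(j, y)` are adjacent iff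
`y - x ∈ D e`; no edges inside `{i} × ZMod p`.  A quadruple `v` of pairwise adjacent vertices has four different first
components; if `π` is the permutation of the first components, `x` with `v (π^{-1} i) = (i, x i)` satisfies `x_j - x_i ∈ D e` for all `e`: so
there are at most `24 S` of them, `S` = number of the `x : Fin 4 → ZMod p` with `x_j - x_i ∈ D e` for all `e`.
Suppose `S < c p^4 = c1 (4p)^4/24`.  Then `k4_removal` gives `G'`, with at most `η (4p)^2 = 16 η p^2` ordered pairs of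
`G \ G'`.  For `e` let `dead e` = the `t ∈ D e` such that at least `p/7` of the edges `((i, x), (j, x+t))`, `x ∈ ZMod p`, are not in `G'`:
`|dead e| ≤ 16 η p^2/(p/7) = 112 η p ≤ (ε/2) p`.  `D' e = (D e \ dead e)`, `|D' e| ≥ (1/2 + ε/2) p`, so the complement of `D' e` has at most
`(1/2 - ε/2) p ≤ 2k` elements, `k = (p-1)/4` (`4k < p`, `2k ≥ (p-4)/2 ≥ (1/2 - ε/2) p` as `p ≥ 4/ε`).  `clique4` gives `x` with
`x_j - x_i ∈ D' e` for all `e`.  For each `s ∈ ZMod p` the vertices `(i, x_i + s)` are pairwise adjacent in `G`, so some pair is not adjacent in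
`G'`: for each `e` fewer than `p/7` values `s`, in total fewer than `6p/7 < p`: contradiction.
-/

namespace Pool.Agent.H21.GH

open Finset

private theorem sup_lt : ∀ e, (pr e).1 < (pr e).2 := by decide

private theorem sup_inj : ∀ e e', pr e = pr e' → e = e' := by decide

private theorem sup_surj : ∀ i j : Fin 4, i < j → ∃ e, pr e = (i, j) := by decide

/-- the relation of the graph -/
private def sR {p : ℕ} (D : Fin 6 → Finset (ZMod p)) (a b : Fin 4 × ZMod p) : Prop :=
  ∃ e, a.1 = (pr e).1 ∧ b.1 = (pr e).2 ∧ b.2 - a.2 ∈ D e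

/-- the graph -/
private def sG {p : ℕ} (D : Fin 6 → Finset (ZMod p)) : SimpleGraph (Fin 4 × ZMod p) :=
  SimpleGraph.fromRel (sR D)

private theorem sG_adj {p : ℕ} (D : Fin 6 → Finset (ZMod p)) (a b : Fin 4 × ZMod p) :
    (sG D).Adj a b ↔ a ≠ b ∧ (sR D a b ∨ sR D b a) := SimpleGraph.fromRel_adj _ _ _

private theorem sG_of {p : ℕ} (D : Fin 6 → Finset (ZMod p)) (e : Fin 6) (x y : ZMod p)
    (h : y - x ∈ D e) : (sG D).Adj ((pr e).1, x) ((pr e).2, y) := by
  rw [sG_adj]
  refine ⟨?_, Or.inl ⟨e, rfl, rfl, h⟩⟩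
  intro h1
  exact (sup_lt e).ne (congrArg Prod.fst h1)

private theorem sG_ne {p : ℕ} (D : Fin 6 → Finset (ZMod p)) (a b : Fin 4 × ZMod p)
    (h : (sG D).Adj a b) : a.1 ≠ b.1 := by
  rw [sG_adj] at h
  rcases h.2 with ⟨e, h1, h2, -⟩ | ⟨e, h1, h2, -⟩
  · rw [h1, h2]
    exact (sup_lt e).ne
  · rw [h1, h2]
    exact (sup_lt e).ne'

private theorem sG_mem {p : ℕ} (D : Fin 6 → Finset (ZMod p)) (e : Fin 6) (a b : Fin 4 × ZMod p)
    (h : (sG D).Adj a b) (ha : a.1 = (pr e).1) (hb : b.1 = (pr e).2) : b.2 - a.2 ∈ D e := by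
  rw [sG_adj] at h
  rcases h.2 with ⟨e', h1, h2, h3⟩ | ⟨e', h1, h2, h3⟩
  · have h4 : e = e' := by
      apply sup_inj
      rw [ha] at h1
      rw [hb] at h2
      exact Prod.ext h1 h2
    rw [h4]
    exact h3
  · exfalso
    have h4 := sup_lt e
    have h5 := sup_lt e'
    rw [← ha, ← hb] at h4
    rw [← h1, ← h2] at h5
    exact absurd h4 (not_lt.2 h5.le)

open Classical in
private theorem sup_count {p : ℕ} [NeZero p] (D : Fin 6 → Finset (ZMod p)) :
    ((univ : Finset (Fin 4 → Fin 4 × ZMod p)).filter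
      (fun v => ∀ i j, i < j → (sG D).Adj (v i) (v j))).card ≤
    24 * ((univ : Finset (Fin 4 → ZMod p)).filter
        (fun x => ∀ e, x (pr e).2 - x (pr e).1 ∈ D e)).card := by
  have h24 : (univ : Finset (Equiv.Perm (Fin 4))).card = 24 := by
    rw [card_univ, Fintype.card_perm, Fintype.card_fin]
    rfl
  have hsub : (univ : Finset (Fin 4 → Fin 4 × ZMod p)).filter
      (fun v => ∀ i j, i < j → (sG D).Adj (v i) (v j)) ⊆
      ((univ : Finset (Equiv.Perm (Fin 4))) ×ˢ ((univ : Finset (Fin 4 → ZMod p)).filter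
        (fun x => ∀ e, x (pr e).2 - x (pr e).1 ∈ D e))).image
        (fun q => fun i => (q.1 i, q.2 (q.1 i))) := by
    intro v hv
    rw [mem_filter] at hv
    have hadj : ∀ i j, i ≠ j → (sG D).Adj (v i) (v j) := by
      intro i j hij
      rcases lt_or_gt_of_ne hij with h | h
      · exact hv.2 i j h
      · exact (hv.2 j i h).symm
    have hinj : Function.Injective (fun i => (v i).1) := by
      intro i j hij
      by_contra hne
      exact sG_ne D _ _ (hadj i j hne) hij
    have hbij : Function.Bijective (fun i => (v i).1) := Finite.injective_iff_bijective.1 hinj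
    obtain ⟨π, hπ⟩ : ∃ π : Equiv.Perm (Fin 4), ∀ i, π i = (v i).1 :=
      ⟨Equiv.ofBijective _ hbij, fun i => rfl⟩
    rw [mem_image]
    refine ⟨(π, fun i => (v (π.symm i)).2), ?_, ?_⟩
    · rw [mem_product, mem_filter]
      refine ⟨mem_univ _, mem_univ _, ?_⟩
      intro e
      have hne : π.symm (pr e).1 ≠ π.symm (pr e).2 := by
        intro h
        exact (sup_lt e).ne (π.symm.injective h)
      refine sG_mem D e _ _ (hadj _ _ hne) ?_ ?_
      · rw [← hπ, Equiv.apply_symm_apply]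
      · rw [← hπ, Equiv.apply_symm_apply]
    · funext i
      show (π i, (v (π.symm (π i))).2) = v i
      rw [Equiv.symm_apply_apply, hπ]
  refine (card_le_card hsub).trans (card_image_le.trans ?_)
  rw [card_product, h24]

open Classical in
private theorem super_aux (ε : ℝ) (hε : 0 < ε) (hε1 : ε ≤ 1 / 2) : ∃ (c : ℝ) (P0 : ℕ), 0 < c ∧
    ∀ p : ℕ, P0 ≤ p → p.Prime →
    ∀ [NeZero p], ∀ D : Fin 6 → Finset (ZMod p), (∀ e, (1 / 2 + ε) * p ≤ ((D e).card : ℝ)) →
      c * (p : ℝ) ^ 4 ≤ (((univ : Finset (Fin 4 → ZMod p)).filter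
        (fun x => ∀ e, x (pr e).2 - x (pr e).1 ∈ D e)).card : ℝ) := by
  obtain ⟨η, hη⟩ : ∃ η : ℝ, η = ε / 224 := ⟨_, rfl⟩
  have hη0 : 0 < η := by rw [hη]; positivity
  have hη1 : η ≤ 1 := by rw [hη]; linarith
  obtain ⟨c1, n0, hc1, hrem⟩ := k4_removal η hη0 hη1
  refine ⟨256 * c1 / 24, max n0 ⌈8 / ε⌉₊, by positivity, ?_⟩
  intro p hp hprime _ D hD
  by_contra hcon
  push Not at hcon
  have hp0 : 0 < p := hprime.pos
  have hpR : (0 : ℝ) < p := by exact_mod_cast hp0
  have hpε : 8 / ε ≤ p := by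
    have h1 : (⌈8 / ε⌉₊ : ℝ) ≤ p := by exact_mod_cast (le_max_right _ _).trans hp
    exact (Nat.le_ceil _).trans h1
  have hpε' : 8 ≤ ε * p := by
    rw [div_le_iff₀ hε] at hpε
    linarith
  have hcardV : Fintype.card (Fin 4 × ZMod p) = 4 * p := by
    rw [Fintype.card_prod, Fintype.card_fin, ZMod.card]
  obtain ⟨G', hG', hfree, hdel⟩ := hrem (Fin 4 × ZMod p) (sG D) (by
      rw [hcardV]
      have := (le_max_left _ _).trans hp
      omega) (by
      rw [hcardV]
      have h1 : (((univ : Finset (Fin 4 → Fin 4 × ZMod p)).filter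
        (fun v => ∀ i j, i < j → (sG D).Adj (v i) (v j))).card : ℝ) ≤
        24 * (((univ : Finset (Fin 4 → ZMod p)).filter
        (fun x => ∀ e, x (pr e).2 - x (pr e).1 ∈ D e)).card : ℝ) := by
        exact_mod_cast sup_count D
      push_cast
      refine lt_of_le_of_lt h1 ?_
      calc _ < 24 * (256 * c1 / 24 * (p : ℝ) ^ 4) := mul_lt_mul_of_pos_left hcon (by norm_num)
        _ = c1 * (4 * (p : ℝ)) ^ 4 := by ring)
  rw [hcardV] at hdel
  push_cast at hdel
  -- the deleted edges of direction e and difference t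
  obtain ⟨W, hW⟩ : ∃ W : Fin 6 → ZMod p → Finset (ZMod p), ∀ e t, W e t =
      univ.filter (fun x => ¬ G'.Adj ((pr e).1, x) ((pr e).2, x + t)) := ⟨_, fun _ _ => rfl⟩
  have hWsum : ∀ e, ∑ t ∈ D e, ((W e t).card : ℝ) ≤ 16 * η * (p : ℝ) ^ 2 := by
    intro e
    have h1 : ∑ t ∈ D e, (W e t).card = ((D e).sigma (fun t => W e t)).card :=
      (card_sigma _ _).symm
    have h2 : ((D e).sigma (fun t => W e t)).card ≤
        ((univ : Finset ((Fin 4 × ZMod p) × (Fin 4 × ZMod p))).filter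
          (fun q => (sG D).Adj q.1 q.2 ∧ ¬ G'.Adj q.1 q.2)).card := by
      refine card_le_card_of_injOn
        (fun q : (Σ _ : ZMod p, ZMod p) => (((pr e).1, q.2), ((pr e).2, q.2 + q.1))) ?_ ?_
      · intro q hq
        rw [mem_coe, mem_sigma, hW, mem_filter] at hq
        rw [mem_coe, mem_filter]
        refine ⟨mem_univ _, sG_of D e _ _ ?_, hq.2.2⟩
        have h3 : q.2 + q.1 - q.2 = q.1 := by ring
        rw [h3]
        exact hq.1
      · intro q _ q' _ h
        have h3 : q.2 = q'.2 := congrArg (fun z => z.1.2) h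
        have h4 : q.2 + q.1 = q'.2 + q'.1 := congrArg (fun z => z.2.2) h
        rw [h3] at h4
        have h5 : q.1 = q'.1 := add_left_cancel h4
        exact Sigma.ext h5 (heq_of_eq h3)
    have h3 : ((∑ t ∈ D e, (W e t).card : ℕ) : ℝ) ≤ η * (4 * (p : ℝ)) ^ 2 := by
      refine le_trans ?_ hdel
      rw [h1]
      exact_mod_cast h2
    push_cast at h3
    refine h3.trans (le_of_eq ?_)
    ring
  obtain ⟨D', hD'⟩ : ∃ D' : Fin 6 → Finset (ZMod p), ∀ e, D' e =
      (D e).filter (fun t => ((W e t).card : ℝ) < p / 7) := ⟨_, fun _ => rfl⟩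
  have hdead : ∀ e, (((D e).filter (fun t => ¬ ((W e t).card : ℝ) < p / 7)).card : ℝ) ≤
      ε / 2 * p := by
    intro e
    have h1 : (((D e).filter (fun t => ¬ ((W e t).card : ℝ) < p / 7)).card : ℝ) * (p / 7) ≤
        16 * η * (p : ℝ) ^ 2 := by
      refine le_trans ?_ (hWsum e)
      rw [← nsmul_eq_mul]
      refine (card_nsmul_le_sum _ (fun t => ((W e t).card : ℝ)) _ ?_).trans ?_
      · intro t ht
        rw [mem_filter] at ht
        exact not_lt.1 ht.2
      · exact sum_le_sum_of_subset_of_nonneg (filter_subset _ _) fun _ _ _ => Nat.cast_nonneg _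
    have h2 : 16 * η * (p : ℝ) ^ 2 = (ε / 2 * p) * (p / 7) := by
      rw [hη]
      ring
    rw [h2] at h1
    exact le_of_mul_le_mul_right h1 (by positivity)
  have hcard' : ∀ e, (1 / 2 + ε / 2) * p ≤ ((D' e).card : ℝ) := by
    intro e
    have h1 : ((D' e).card : ℝ) + (((D e).filter
        (fun t => ¬ ((W e t).card : ℝ) < p / 7)).card : ℝ) = ((D e).card : ℝ) := by
      rw [hD']
      exact_mod_cast card_filter_add_card_filter_not (s := D e)
        (fun t => ((W e t).card : ℝ) < p / 7)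
    have h2 := hD e
    have h3 := hdead e
    linarith
  -- the clique
  have : Fact p.Prime := ⟨hprime⟩
  obtain ⟨k, hk⟩ : ∃ k, k = (p - 1) / 4 := ⟨_, rfl⟩
  have hk1 : 4 * k < p := by omega
  have hk2 : p ≤ 4 * k + 4 := by omega
  have hk2' : (p : ℝ) ≤ 4 * k + 4 := by exact_mod_cast hk2
  obtain ⟨x, hx⟩ := clique4 p k hk1 (fun e => (D' e)ᶜ) (by
    intro e
    have h1 : (D' e).card + ((D' e)ᶜ).card = p := by
      rw [card_add_card_compl, ZMod.card]
    have h2 : ((D' e).card : ℝ) + (((D' e)ᶜ).card : ℝ) = p := by exact_mod_cast h1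
    have h3 := hcard' e
    have h4 : (((D' e)ᶜ).card : ℝ) ≤ 2 * k := by nlinarith
    exact_mod_cast h4)
  have hx' : ∀ e, x (pr e).2 - x (pr e).1 ∈ D' e := by
    intro e
    have := hx e
    rw [mem_compl, not_not] at this
    exact this
  -- translates
  have hcov : (univ : Finset (ZMod p)) ⊆ (univ : Finset (Fin 6)).biUnion (fun e =>
      univ.filter (fun s => ¬ G'.Adj ((pr e).1, x (pr e).1 + s) ((pr e).2, x (pr e).2 + s))) := by
    intro s _
    obtain ⟨i, j, hij, hno⟩ := hfree (fun i => (i, x i + s))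
    obtain ⟨e, he⟩ := sup_surj i j hij
    rw [mem_biUnion]
    refine ⟨e, mem_univ _, ?_⟩
    rw [mem_filter]
    refine ⟨mem_univ _, ?_⟩
    rw [he]
    exact hno
  have hsmall : ∀ e, ((univ.filter (fun s => ¬ G'.Adj ((pr e).1, x (pr e).1 + s)
      ((pr e).2, x (pr e).2 + s))).card : ℝ) < p / 7 := by
    intro e
    have h1 := hx' e
    rw [hD', mem_filter, hW] at h1
    refine lt_of_le_of_lt ?_ h1.2
    have h2 : (univ.filter (fun s => ¬ G'.Adj ((pr e).1, x (pr e).1 + s)
      ((pr e).2, x (pr e).2 + s))).card ≤ (univ.filter (fun y => ¬ G'.Adj ((pr e).1, y)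
        ((pr e).2, y + (x (pr e).2 - x (pr e).1)))).card := by
      refine card_le_card_of_injOn (fun s => x (pr e).1 + s) ?_ ?_
      · intro s hs
        rw [mem_coe, mem_filter] at hs
        rw [mem_coe, mem_filter]
        refine ⟨mem_univ _, ?_⟩
        have h3 : x (pr e).1 + s + (x (pr e).2 - x (pr e).1) = x (pr e).2 + s := by ring
        rw [h3]
        exact hs.2
      · intro s _ s' _ h
        exact add_left_cancel h
    exact_mod_cast h2
  have htot : (p : ℝ) ≤ ∑ e : Fin 6, ((univ.filter (fun s => ¬ G'.Adj ((pr e).1, x (pr e).1 + s)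
      ((pr e).2, x (pr e).2 + s))).card : ℝ) := by
    have h1 := (card_le_card hcov).trans card_biUnion_le
    rw [card_univ, ZMod.card] at h1
    exact_mod_cast h1
  have hlt : ∑ e : Fin 6, ((univ.filter (fun s => ¬ G'.Adj ((pr e).1, x (pr e).1 + s)
      ((pr e).2, x (pr e).2 + s))).card : ℝ) ≤ ∑ e : Fin 6, (p : ℝ) / 7 :=
    sum_le_sum fun e _ => (hsmall e).le
  rw [sum_const, card_univ, Fintype.card_fin, nsmul_eq_mul] at hlt
  push_cast at hlt
  linarith

open Classical in
theorem super (ε : ℝ) (hε : 0 < ε) : ∃ (c : ℝ) (P0 : ℕ), 0 < c ∧ ∀ p : ℕ, P0 ≤ p → p.Prime →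
    ∀ [NeZero p], ∀ D : Fin 6 → Finset (ZMod p), (∀ e, (1 / 2 + ε) * p ≤ ((D e).card : ℝ)) →
      c * (p : ℝ) ^ 4 ≤ (((univ : Finset (Fin 4 → ZMod p)).filter
        (fun x => ∀ e, x (pr e).2 - x (pr e).1 ∈ D e)).card : ℝ) := by
  obtain ⟨c, P0, hc, h⟩ := super_aux (min ε (1 / 2)) (lt_min hε (by norm_num)) (min_le_right _ _)
  refine ⟨c, P0, hc, ?_⟩
  intro p hp hprime _ D hD
  refine h p hp hprime D fun e => le_trans ?_ (hD e)
  exact mul_le_mul_of_nonneg_right (by linarith [min_le_left ε (1 / 2)]) (Nat.cast_nonneg _)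

end Pool.Agent.H21.GH
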