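import Pool.Agent.H21.GH.K4

/-!
MP_8923e7_nt, project GH.  At least a third of the multiples of every even number, in every long interval.
-/

namespace Pool.Agent.H21.GH

open Finset

open Classical in
/-- number of the `n` in `(M, M+X]` congruent to `c` modulo `3` such that `Q n` has the property `E` -/
noncomputable def Nc (E : ℕ → Prop) (Q M X c : ℕ) : ℕ :=
  ((Ioc M (M + X)).filter (fun n => n % 3 = c % 3 ∧ E (Q * n))).card

theorem Nc_mod (E : ℕ → Prop) (Q M X c d : ℕ) (h : c % 3 = d % 3) : Nc E Q M X c = Nc E Q M X d := by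
  unfold Nc
  rw [h]

/-- the point of the block with number `u` at the position `m` after the window starting at `M` -/
def pos (M P c m u : ℕ) : ℕ := 3 * ((M + P) / 3 + 1 + m + u) + c

open Classical in
/-- one step: most positions are good -/
theorem step_count (E : ℕ → Prop) (Q M X P L k : ℕ) (x : Fin k → ℕ) (hx : ∀ i, x i ≤ P) (c u Y : ℕ)
    (hc : c < 3) (hu : u < L) (hY : 3 * Y + P + 3 * L + 6 ≤ X) :
    (Y : ℝ) - ∑ i, (Nc E Q M X (c + 2 * x i) : ℝ) ≤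
      (((range Y).filter (fun m => ∀ i, ¬ E (Q * (pos M P c m u - x i)))).card : ℝ) := by
  have h1 : (range Y) ⊆ ((range Y).filter (fun m => ∀ i, ¬ E (Q * (pos M P c m u - x i)))) ∪
      (univ : Finset (Fin k)).biUnion (fun i => (range Y).filter (fun m => E (Q * (pos M P c m u - x i)))) := by
    intro m hm
    rw [mem_union, mem_biUnion]
    by_cases h : ∀ i, ¬ E (Q * (pos M P c m u - x i))
    · exact Or.inl (mem_filter.2 ⟨hm, h⟩)
    · push Not at h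
      obtain ⟨i, hi⟩ := h
      exact Or.inr ⟨i, mem_univ i, mem_filter.2 ⟨hm, hi⟩⟩
  have h2 := (card_le_card h1).trans ((card_union_le _ _).trans (Nat.add_le_add_left card_biUnion_le _))
  rw [card_range] at h2
  have h3 : ∀ i, ((range Y).filter (fun m => E (Q * (pos M P c m u - x i)))).card ≤
      Nc E Q M X (c + 2 * x i) := by
    intro i
    unfold Nc
    apply card_le_card_of_injOn (fun m => pos M P c m u - x i)
    · intro m hm
      rw [mem_coe, mem_filter, mem_range] at hm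
      rw [mem_coe, mem_filter, mem_Ioc]
      have hxi := hx i
      simp only [pos] at hm ⊢
      refine ⟨⟨by omega, by omega⟩, by omega, hm.2⟩
    · intro a _ b _ hab
      have hxi := hx i
      simp only [pos] at hab
      omega
  have h4 : Y ≤ ((range Y).filter (fun m => ∀ i, ¬ E (Q * (pos M P c m u - x i)))).card +
      ∑ i, Nc E Q M X (c + 2 * x i) := h2.trans (Nat.add_le_add_left (sum_le_sum fun i _ => h3 i) _)
  have h5 : (Y : ℝ) ≤ (((range Y).filter (fun m => ∀ i, ¬ E (Q * (pos M P c m u - x i)))).card : ℝ) +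
      ∑ i, (Nc E Q M X (c + 2 * x i) : ℝ) := by exact_mod_cast h4
  linarith

/-- the same with a proportion -/
theorem step_prop (E : ℕ → Prop) (Q M X P L k : ℕ) (x : Fin k → ℕ) (hx : ∀ i, x i ≤ P) (c u : ℕ)
    (hc : c < 3) (hu : u < L) (η : ℝ) (hη : 0 < η) (hη1 : η ≤ 1)
    (hX : 2 / η * ((P : ℝ) + 3 * L + 12) ≤ X)
    (hN : ∑ i, (Nc E Q M X (c + 2 * x i) : ℝ) ≤ (1 - η) * (X / 3)) [DecidablePred fun m =>
      ∀ i, ¬ E (Q * (pos M P c m u - x i))] :
    η / 2 * (((X - P - 3 * L - 6) / 3 : ℕ) : ℝ) ≤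
      (((range ((X - P - 3 * L - 6) / 3)).filter (fun m => ∀ i, ¬ E (Q * (pos M P c m u - x i)))).card : ℝ) ∧
      1 ≤ (X - P - 3 * L - 6) / 3 := by
  have hXR : (P : ℝ) + 3 * L + 12 ≤ X := by
    refine le_trans ?_ hX
    have h1 : (1 : ℝ) ≤ 2 / η := by
      rw [le_div_iff₀ hη]
      linarith
    have h2 : (0 : ℝ) ≤ (P : ℝ) + 3 * L + 12 := by positivity
    nlinarith
  have hXN : P + 3 * L + 12 ≤ X := by exact_mod_cast hXR
  obtain ⟨Y, hY⟩ : ∃ Y : ℕ, Y = (X - P - 3 * L - 6) / 3 := ⟨_, rfl⟩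
  have hY1 : 3 * Y + P + 3 * L + 6 ≤ X := by omega
  have hY2 : X ≤ 3 * Y + P + 3 * L + 9 := by omega
  have h := step_count E Q M X P L k x hx c u Y hc hu hY1
  rw [← hY]
  refine ⟨?_, by omega⟩
  have hY2R : (X : ℝ) ≤ 3 * Y + P + 3 * L + 9 := by exact_mod_cast hY2
  have hY1R : 3 * (Y : ℝ) + P + 3 * L + 6 ≤ X := by exact_mod_cast hY1
  have h3 : 2 * ((P : ℝ) + 3 * L + 12) ≤ η * X := by
    rw [div_mul_eq_mul_div, div_le_iff₀ hη] at hX
    linarith
  have h4 : η / 2 * (Y : ℝ) ≤ (Y : ℝ) - ∑ i, (Nc E Q M X (c + 2 * x i) : ℝ) := by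
    have h5 : (0 : ℝ) ≤ P := Nat.cast_nonneg _
    have h6 : (0 : ℝ) ≤ L := Nat.cast_nonneg _
    have h7 : η * (3 * (Y : ℝ)) ≤ η * X := by
      apply mul_le_mul_of_nonneg_left _ hη.le
      linarith
    nlinarith
  refine h4.trans (h.trans (le_of_eq ?_))
  congr 2
  ext m
  simp only [mem_filter]

open Classical in
/-- the number of good quadruples for suitable positions -/
theorem windows4 (E : ℕ → Prop) (Q L : ℕ) (η : ℝ) (hη : 0 < η) (hη1 : η ≤ 1)
    (c0 c1 c2 c3 : ℕ) (hc0 : c0 < 3) (hc1 : c1 < 3) (hc2 : c2 < 3) (hc3 : c3 < 3)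
    (M0 X0 M1 X1 M2 X2 P0 P1 P2 : ℕ) (hP0 : P0 = 3 * L + 3) (hP1 : P1 = M0 + X0 + P0)
    (hP2 : P2 = M1 + X1 + P1)
    (hX0 : 2 / η * ((P0 : ℝ) + 3 * L + 12) ≤ X0) (hX1 : 2 / η * ((P1 : ℝ) + 3 * L + 12) ≤ X1)
    (hX2 : 2 / η * ((P2 : ℝ) + 3 * L + 12) ≤ X2)
    (hN0 : (Nc E Q M0 X0 (c1 + 2 * c0) : ℝ) ≤ (1 - η) * (X0 / 3))
    (hN1 : (Nc E Q M1 X1 (c2 + 2 * c0) : ℝ) + Nc E Q M1 X1 (c2 + 2 * c1) ≤ (1 - η) * (X1 / 3))
    (hN2 : (Nc E Q M2 X2 (c3 + 2 * c0) : ℝ) + Nc E Q M2 X2 (c3 + 2 * c1) + Nc E Q M2 X2 (c3 + 2 * c2) ≤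
      (1 - η) * (X2 / 3)) :
    ∃ f : Fin 4 → ℕ → ℕ, (∀ j, Function.Injective (f j)) ∧
      (∀ j u, f j u % 3 = (![c0, c1, c2, c3] : Fin 4 → ℕ) j) ∧
      (∀ i j u v, i < j → u < L → v < L → f i u < f j v) ∧
      (η / 2) ^ 3 * (L : ℝ) ^ 4 ≤ (((Fintype.piFinset (fun _ : Fin 4 => range L)).filter
        (fun u => ∀ i j, i < j → ¬ E (Q * (f j (u j) - f i (u i))))).card : ℝ) := by
  obtain ⟨Y0, hY0⟩ : ∃ Y : ℕ, Y = (X0 - P0 - 3 * L - 6) / 3 := ⟨_, rfl⟩
  obtain ⟨Y1, hY1⟩ : ∃ Y : ℕ, Y = (X1 - P1 - 3 * L - 6) / 3 := ⟨_, rfl⟩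
  obtain ⟨Y2, hY2⟩ : ∃ Y : ℕ, Y = (X2 - P2 - 3 * L - 6) / 3 := ⟨_, rfl⟩
  obtain ⟨U, hU⟩ : ∃ U : Finset (Fin 4 → ℕ), U = Fintype.piFinset (fun _ : Fin 4 => range L) := ⟨_, rfl⟩
  have hUc : (U.card : ℝ) = (L : ℝ) ^ 4 := by
    rw [hU, Fintype.card_piFinset]
    simp
  -- the four points
  obtain ⟨y0, hy0⟩ : ∃ y : (Fin 4 → ℕ) → ℕ, y = fun u => 3 * u 0 + c0 := ⟨_, rfl⟩
  obtain ⟨y1, hy1⟩ : ∃ y : ℕ → (Fin 4 → ℕ) → ℕ, y = fun m u => pos M0 P0 c1 m (u 1) := ⟨_, rfl⟩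
  obtain ⟨y2, hy2⟩ : ∃ y : ℕ → (Fin 4 → ℕ) → ℕ, y = fun m u => pos M1 P1 c2 m (u 2) := ⟨_, rfl⟩
  obtain ⟨y3, hy3⟩ : ∃ y : ℕ → (Fin 4 → ℕ) → ℕ, y = fun m u => pos M2 P2 c3 m (u 3) := ⟨_, rfl⟩
  have hb1 : ∀ u ∈ U, ∀ m0 < Y0, y0 u ≤ P0 ∧ y1 m0 u ≤ P1 ∧ y0 u < y1 m0 u := by
    intro u hu m0 hm0
    rw [hU, Fintype.mem_piFinset] at hu
    have u0 := mem_range.1 (hu 0)
    have u1 := mem_range.1 (hu 1)
    rw [hy0, hy1]
    simp only [pos]
    omega
  have hb2 : ∀ u ∈ U, ∀ m1 < Y1, y2 m1 u ≤ P2 ∧ P1 < y2 m1 u := by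
    intro u hu m0 hm0
    rw [hU, Fintype.mem_piFinset] at hu
    have u2 := mem_range.1 (hu 2)
    rw [hy2]
    simp only [pos]
    omega
  have hb3 : ∀ u ∈ U, ∀ m2, P2 < y3 m2 u := by
    intro u hu m0
    rw [hy3]
    simp only [pos]
    omega
  -- the conditions
  obtain ⟨A0, hA0⟩ : ∃ A : ℕ → (Fin 4 → ℕ) → ℝ, A = fun m u =>
    if ∀ i, ¬ E (Q * (y1 m u - (![y0 u] : Fin 1 → ℕ) i)) then 1 else 0 := ⟨_, rfl⟩
  obtain ⟨A1, hA1⟩ : ∃ A : ℕ → ℕ → (Fin 4 → ℕ) → ℝ, A = fun m m' u =>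
    if ∀ i, ¬ E (Q * (y2 m' u - (![y0 u, y1 m u] : Fin 2 → ℕ) i)) then 1 else 0 := ⟨_, rfl⟩
  obtain ⟨A2, hA2⟩ : ∃ A : ℕ → ℕ → ℕ → (Fin 4 → ℕ) → ℝ, A = fun m m' m'' u =>
    if ∀ i, ¬ E (Q * (y3 m'' u - (![y0 u, y1 m u, y2 m' u] : Fin 3 → ℕ) i)) then 1 else 0 := ⟨_, rfl⟩
  have hA0' : ∀ m u, 0 ≤ A0 m u := by
    intro m u
    rw [hA0]
    simp only
    split_ifs <;> norm_num
  have hA1' : ∀ m m' u, 0 ≤ A1 m m' u := by
    intro m m' u
    rw [hA1]
    simp only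
    split_ifs <;> norm_num
  have s0 : ∀ u ∈ U, η / 2 * (Y0 : ℝ) ≤ ∑ m ∈ range Y0, A0 m u := by
    intro u hu
    have hu' := hu
    rw [hU, Fintype.mem_piFinset] at hu'
    have h1 := (step_prop E Q M0 X0 P0 L 1 ![y0 u] (by
      intro i
      fin_cases i
      have := mem_range.1 (hu' 0)
      simp only [hy0]
      simp
      omega) c1 (u 1) hc1 (mem_range.1 (hu' 1)) η hη hη1 hX0 (by
      rw [Fin.sum_univ_one]
      refine le_trans (le_of_eq ?_) hN0
      have e1 : Nc E Q M0 X0 (c1 + 2 * (![y0 u] : Fin 1 → ℕ) 0) = Nc E Q M0 X0 (c1 + 2 * c0) := by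
        apply Nc_mod
        show (c1 + 2 * y0 u) % 3 = _
        rw [hy0]
        simp only
        omega
      rw [e1])).1
    rw [← hY0] at h1
    refine h1.trans (le_of_eq ?_)
    rw [hA0, sum_boole]
    simp only [hy1]
  have s1 : ∀ u ∈ U, ∀ m < Y0, η / 2 * (Y1 : ℝ) ≤ ∑ m' ∈ range Y1, A1 m m' u := by
    intro u hu m hm
    have hu' := hu
    rw [hU, Fintype.mem_piFinset] at hu'
    have hb := hb1 u hu m hm
    have h1 := (step_prop E Q M1 X1 P1 L 2 ![y0 u, y1 m u] (by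
      intro i
      fin_cases i
      · simp
        omega
      · simp
        omega) c2 (u 2) hc2 (mem_range.1 (hu' 2)) η hη hη1 hX1 (by
      rw [Fin.sum_univ_two]
      refine le_trans (le_of_eq ?_) hN1
      have e1 : Nc E Q M1 X1 (c2 + 2 * (![y0 u, y1 m u] : Fin 2 → ℕ) 0) = Nc E Q M1 X1 (c2 + 2 * c0) := by
        apply Nc_mod
        show (c2 + 2 * y0 u) % 3 = _
        rw [hy0]
        simp only
        omega
      have e2 : Nc E Q M1 X1 (c2 + 2 * (![y0 u, y1 m u] : Fin 2 → ℕ) 1) = Nc E Q M1 X1 (c2 + 2 * c1) := by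
        apply Nc_mod
        show (c2 + 2 * y1 m u) % 3 = _
        rw [hy1]
        simp only [pos]
        omega
      rw [e1, e2])).1
    rw [← hY1] at h1
    refine h1.trans (le_of_eq ?_)
    rw [hA1, sum_boole]
    simp only [hy2]
  have s2 : ∀ u ∈ U, ∀ m < Y0, ∀ m' < Y1, η / 2 * (Y2 : ℝ) ≤ ∑ m'' ∈ range Y2, A2 m m' m'' u := by
    intro u hu m hm m' hm'
    have hu' := hu
    rw [hU, Fintype.mem_piFinset] at hu'
    have hb := hb1 u hu m hm
    have hb' := hb2 u hu m' hm'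
    have h1 := (step_prop E Q M2 X2 P2 L 3 ![y0 u, y1 m u, y2 m' u] (by
      intro i
      fin_cases i
      · simp
        omega
      · simp
        omega
      · simp
        omega) c3 (u 3) hc3 (mem_range.1 (hu' 3)) η hη hη1 hX2 (by
      rw [Fin.sum_univ_three]
      refine le_trans (le_of_eq ?_) hN2
      have e1 : Nc E Q M2 X2 (c3 + 2 * (![y0 u, y1 m u, y2 m' u] : Fin 3 → ℕ) 0) =
          Nc E Q M2 X2 (c3 + 2 * c0) := by
        apply Nc_mod
        show (c3 + 2 * y0 u) % 3 = _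
        rw [hy0]
        simp only
        omega
      have e2 : Nc E Q M2 X2 (c3 + 2 * (![y0 u, y1 m u, y2 m' u] : Fin 3 → ℕ) 1) =
          Nc E Q M2 X2 (c3 + 2 * c1) := by
        apply Nc_mod
        show (c3 + 2 * y1 m u) % 3 = _
        rw [hy1]
        simp only [pos]
        omega
      have e3 : Nc E Q M2 X2 (c3 + 2 * (![y0 u, y1 m u, y2 m' u] : Fin 3 → ℕ) 2) =
          Nc E Q M2 X2 (c3 + 2 * c2) := by
        apply Nc_mod
        show (c3 + 2 * y2 m' u) % 3 = _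
        rw [hy2]
        simp only [pos]
        omega
      rw [e1, e2, e3])).1
    rw [← hY2] at h1
    refine h1.trans (le_of_eq ?_)
    rw [hA2, sum_boole]
    simp only [hy3]
  -- the sum over all positions
  have hη2 : (0 : ℝ) ≤ η / 2 := by linarith
  have stot : ∀ u ∈ U, (η / 2) ^ 3 * ((Y0 : ℝ) * Y1 * Y2) ≤
      ∑ m ∈ range Y0, ∑ m' ∈ range Y1, ∑ m'' ∈ range Y2, A0 m u * (A1 m m' u * A2 m m' m'' u) := by
    intro u hu
    calc (η / 2) ^ 3 * ((Y0 : ℝ) * Y1 * Y2) = (η / 2 * Y0) * ((η / 2 * Y1) * (η / 2 * Y2)) := by ring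
      _ ≤ (∑ m ∈ range Y0, A0 m u) * ((η / 2 * Y1) * (η / 2 * Y2)) :=
          mul_le_mul_of_nonneg_right (s0 u hu) (by positivity)
      _ = ∑ m ∈ range Y0, A0 m u * ((η / 2 * Y1) * (η / 2 * Y2)) := by rw [sum_mul]
      _ ≤ ∑ m ∈ range Y0, A0 m u * ((∑ m' ∈ range Y1, A1 m m' u) * (η / 2 * Y2)) := by
          apply sum_le_sum
          intro m hm
          apply mul_le_mul_of_nonneg_left _ (hA0' m u)
          exact mul_le_mul_of_nonneg_right (s1 u hu m (mem_range.1 hm)) (by positivity)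
      _ = ∑ m ∈ range Y0, ∑ m' ∈ range Y1, A0 m u * (A1 m m' u * (η / 2 * Y2)) := by
          apply sum_congr rfl
          intro m _
          rw [sum_mul, mul_sum]
      _ ≤ ∑ m ∈ range Y0, ∑ m' ∈ range Y1, A0 m u * (A1 m m' u * ∑ m'' ∈ range Y2, A2 m m' m'' u) := by
          apply sum_le_sum
          intro m hm
          apply sum_le_sum
          intro m' hm'
          apply mul_le_mul_of_nonneg_left _ (hA0' m u)
          exact mul_le_mul_of_nonneg_left (s2 u hu m (mem_range.1 hm) m' (mem_range.1 hm')) (hA1' m m' u)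
      _ = _ := by
          apply sum_congr rfl
          intro m _
          apply sum_congr rfl
          intro m' _
          rw [mul_sum, mul_sum]
  -- choice of the positions
  have hsw : ∑ u ∈ U, ∑ m ∈ range Y0, ∑ m' ∈ range Y1, ∑ m'' ∈ range Y2,
      A0 m u * (A1 m m' u * A2 m m' m'' u) =
      ∑ p ∈ range Y0 ×ˢ (range Y1 ×ˢ range Y2), ∑ u ∈ U,
        A0 p.1 u * (A1 p.1 p.2.1 u * A2 p.1 p.2.1 p.2.2 u) := by
    rw [sum_comm' (s := range Y0 ×ˢ (range Y1 ×ˢ range Y2)) (t := fun _ => U)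
      (s' := fun _ => range Y0 ×ˢ (range Y1 ×ˢ range Y2)) (t' := U) (by intro x y; tauto)]
    apply sum_congr rfl
    intro u _
    rw [sum_product]
    apply sum_congr rfl
    intro m _
    rw [sum_product]
  have hYpos : 1 ≤ Y0 ∧ 1 ≤ Y1 ∧ 1 ≤ Y2 := by
    have hh : ∀ (P X : ℕ), 2 / η * ((P : ℝ) + 3 * L + 12) ≤ X → P + 3 * L + 12 ≤ X := by
      intro P X hX
      have hXR : (P : ℝ) + 3 * L + 12 ≤ X := by
        refine le_trans ?_ hX
        have h1 : (1 : ℝ) ≤ 2 / η := by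
          rw [le_div_iff₀ hη]
          linarith
        have h2 : (0 : ℝ) ≤ (P : ℝ) + 3 * L + 12 := by positivity
        nlinarith
      exact_mod_cast hXR
    have a0 := hh P0 X0 hX0
    have a1 := hh P1 X1 hX1
    have a2 := hh P2 X2 hX2
    omega
  have hex : ∃ p ∈ range Y0 ×ˢ (range Y1 ×ˢ range Y2), (η / 2) ^ 3 * (L : ℝ) ^ 4 ≤
      ∑ u ∈ U, A0 p.1 u * (A1 p.1 p.2.1 u * A2 p.1 p.2.1 p.2.2 u) := by
    apply exists_le_of_sum_le
    · refine ⟨(0, (0, 0)), ?_⟩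
      simp only [mem_product, mem_range]
      omega
    · rw [← hsw, sum_const, card_product, card_product, card_range, card_range, card_range, nsmul_eq_mul]
      calc ((Y0 * (Y1 * Y2) : ℕ) : ℝ) * ((η / 2) ^ 3 * (L : ℝ) ^ 4) =
          ∑ u ∈ U, (η / 2) ^ 3 * ((Y0 : ℝ) * Y1 * Y2) := by
            rw [sum_const, nsmul_eq_mul, hUc]
            push_cast
            ring
        _ ≤ _ := sum_le_sum stot
  obtain ⟨p, hp, hsum⟩ := hex
  rw [mem_product, mem_product, mem_range, mem_range, mem_range] at hp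
  refine ⟨![fun u => 3 * u + c0, fun u => pos M0 P0 c1 p.1 u, fun u => pos M1 P1 c2 p.2.1 u,
    fun u => pos M2 P2 c3 p.2.2 u], ?_, ?_, ?_, ?_⟩
  · intro j a b hab
    fin_cases j <;> simp [pos] at hab <;> omega
  · intro j u
    fin_cases j <;> simp [pos] <;> omega
  · intro i j u v hij hu hv
    fin_cases i <;> fin_cases j <;> first
      | (exfalso; revert hij; decide)
      | (simp only [pos]; simp; omega)
  · refine hsum.trans ?_
    rw [← hU]
    have h9 : ∀ u ∈ U, A0 p.1 u * (A1 p.1 p.2.1 u * A2 p.1 p.2.1 p.2.2 u) ≤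
        if (∀ i j : Fin 4, i < j → ¬ E (Q * ((![fun u => 3 * u + c0, fun u => pos M0 P0 c1 p.1 u,
          fun u => pos M1 P1 c2 p.2.1 u, fun u => pos M2 P2 c3 p.2.2 u] : Fin 4 → ℕ → ℕ) j (u j) -
          (![fun u => 3 * u + c0, fun u => pos M0 P0 c1 p.1 u,
          fun u => pos M1 P1 c2 p.2.1 u, fun u => pos M2 P2 c3 p.2.2 u] : Fin 4 → ℕ → ℕ) i (u i)))) then 1
        else 0 := by
      intro u hu
      rw [hA0, hA1, hA2]
      simp only
      split_ifs with h1 h2 h3 h4 <;> norm_num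
      exfalso
      apply h4
      have e01 := h1 0
      have e02 := h2 0
      have e12 := h2 1
      have e03 := h3 0
      have e13 := h3 1
      have e23 := h3 2
      simp only [Matrix.cons_val_zero, Matrix.cons_val_one, Matrix.cons_val, hy0, hy1, hy2, hy3] at e01 e02 e12 e03 e13 e23
      intro i j hij
      fin_cases i <;> fin_cases j <;> first
        | (exfalso; revert hij; decide)
        | (simpa using e01)
        | (simpa using e02)
        | (simpa using e12)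
        | (simpa using e03)
        | (simpa using e13)
        | (simpa using e23)
    refine (sum_le_sum h9).trans (le_of_eq ?_)
    rw [sum_boole]

end Pool.Agent.H21.GH
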