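import Mathlib

/-!
[H21 GH TOP]  Coefficients of highest degree.

Proof (induction on `s`).  Let `F s = ∏_{a ∈ s} (L a - C (c a))`, `H s = ∏_{a ∈ s} L a`.  `totalDegree (F s) ≤ |s|` and
`H s` is homogeneous of degree `|s|`.  Claim: `coeff t (F s) = coeff t (H s)` for every `t` with `t.degree = |s|`.  For `s = ∅` both
are `1`.  `F (insert a s) = L a * F s - C (c a) * F s`; `coeff t (C (c a) * F s) = c a * coeff t (F s) = 0` as `t.degree = |s| + 1 >
totalDegree (F s)` (`MvPolynomial.coeff_eq_zero_of_totalDegree_lt` or similar), and `coeff t (L a * F s) = ∑_{u + v = t} coeff u (L a) coeff v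
(F s)` (`MvPolynomial.coeff_mul`), where only `u.degree = 1`, `v.degree = |s|` count, so `F s` may be replaced by `H s`.
(Alternatively: `F s - H s` has total degree `< |s|` for `s` nonempty; or use `MvPolynomial.homogeneousComponent`.)
-/

namespace Pool.Agent.H21.GH

open Finset MvPolynomial

theorem top_deg {σ R ι : Type*} [CommRing R] (s : Finset ι) (L : ι → MvPolynomial σ R)
    (hL : ∀ a ∈ s, (L a).IsHomogeneous 1) (c : ι → R) :
    (∏ a ∈ s, (L a - C (c a))).totalDegree ≤ s.card := by
  refine (totalDegree_finsetProd s _).trans ?_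
  refine (Finset.sum_le_card_nsmul s _ 1 (fun a ha => ?_)).trans (by simp)
  refine (totalDegree_sub _ _).trans (max_le (hL a ha).totalDegree_le ?_)
  rw [totalDegree_C]
  exact Nat.zero_le _

theorem top_coeff {σ R ι : Type*} [CommRing R] (s : Finset ι) (L : ι → MvPolynomial σ R)
    (hL : ∀ a ∈ s, (L a).IsHomogeneous 1) (c : ι → R) (t : σ →₀ ℕ) (ht : t.degree = s.card) :
    coeff t (∏ a ∈ s, (L a - C (c a))) = coeff t (∏ a ∈ s, L a) := by
  classical
  induction s using Finset.induction_on generalizing t with
  | empty => simp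
  | insert a s ha ih =>
    rw [Finset.prod_insert ha, Finset.prod_insert ha, sub_mul, coeff_sub, coeff_C_mul]
    rw [Finset.card_insert_of_notMem ha] at ht
    have hLs : ∀ b ∈ s, (L b).IsHomogeneous 1 := fun b hb => hL b (Finset.mem_insert_of_mem hb)
    have h0 : coeff t (∏ b ∈ s, (L b - C (c b))) = 0 := by
      apply coeff_eq_zero_of_totalDegree_lt
      have h1 := top_deg s L hLs c
      have h2 : ∑ i ∈ t.support, t i = s.card + 1 := ht
      omega
    rw [h0, mul_zero, sub_zero, coeff_mul, coeff_mul]
    refine Finset.sum_congr rfl fun p hp => ?_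
    rw [Finset.HasAntidiagonal.mem_antidiagonal] at hp
    by_cases h1 : p.1.degree = 1
    · have h2 : p.2.degree = s.card := by
        have h3 : p.1.degree + p.2.degree = s.card + 1 := by
          rw [← ht, ← hp, map_add]
        omega
      rw [ih hLs p.2 h2]
    · rw [(hL a (Finset.mem_insert_self a s)).coeff_eq_zero h1, zero_mul, zero_mul]

end Pool.Agent.H21.GH
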