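import Pool.Agent.H21.GH.Avg

/-!
[H21 GH VV]  From subprogressions to progressions of another step.

`d' = r g d`: the subprogressions have step `r (g d)` and length `Λ'`; we want progressions of step `g d` and length `P`.

Proof.  Let `z = B + d n`, `n < Λ - g P`.  `avg_ap` (with step `g d`, length `P`): `∑_{t < P} cnt R Λ' (r g d) (z + g d t) ≤ Λ' cnt R P (g d) z + r Λ'^2`.
If `b` is the number of the `t < P` with `cnt R Λ' (r g d) (z + g d t) < β Λ'` then the left side is `≥ (P - b) β Λ' ≥ (β P - b) Λ'` (`β ≤ 1`; for `β < 0` trivial), so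
`cnt R P (g d) z ≥ β P - b - r Λ' ≥ (β - γ) P - b`.  So `cnt < (β - 2γ) P` implies `b > γ P`.  `z + g d t = B + d (n + g t)` with
`n + g t < Λ`, so `∑_n b_n ≤ P δ Λ` (for each `t` the map `n ↦ n + g t` is injective into the bad set).  Hence at most `(δ/γ) Λ` of the `n`.
-/

namespace Pool.Agent.H21.GH

open Finset Pool.Agent.H11.HM

theorem vv (R : Set ℤ) (B d : ℤ) (r g Λ Λ' P : ℕ) (β γ δ : ℝ) (hγ : 0 < γ) (hδ : 0 < δ) (hβ : β ≤ 1)
    (hΛ' : 1 ≤ Λ') (hP : 1 ≤ P) (hr : (r : ℝ) * Λ' ≤ γ * P)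
    (hbad : (((range Λ).filter (fun n : ℕ =>
      (cnt R Λ' (r * (g * d)) (B + d * n) : ℝ) < β * Λ')).card : ℝ) ≤ δ * Λ) :
    (((range (Λ - g * P)).filter (fun n : ℕ =>
      (cnt R P (g * d) (B + d * n) : ℝ) < (β - 2 * γ) * P)).card : ℝ) ≤ δ / γ * Λ := by
  classical
  have hP0 : (0 : ℝ) < P := by exact_mod_cast hP
  have hL0 : (0 : ℝ) < Λ' := by exact_mod_cast hΛ'
  obtain ⟨W, hW⟩ : ∃ W : ℕ → Prop, W = fun n : ℕ => (cnt R Λ' (r * (g * d)) (B + d * n) : ℝ) < β * Λ' := ⟨_, rfl⟩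
  obtain ⟨E, hE⟩ : ∃ E, E = (range (Λ - g * P)).filter (fun n : ℕ =>
      (cnt R P (g * d) (B + d * n) : ℝ) < (β - 2 * γ) * P) := ⟨_, rfl⟩
  rw [← hE]
  have hbad' : (((range Λ).filter W).card : ℝ) ≤ δ * Λ := by
    rw [hW]
    convert hbad using 3
  -- each bad `n` has many bad `t`
  have key : ∀ n ∈ E, γ * P ≤ ∑ t ∈ range P, (if W (n + g * t) then (1 : ℝ) else 0) := by
    intro n hn
    rw [hE, Finset.mem_filter] at hn
    have h1 := avg_ap R (B + d * n) (g * d) r P Λ'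
    have h2 : ∀ t ∈ range P, β * Λ' - (if W (n + g * t) then (1 : ℝ) else 0) * Λ' ≤
        (cnt R Λ' (r * (g * d)) (B + d * n + g * d * t) : ℝ) := by
      intro t _
      have e : B + d * n + g * d * t = B + d * ((n + g * t : ℕ) : ℤ) := by
        push_cast
        ring
      rw [e]
      split_ifs with hw
      · have h3 : (0 : ℝ) ≤ (cnt R Λ' (r * (g * d)) (B + d * ((n + g * t : ℕ) : ℤ)) : ℝ) := Nat.cast_nonneg _
        nlinarith
      · rw [hW] at hw
        simp only [not_lt] at hw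
        linarith
    have h3 := Finset.sum_le_sum h2
    rw [Finset.sum_sub_distrib, Finset.sum_const, Finset.card_range, nsmul_eq_mul, ← Finset.sum_mul] at h3
    have h4 := (abs_le.1 h1).2
    obtain ⟨b, hb⟩ : ∃ b, b = ∑ t ∈ range P, (if W (n + g * t) then (1 : ℝ) else 0) := ⟨_, rfl⟩
    rw [← hb] at h3 ⊢
    have h5 : (P : ℝ) * (β * Λ') - b * Λ' - (Λ' : ℝ) * cnt R P (g * d) (B + d * n) ≤ r * (Λ' : ℝ) ^ 2 := by linarith
    have h6 := hn.2
    have h7 : (Λ' : ℝ) * cnt R P (g * d) (B + d * n) < Λ' * ((β - 2 * γ) * P) := mul_lt_mul_of_pos_left h6 hL0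
    have h8 : r * (Λ' : ℝ) ^ 2 ≤ γ * P * Λ' := by
      calc r * (Λ' : ℝ) ^ 2 = (r * Λ') * Λ' := by ring
        _ ≤ γ * P * Λ' := mul_le_mul_of_nonneg_right hr hL0.le
    by_contra hc
    rw [not_le] at hc
    have h9 : b * Λ' < γ * P * Λ' := mul_lt_mul_of_pos_right hc hL0
    nlinarith
  -- double counting
  have h1 : (E.card : ℝ) * (γ * P) ≤ ∑ n ∈ E, ∑ t ∈ range P, (if W (n + g * t) then (1 : ℝ) else 0) := by
    rw [← nsmul_eq_mul]
    exact Finset.card_nsmul_le_sum _ _ _ key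
  rw [Finset.sum_comm] at h1
  have h2 : ∀ t ∈ range P, ∑ n ∈ E, (if W (n + g * t) then (1 : ℝ) else 0) ≤ δ * Λ := by
    intro t ht
    rw [Finset.mem_range] at ht
    refine le_trans ?_ hbad'
    rw [Finset.sum_boole]
    have h3 : (E.filter (fun n => W (n + g * t))).card ≤ ((range Λ).filter W).card := by
      refine Finset.card_le_card_of_injOn (fun n => n + g * t) ?_ ?_
      · intro n hn
        rw [Finset.mem_coe, Finset.mem_filter, hE, Finset.mem_filter, Finset.mem_range] at hn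
        rw [Finset.mem_coe, Finset.mem_filter, Finset.mem_range]
        refine ⟨?_, hn.2⟩
        have h4 : g * t ≤ g * P := Nat.mul_le_mul_left _ ht.le
        have h5 := hn.1.1
        simp only
        omega
      · intro a _ b _ hab
        simp only at hab
        omega
    exact_mod_cast h3
  have h3 := Finset.sum_le_sum h2
  rw [Finset.sum_const, Finset.card_range, nsmul_eq_mul] at h3
  have h4 : (E.card : ℝ) * (γ * P) ≤ P * (δ * Λ) := h1.trans h3
  rw [div_mul_eq_mul_div, le_div_iff₀ hγ]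
  have h5 : (E.card : ℝ) * γ * P ≤ δ * Λ * P := by linarith
  exact le_of_mul_le_mul_right h5 hP0

end Pool.Agent.H21.GH
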