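import Pool.Agent.H21.GH.Sup

/-!
[H21 GH WRP]  The wrapped count.

Given `super` with its constants: for `c > 0`, a prime `P` for which sets of density `≥ 1/2 + ε` in `ZMod P` have at least `c P^4`
`K_4`'s (hypothesis `hP`), `m ≥ 1`, `N ≥ 1` and sets `C e ⊆ Z` such that for each `e` at most `κ N` of the `w ∈ (-N, N)` have
`cnt (C e) P m w < (1/2 + ε) P`.  For `x ∈ [0,P)^4` and `e` with `pr e = (i, j)` let `ω e x = m (x_j - x_i) + (m P if x_j < x_i)`
(`= m ((x_j - x_i) mod P)`).  Claim: `∑_{x ∈ [0,P)^4} ∑_{y ∈ [0,N)^4} ∏_e ind (C e) (y_j - y_i + ω e x) ≥ (1 - 6 κ) c P^4 N^4`.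

Proof.  Exchange the sums.  For fixed `y = (a, b, c', d)` let `D e ⊆ ZMod P` = the residues `t` with `y_j - y_i + m t.val ∈ C e`; `|D e| = cnt (C e) P m
(y_j - y_i)`.  If all six are `≥ (1/2 + ε) P` the inner sum over `x` is the number of the `x : Fin 4 → ZMod P` with `x_j - x_i ∈ D e` for all `e`
(bijection `x ↦ val`; `(x_j - x_i).val = x_j.val - x_i.val (+ P if negative)`), so `≥ c P^4`.  The `y` for which this fails: for
some `e` the difference `w = y_j - y_i ∈ (-N, N)` is one of the `κ N` exceptions, and there are at most `N^3` such `y` for each `w`: in total at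
most `6 κ N^4`.  (`c P^4 ≤ P^4 ...`: only `c ≥ 0` is needed.)
-/

namespace Pool.Agent.H21.GH

open Finset Pool.Agent.H11.HM

/-- the shift of the pair with coordinates `x < P`, `x' < P` -/
def om (m P x x' : ℕ) : ℤ := (m : ℤ) * ((x' : ℤ) - x) + if x' < x then (m : ℤ) * P else 0

theorem om_eq (m P : ℕ) [NeZero P] (x x' : ZMod P) :
    om m P x.val x'.val = (m : ℤ) * (((x' - x).val : ℕ) : ℤ) := by
  have h1 : (((x' - x).val : ℕ) : ℤ) = ((x'.val : ℤ) - x.val) % P := by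
    have h2 : x' - x = (((x'.val : ℤ) - x.val : ℤ) : ZMod P) := by
      push_cast
      rw [ZMod.natCast_zmod_val, ZMod.natCast_zmod_val]
    rw [h2, ZMod.val_intCast]
  have hx : x.val < P := ZMod.val_lt x
  have hx' : x'.val < P := ZMod.val_lt x'
  rw [h1]
  unfold om
  split_ifs with h
  · have h3 : ((x'.val : ℤ) - x.val) % P = (x'.val : ℤ) - x.val + P := by
      rw [← Int.add_emod_right]
      apply Int.emod_eq_of_lt <;> omega
    rw [h3]
    ring
  · have h3 : ((x'.val : ℤ) - x.val) % P = (x'.val : ℤ) - x.val := by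
      apply Int.emod_eq_of_lt <;> omega
    rw [h3]
    ring

open Classical in
/-- the inner sum -/
theorem inner_wrapped (ε c : ℝ) (P m : ℕ) [NeZero P]
    (hP : ∀ D : Fin 6 → Finset (ZMod P), (∀ e, (1 / 2 + ε) * P ≤ ((D e).card : ℝ)) →
      c * (P : ℝ) ^ 4 ≤ (((univ : Finset (Fin 4 → ZMod P)).filter
        (fun x => ∀ e, x (pr e).2 - x (pr e).1 ∈ D e)).card : ℝ))
    (C : Fin 6 → Set ℤ) (y : Fin 6 → ℤ)
    (hC : ∀ e, (1 / 2 + ε) * P ≤ (cnt (C e) P m (y e) : ℝ)) :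
    c * (P : ℝ) ^ 4 ≤ ∑ x ∈ Fintype.piFinset (fun _ : Fin 4 => range P),
      ∏ e, ind (C e) (y e + om m P (x (pr e).1) (x (pr e).2)) := by
  obtain ⟨D, hD⟩ : ∃ D : Fin 6 → Finset (ZMod P), D = fun e => univ.filter
    (fun t : ZMod P => y e + (m : ℤ) * ((t.val : ℕ) : ℤ) ∈ C e) := ⟨_, rfl⟩
  have hDc : ∀ e, (1 / 2 + ε) * P ≤ ((D e).card : ℝ) := by
    intro e
    refine (hC e).trans ?_
    have : cnt (C e) P m (y e) ≤ (D e).card := by
      unfold cnt
      apply card_le_card_of_injOn (fun n : ℕ => (n : ZMod P))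
      · intro n hn
        rw [mem_coe, mem_filter, mem_range] at hn
        rw [hD, mem_coe]
        simp only [mem_filter, mem_univ, true_and]
        rw [ZMod.val_natCast, Nat.mod_eq_of_lt hn.1]
        exact hn.2
      · intro n hn n' hn' h
        rw [mem_coe, mem_filter, mem_range] at hn hn'
        have h1 := congrArg ZMod.val h
        simp only at h1
        rw [ZMod.val_natCast, ZMod.val_natCast, Nat.mod_eq_of_lt hn.1, Nat.mod_eq_of_lt hn'.1] at h1
        exact h1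
    exact_mod_cast this
  refine (hP D hDc).trans ?_
  have h1 : (((univ : Finset (Fin 4 → ZMod P)).filter
        (fun x => ∀ e, x (pr e).2 - x (pr e).1 ∈ D e)).card : ℝ) =
      ∑ z ∈ ((univ : Finset (Fin 4 → ZMod P)).filter
        (fun x => ∀ e, x (pr e).2 - x (pr e).1 ∈ D e)),
        ∏ e, ind (C e) (y e + om m P (z (pr e).1).val (z (pr e).2).val) := by
    rw [card_eq_sum_ones]
    push_cast
    apply sum_congr rfl
    intro z hz
    rw [mem_filter] at hz
    symm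
    apply prod_eq_one
    intro e _
    have h2 := hz.2 e
    rw [hD] at h2
    simp only [mem_filter, mem_univ, true_and] at h2
    rw [om_eq]
    unfold ind
    rw [if_pos h2]
  rw [h1]
  have h2 : ∑ z ∈ ((univ : Finset (Fin 4 → ZMod P)).filter
        (fun x => ∀ e, x (pr e).2 - x (pr e).1 ∈ D e)),
        ∏ e, ind (C e) (y e + om m P (z (pr e).1).val (z (pr e).2).val) =
      ∑ x ∈ (((univ : Finset (Fin 4 → ZMod P)).filter
        (fun x => ∀ e, x (pr e).2 - x (pr e).1 ∈ D e)).image (fun z i => (z i).val)),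
        ∏ e, ind (C e) (y e + om m P (x (pr e).1) (x (pr e).2)) := by
    rw [sum_image]
    intro z _ z' _ h
    funext i
    exact ZMod.val_injective P (congrFun h i)
  rw [h2]
  apply sum_le_sum_of_subset_of_nonneg
  · intro x hx
    rw [mem_image] at hx
    obtain ⟨z, -, rfl⟩ := hx
    rw [Fintype.mem_piFinset]
    intro i
    rw [mem_range]
    exact ZMod.val_lt _
  · intro x _ _
    apply prod_nonneg
    intro e _
    unfold ind
    split_ifs <;> norm_num

/-- two variables -/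
theorem pair_bad (N : ℕ) (B : ℤ → Prop) [DecidablePred B] (f : ℤ → ℝ)
    (hf : ∀ w, f w = if B w then 1 else 0) :
    ∑ a ∈ range N, ∑ b ∈ range N, f ((b : ℤ) - a) ≤
      (N : ℝ) * (((Ioo (-(N : ℤ)) N).filter (fun w => B w)).card : ℝ) := by
  have h1 : ∀ a ∈ range N, ∑ b ∈ range N, f ((b : ℤ) - a) ≤
      (((Ioo (-(N : ℤ)) N).filter (fun w => B w)).card : ℝ) := by
    intro a ha
    rw [mem_range] at ha
    simp only [hf]
    rw [← sum_filter, sum_const, nsmul_eq_mul, mul_one]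
    have : ((range N).filter (fun b : ℕ => B ((b : ℤ) - a))).card ≤
        ((Ioo (-(N : ℤ)) N).filter (fun w => B w)).card := by
      apply card_le_card_of_injOn (fun b : ℕ => (b : ℤ) - a)
      · intro b hb
        rw [mem_coe, mem_filter, mem_range] at hb
        rw [mem_coe, mem_filter, mem_Ioo]
        refine ⟨⟨?_, ?_⟩, hb.2⟩
        · change -(N : ℤ) < (b : ℤ) - a
          omega
        · change (b : ℤ) - a < N
          omega
      · intro b _ b' _ h
        simp only at h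
        omega
    exact_mod_cast this
  refine (sum_le_sum h1).trans (le_of_eq ?_)
  rw [sum_const, card_range, nsmul_eq_mul]

open Classical in
theorem wrapped (ε κ c : ℝ) (hc : 0 ≤ c) (P m N : ℕ) (hP0 : P.Prime) [NeZero P]
    (hP : ∀ D : Fin 6 → Finset (ZMod P), (∀ e, (1 / 2 + ε) * P ≤ ((D e).card : ℝ)) →
      c * (P : ℝ) ^ 4 ≤ (((univ : Finset (Fin 4 → ZMod P)).filter
        (fun x => ∀ e, x (pr e).2 - x (pr e).1 ∈ D e)).card : ℝ))
    (C : Fin 6 → Set ℤ)
    (hC : ∀ e, (((Ioo (-(N : ℤ)) N).filter (fun w => (cnt (C e) P m w : ℝ) < (1 / 2 + ε) * P)).card : ℝ) ≤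
      κ * N) :
    (1 - 6 * κ) * c * (P : ℝ) ^ 4 * (N : ℝ) ^ 4 ≤
      ∑ x ∈ Fintype.piFinset (fun _ : Fin 4 => range P),
        ∑ a ∈ range N, ∑ b ∈ range N, ∑ c ∈ range N, ∑ d ∈ range N,
          ind (C 0) ((b : ℤ) - a + om m P (x 0) (x 1)) * ind (C 1) ((c : ℤ) - a + om m P (x 0) (x 2)) *
            ind (C 2) ((d : ℤ) - a + om m P (x 0) (x 3)) * ind (C 3) ((c : ℤ) - b + om m P (x 1) (x 2)) *
            ind (C 4) ((d : ℤ) - b + om m P (x 1) (x 3)) * ind (C 5) ((d : ℤ) - c + om m P (x 2) (x 3)) := by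
  have hsw : (∑ x ∈ Fintype.piFinset (fun _ : Fin 4 => range P),
        ∑ a ∈ range N, ∑ b ∈ range N, ∑ c ∈ range N, ∑ d ∈ range N,
          ind (C 0) ((b : ℤ) - a + om m P (x 0) (x 1)) * ind (C 1) ((c : ℤ) - a + om m P (x 0) (x 2)) *
            ind (C 2) ((d : ℤ) - a + om m P (x 0) (x 3)) * ind (C 3) ((c : ℤ) - b + om m P (x 1) (x 2)) *
            ind (C 4) ((d : ℤ) - b + om m P (x 1) (x 3)) * ind (C 5) ((d : ℤ) - c + om m P (x 2) (x 3))) =
      ∑ a ∈ range N, ∑ b ∈ range N, ∑ c ∈ range N, ∑ d ∈ range N,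
        ∑ x ∈ Fintype.piFinset (fun _ : Fin 4 => range P),
          ind (C 0) ((b : ℤ) - a + om m P (x 0) (x 1)) * ind (C 1) ((c : ℤ) - a + om m P (x 0) (x 2)) *
            ind (C 2) ((d : ℤ) - a + om m P (x 0) (x 3)) * ind (C 3) ((c : ℤ) - b + om m P (x 1) (x 2)) *
            ind (C 4) ((d : ℤ) - b + om m P (x 1) (x 3)) * ind (C 5) ((d : ℤ) - c + om m P (x 2) (x 3)) := by
    rw [sum_comm]
    refine sum_congr rfl fun a _ => ?_
    rw [sum_comm]
    refine sum_congr rfl fun b _ => ?_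
    rw [sum_comm]
    refine sum_congr rfl fun c _ => ?_
    rw [sum_comm]
  rw [hsw]
  obtain ⟨f, hf⟩ : ∃ f : Fin 6 → ℤ → ℝ, ∀ e w, f e w =
    if (cnt (C e) P m w : ℝ) < (1 / 2 + ε) * P then 1 else 0 := ⟨fun e w => _, fun e w => rfl⟩
  have hf0 : ∀ e w, 0 ≤ f e w := by
    intro e w
    rw [hf]
    split_ifs <;> norm_num
  have hpair : ∀ e, ∑ a ∈ range N, ∑ b ∈ range N, f e ((b : ℤ) - a) ≤ κ * (N : ℝ) ^ 2 := by
    intro e
    refine (pair_bad N _ (f e) (hf e)).trans ?_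
    have := mul_le_mul_of_nonneg_left (hC e) (Nat.cast_nonneg (α := ℝ) N)
    refine this.trans (le_of_eq (by ring))
  have hcP : 0 ≤ c * (P : ℝ) ^ 4 := by positivity
  -- pointwise
  have hpt : ∀ a b c' d : ℕ, c * (P : ℝ) ^ 4 * (1 - (f 0 ((b : ℤ) - a) + f 1 ((c' : ℤ) - a) +
      f 2 ((d : ℤ) - a) + f 3 ((c' : ℤ) - b) + f 4 ((d : ℤ) - b) + f 5 ((d : ℤ) - c'))) ≤
        ∑ x ∈ Fintype.piFinset (fun _ : Fin 4 => range P),
          ind (C 0) ((b : ℤ) - a + om m P (x 0) (x 1)) * ind (C 1) ((c' : ℤ) - a + om m P (x 0) (x 2)) *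
            ind (C 2) ((d : ℤ) - a + om m P (x 0) (x 3)) * ind (C 3) ((c' : ℤ) - b + om m P (x 1) (x 2)) *
            ind (C 4) ((d : ℤ) - b + om m P (x 1) (x 3)) * ind (C 5) ((d : ℤ) - c' + om m P (x 2) (x 3)) := by
    intro a b c' d
    obtain ⟨y, hy⟩ : ∃ y : Fin 6 → ℤ, y = ![(b : ℤ) - a, (c' : ℤ) - a, (d : ℤ) - a, (c' : ℤ) - b,
      (d : ℤ) - b, (d : ℤ) - c'] := ⟨_, rfl⟩
    have hprod : ∀ x : Fin 4 → ℕ, ind (C 0) ((b : ℤ) - a + om m P (x 0) (x 1)) *
        ind (C 1) ((c' : ℤ) - a + om m P (x 0) (x 2)) *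
            ind (C 2) ((d : ℤ) - a + om m P (x 0) (x 3)) * ind (C 3) ((c' : ℤ) - b + om m P (x 1) (x 2)) *
            ind (C 4) ((d : ℤ) - b + om m P (x 1) (x 3)) * ind (C 5) ((d : ℤ) - c' + om m P (x 2) (x 3)) =
        ∏ e, ind (C e) (y e + om m P (x (pr e).1) (x (pr e).2)) := by
      intro x
      rw [Fin.prod_univ_six, hy]
      rfl
    have hnn : 0 ≤ ∑ x ∈ Fintype.piFinset (fun _ : Fin 4 => range P),
        ∏ e, ind (C e) (y e + om m P (x (pr e).1) (x (pr e).2)) := by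
      apply sum_nonneg
      intro x _
      apply prod_nonneg
      intro e _
      unfold ind
      split_ifs <;> norm_num
    rw [sum_congr rfl fun x _ => hprod x]
    have hsum : f 0 ((b : ℤ) - a) + f 1 ((c' : ℤ) - a) +
      f 2 ((d : ℤ) - a) + f 3 ((c' : ℤ) - b) + f 4 ((d : ℤ) - b) + f 5 ((d : ℤ) - c') =
        ∑ e, f e (y e) := by
      rw [Fin.sum_univ_six, hy]
      rfl
    rw [hsum]
    by_cases hg : ∀ e, (1 / 2 + ε) * P ≤ (cnt (C e) P m (y e) : ℝ)
    · have h1 := inner_wrapped ε c P m hP C y hg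
      refine le_trans ?_ h1
      have h2 : 0 ≤ ∑ e, f e (y e) := sum_nonneg fun e _ => hf0 e _
      nlinarith
    · push Not at hg
      obtain ⟨e, he⟩ := hg
      have h2 : 1 ≤ ∑ e, f e (y e) := by
        have h3 : f e (y e) = 1 := by
          rw [hf, if_pos he]
        rw [← h3]
        exact single_le_sum (f := fun e => f e (y e)) (fun e _ => hf0 e _) (mem_univ e)
      refine le_trans ?_ hnn
      nlinarith
  refine le_trans ?_ (sum_le_sum fun a _ => sum_le_sum fun b _ => sum_le_sum fun c' _ =>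
    sum_le_sum fun d _ => hpt a b c' d)
  simp only [← mul_sum, sum_sub_distrib, sum_add_distrib, sum_const, card_range, nsmul_eq_mul, mul_one]
  have g0 := hpair 0
  have g1 := hpair 1
  have g2 := hpair 2
  have g3 := hpair 3
  have g4 := hpair 4
  have g5 := hpair 5
  have hN : (0 : ℝ) ≤ N := Nat.cast_nonneg _
  have hN2 : (0 : ℝ) ≤ (N : ℝ) ^ 2 := by positivity
  have k0 := mul_le_mul_of_nonneg_left g0 hN2
  have k1 := mul_le_mul_of_nonneg_left g1 hN2
  have k2 := mul_le_mul_of_nonneg_left g2 hN2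
  have k3 := mul_le_mul_of_nonneg_left g3 hN2
  have k4 := mul_le_mul_of_nonneg_left g4 hN2
  have k5 := mul_le_mul_of_nonneg_left g5 hN2
  rw [show (1 - 6 * κ) * c * (P : ℝ) ^ 4 * (N : ℝ) ^ 4 =
    c * (P : ℝ) ^ 4 * ((N : ℝ) ^ 4 - 6 * ((N : ℝ) ^ 2 * (κ * (N : ℝ) ^ 2))) by ring]
  apply mul_le_mul_of_nonneg_left _ hcP
  nlinarith

end Pool.Agent.H21.GH
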